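import Pool.Agent.MX.LowK5
import Pool.Agent.MX.S.Main

/-!
# The small indices: the edges with equal signs
-/

set_option autoImplicit false

namespace Pool.Agent.MX

open Complex Pool.Agent.S3
open Pool.Agent.H25.RK (gdv gdv_re_lt gdv_hasDerivAt)

section

variable {Φ : ℂ → ℂ → ℂ} {θ θ' xc xc' b b' a a' : ℝ} {v w : ℂ}

theorem SamHyp.ht4 (h : SamHyp θ θ') : Ht4 θ := ⟨h.ht, h.θ1⟩

theorem Phi_conj_zero (hΦ : IsPhi Φ) (hw : |w.re| < 1 / 2) :
    (Φ 0 ((starRingEnd ℂ) w)).re = (Φ 0 w).re := by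
  have hz : |(0 : ℂ).re| < 1 / 2 := by
    rw [zero_re, abs_zero]
    norm_num
  have hu0 : (uof 0).im = 0 := by
    have := igd_real_im (R := 0) (by rw [abs_zero]; linarith [Real.pi_pos])
    rw [uof, mul_zero]
    rwa [LowA_UU0, ofReal_zero] at this
  have := Phi_conj_re hΦ hz hw (by
    unfold Reg
    rw [hu0, abs_zero, zero_add]
    exact uof_im_lt hw)
  rwa [map_zero] at this

theorem ab_mir (w : ℂ) : ab (mir w) = ab w := by
  unfold ab
  split_ifs with h1 h2 h2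
  · rw [mir_re] at h1
    have h3 : w.re = 0 := by linarith
    apply Complex.ext
    · rw [mir_re, h3, neg_zero]
    · rw [mir_im]
  · rfl
  · rw [mir_mir]
  · exfalso
    rw [mir_re] at h1
    push Not at h1 h2
    linarith

/-- The bound does not increase under the reflection of a vertex with negative real part. -/
theorem lwf_ab (hθ : Ht θ) (ha : 0 < a) (hb : 0 < b) {vc Q : ℂ}
    (hQ : Q.re = b * (Real.pi * vc.im)) (hv : v ∈ G0 θ (13 / 40)) :
    lwf θ (13 / 40) vc Q b a (ab v) ≤ lwf θ (13 / 40) vc Q b a v := by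
  unfold ab
  split_ifs with h
  · exact le_rfl
  · push Not at h
    rw [lwf_neg V1_t ha.ne' hQ hv h.le]
    have h1 : 0 ≤ (pl θ (13 / 40) (mir v)).re := by
      rw [pl_re]
      exact le_max_of_le_right (le_min (by norm_num) (by rw [mir_re]; linarith))
    have h2 := G0_im hv (by norm_num) hθ.pos.le hθ.lt
    have hpi := Real.pi_pos
    have : 0 ≤ 4 * Real.pi * b * (pl θ (13 / 40) (mir v)).re * v.im := by positivity
    linarith

/-- The bound at the test points is at least the value of the potential. -/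
theorem lowS_ge (H : OOS Φ θ θ' xc xc' b b' a a') : (Φ (tk θ) (tk θ')).re ≤
    LLS θ θ' b b' xc xc' a a' (tk θ) (tk θ') := by
  have T := tp_tk H.ho.ht4
  have T' := tp_tk H.ho.symm.ht4
  have m1 := T.mem (v1 := 13 / 40) (by norm_num)
  have m2 := T'.mem (v1 := 13 / 40) (by norm_num)
  have k2 := H.Phi_le m1 T.re0.le m2 T'.re0.le
  rwa [T.cmp (by norm_num), T'.cmp (by norm_num), ← H.LL_pp m1 T.re0.le m2 T'.re0.le] at k2

/-- The bound at the test points. -/
theorem lowS_bad (H : OOS Φ θ θ' xc xc' b b' a a') : rK θ + rK θ' <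
    LLS θ θ' b b' xc xc' a a' (tk θ) (tk θ') :=
  (low_K1s H.hΦ H.h0 H.ho.ht4 H.ho.symm.ht4).1.trans_le (lowS_ge H)

theorem flatAll_same (h : SamHyp θ θ') : FlatAll θ θ' (13 / 40) (13 / 40) :=
  flatAll_of h.ht h.symm.ht h.S le_rfl le_rfl

/-- Both vertices near the real axis. -/
theorem lowS_rr (H : OOS Φ θ θ' xc xc' b b' a a') {x x' : ℝ}
    (hx : |x| ≤ 1 / 2) (hx' : |x'| ≤ 1 / 2) : EdgeOK (.op (x : ℂ)) (.op (x' : ℂ))
      (LLS θ θ' b b' xc xc' a a' (tk θ) (tk θ')) := by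
  have k0 := lowS_ge H
  have k1 := LowA_c00_gt
  have k2 := (low_K1s H.hΦ H.h0 H.ho.ht4 H.ho.symm.ht4).2
  rw [← H.h0] at k1
  exact S3.low_rr H.hΦ H.h0 H.ho.ht H.ho.symm.ht H.ho.S
    (flatAll_same H.ho 0 0 (Und_zero H.ho.ht) (Und_zero H.ho.symm.ht) (by norm_num)
      (by norm_num)) (by linarith) (by linarith) hx hx'

/-- The first vertex near the real axis. -/
theorem lowS_rg (H : OOS Φ θ θ' xc xc' b b' a a') (hw : w ∈ G0 θ' (13 / 40)) {x : ℝ}
    (hx : |x| ≤ 1 / 2) : EdgeOK (.op (x : ℂ)) (.op w)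
      (LLS θ θ' b b' xc xc' a a' (tk θ) w) := by
  have T := tp_tk H.ho.ht4
  have m1 := T.mem (v1 := 13 / 40) (by norm_num)
  have hm := ab_mem hw
  have hr := ab_re w
  have hu := cmp_und V1_t hm hr H.ho.symm.ht
  have k1 := low_K3s H.hΦ H.ho.ht4 hu H.ho.symm.ht4 (cmp_re _)
  have k3 := H.Phi_le m1 T.re0.le hm hr
  rw [T.cmp (by norm_num), ← H.LL_pp m1 T.re0.le hm hr] at k3
  have k4 : LLS θ θ' b b' xc xc' a a' (tk θ) (ab w) ≤ LLS θ θ' b b' xc xc' a a' (tk θ) w := by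
    have := lwf_ab (vc := gdv (UU xc' θ')) (Q := qq (UU xc' θ') (UU xc θ)) H.ho.symm.ht H.ha'
      H.hs.symm.b0 H.hQ' hw
    unfold LLS
    linarith
  have e : (Φ 0 ((starRingEnd ℂ) (cmp (13 / 40) (ab (mir w))))).re =
      (Φ 0 (cmp (13 / 40) (ab w))).re := by
    rw [ab_mir]
    exact Phi_conj_zero H.hΦ hu.abs
  exact low_rg_ab H.hΦ H.h0 H.ho.ht H.ho.symm.ht H.ho.S V1_t V1_t (flatAll_same H.ho) hw
    (by rw [e]; linarith) hx

theorem OOS.swap (H : OOS Φ θ θ' xc xc' b b' a a') :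
    OOS (fun v w => Φ w v) θ' θ xc' xc b' b a' a where
  hΦ := H.hΦ.swap
  h0 := H.h0
  ho := H.ho.symm
  hs := H.hs.symm
  hc := H.hc'
  hc' := H.hc
  hr := H.hr'
  hr' := H.hr
  ha := H.ha'
  ha' := H.ha
  nb := H.nb'
  nb' := H.nb

theorem LLS_swap (v w : ℂ) : LLS θ' θ b' b xc' xc a' a w v = LLS θ θ' b b' xc xc' a a' v w := by
  unfold LLS
  rw [yy_comm, EE, EE]
  ring

/-- The second vertex near the real axis. -/
theorem lowS_gr (H : OOS Φ θ θ' xc xc' b b' a a') (hv : v ∈ G0 θ (13 / 40)) {x : ℝ}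
    (hx : |x| ≤ 1 / 2) : EdgeOK (.op v) (.op (x : ℂ))
      (LLS θ θ' b b' xc xc' a a' v (tk θ')) := by
  have k := (lowS_rg H.swap hv hx).symm
  rwa [LLS_swap] at k

end

end Pool.Agent.MX
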