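import Pool.Agent.MX.CritCfg
import Pool.Agent.MX.S.MirS
import Pool.Agent.AT.WCfg

/-!
# The edges of a tree with arbitrary signs
-/

set_option autoImplicit false
set_option linter.unusedSectionVars false

namespace Pool.Agent.MX

open Pool.Agent.S3 hiding Cfg oth OOD lamC cfgOf EdC Qv mem_Op uc_neg uc_pos slc_op crit edC
  oth_cs oth_su ell_mirror wr_mirror lamC_sum vcC_neg vcC_pos r_neg r_pos evC lw_neg lw_pos gdv_re_eq
  apos β_eq yc_eq Qv_neg Qv_pos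
open Complex
open Pool.Agent.H63.VC7 (inc)
open Pool.Agent.S3.E
open Pool.Agent.AT (Tr oth Adj adj_cs adj_su oth_cs oth_su mem_inc mem_inc_par mem_inc_succ exists_edge
  Cfg ell_mirror wr_mirror OOD)
open Pool.Agent.MX.G (uz qm)
open Pool.Agent.H25.RK (gdv gdv_re_lt gdv_hasDerivAt ul)

variable {m : ℕ} [Tr m]

/-- The weight of the vertex `i` in the edge `j`. -/
noncomputable def lamC (a : Fin (m + 1) → ℕ) (σ : Fin (m + 1) → ℤ) (z : Fin (m + 1) → ℂ)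
    (j : Fin m) (i : Fin (m + 1)) : ℝ := bm σ z i (oth j i) / a i

section

variable {a : Fin (m + 1) → ℕ} {σ : Fin (m + 1) → ℤ} {z : Fin (m + 1) → ℂ}

theorem lamC_sum (h : MZ a σ z) (ha : ∀ i, 2 ≤ a i) (i : Fin (m + 1)) :
    ∑ j ∈ inc (Tr.par (m := m)) Fin.succ i, lamC a σ z j i = 1 := by
  have h0 : (a i : ℝ) ≠ 0 := by
    have := ha i
    positivity
  unfold lamC
  rw [← Finset.sum_div, h.sum_bm i, div_self h0]

theorem uz_neg (w : ℂ) : uz (-1) w = UU (xx w.re w.im) (th w.re w.im) := if_neg (by decide)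

theorem uz_pos (w : ℂ) : uz 1 w = -((starRingEnd ℂ) (UU (xx w.re w.im) (th w.re w.im))) :=
  if_pos rfl

theorem vcC_neg {i : Fin (m + 1)} (h : σ i = -1) : (cfgOf a σ z).vc i =
    gdv (UU (xx (z i).re (z i).im) (th (z i).re (z i).im)) := by
  unfold AT.Cfg.vc
  rw [uc_neg h]
  rfl

theorem vcC_pos {i : Fin (m + 1)} (hθ : |th (z i).re (z i).im| < Real.pi / 2) (h : σ i = 1) :
    (cfgOf a σ z).vc i = mir (gdv (UU (xx (z i).re (z i).im) (th (z i).re (z i).im))) := by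
  unfold AT.Cfg.vc
  rw [uc_pos h]
  have e : -((starRingEnd ℂ) (E.uu (z i))) =
      UU (-(xx (z i).re (z i).im)) (th (z i).re (z i).im) := by
    unfold E.uu
    rw [UU_conj, UU_neg, neg_neg]
  rw [e, gdv_refl hθ, mir]

theorem r_neg {i : Fin (m + 1)} (h : σ i = -1) : (cfgOf a σ z).r i = -(a i : ℝ) / 2 := by
  show (σ i : ℝ) * a i / 2 = _
  rw [h]; push_cast; ring

theorem r_pos {i : Fin (m + 1)} (h : σ i = 1) : (cfgOf a σ z).r i = -(-(a i : ℝ) / 2) := by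
  show (σ i : ℝ) * a i / 2 = _
  rw [h]; push_cast; ring

theorem evC {j : Fin m} (H : EdC a σ z j) {i : Fin (m + 1)}
    (hj : i = (Tr.par j) ∨ i = j.succ) :
    -(ev ((cfgOf a σ z).yc j) ((cfgOf a σ z).vc i)) / 2 = Qv σ z j i := by
  rcases hj with h | h
  · rw [h, H.ev1]; ring
  · rw [h, H.ev2]; ring

/-- The share of a vertex with the sign `-1`. -/
theorem lw_neg {j : Fin m} (H : EdC a σ z j) {v1 : Fin (m + 1) → ℝ} {i : Fin (m + 1)}
    (hj : i = (Tr.par j) ∨ i = j.succ) (s : σ i = -1) (v : ℂ) :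
    (cfgOf a σ z).lw v1 (lamC a σ z) j i v =
      lwf (th (z i).re (z i).im) (v1 i) (gdv (UU (xx (z i).re (z i).im) (th (z i).re (z i).im)))
        (qm (σ i) (σ (oth j i)) (z i) (z (oth j i))) (bm σ z i (oth j i)) (a i) v := by
  unfold AT.Cfg.lw AT.Cfg.lv lwf
  rw [if_pos (mem_Op i), if_pos (mem_Op i), evC H hj, Qv_neg s, vcC_neg s, r_neg s,
    β_eq]
  have e : (2 * Real.pi * (σ i : ℝ) * bm σ z i (oth j i)) =
      -2 * Real.pi * bm σ z i (oth j i) := by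
    rw [s]
    push_cast
    ring
  rw [e]
  rfl

/-- The share of a vertex with the sign `1`. -/
theorem lw_pos {j : Fin m} (H : EdC a σ z j) {v1 : Fin (m + 1) → ℝ} {i : Fin (m + 1)}
    (hv1 : V1 (v1 i)) (hθ : |th (z i).re (z i).im| < Real.pi / 2)
    (hj : i = (Tr.par j) ∨ i = j.succ) (s : σ i = 1) (v : ℂ) :
    (cfgOf a σ z).lw v1 (lamC a σ z) j i v =
      lwf (th (z i).re (z i).im) (v1 i) (gdv (UU (xx (z i).re (z i).im) (th (z i).re (z i).im)))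
        (qm (σ i) (σ (oth j i)) (z i) (z (oth j i))) (bm σ z i (oth j i)) (a i) (mir v) := by
  unfold AT.Cfg.lw AT.Cfg.lv lwf
  rw [if_pos (mem_Op i), if_pos (mem_Op i), evC H hj, Qv_pos s, vcC_pos hθ s, r_pos s,
    β_eq]
  have e : (2 * Real.pi * (σ i : ℝ) * bm σ z i (oth j i)) =
      -(-2 * Real.pi * bm σ z i (oth j i)) := by
    rw [s]
    push_cast
    ring
  rw [e, wr_mirror, wr_mirror, pl_mir hv1, ← ell_mirror]
  rfl

theorem gdv_re_eq (h : MZ a σ z) (i : Fin (m + 1)) :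
    (gdv (UU (xx (z i).re (z i).im) (th (z i).re (z i).im))).re = (z i).re / Real.pi := by
  have h1 := h.gd_uu i
  rw [gd_eq (by rw [UU_im]; exact abs_th_lt (h.pos i).1 (h.pos i).2.1 (h.pos i).2.2)] at h1
  have h2 := congrArg Complex.re h1
  rw [re_ofReal_mul] at h2
  rw [eq_div_iff Real.pi_ne_zero]
  linarith

theorem apos (ha : ∀ i, 2 ≤ a i) (i : Fin (m + 1)) : (0 : ℝ) < a i := by
  have := ha i
  have h : 0 < a i := by omega
  exact_mod_cast h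

/-! ### Slots -/

theorem qm_ne {s t : ℤ} (h : s ≠ t) (u w : ℂ) : qm s t u w = qe u w := by
  unfold qm qe E.uu
  rw [if_neg h, UU_conj]

theorem qm_eq {s t : ℤ} (h : s = t) (u w : ℂ) :
    qm s t u w = qq (UU (xx u.re u.im) (th u.re u.im)) (UU (xx w.re w.im) (th w.re w.im)) :=
  if_pos h

theorem bm_ne {i k : Fin (m + 1)} (h : σ i ≠ σ k) : bm σ z i k = bw (z i) (z k) := by
  unfold bm bw
  rw [qm_ne h]

/-! ### The bound of an edge -/

section

variable {v1 : Fin (m + 1) → ℝ} {j : Fin m}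

/-- `par j` has the sign `-1`, `j.succ` has the sign `1`. -/
theorem Lw_np (h : MZ a σ z) (hv1 : ∀ i, V1 (v1 i)) (H : EdC a σ z j)
    (s1 : σ (Tr.par j) = -1) (s2 : σ j.succ = 1) (v w : ℂ) :
    (cfgOf a σ z).Lw v1 (lamC a σ z) j v w =
      LL1 (th (z (Tr.par j)).re (z (Tr.par j)).im) (th (z j.succ).re (z j.succ).im)
        (bm σ z (Tr.par j) j.succ) (bm σ z j.succ (Tr.par j))
        (xx (z (Tr.par j)).re (z (Tr.par j)).im) (xx (z j.succ).re (z j.succ).im)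
        (a (Tr.par j)) (a j.succ) (v1 (Tr.par j)) (v1 j.succ) v w := by
  have t2 := h.abs_th j.succ
  have hne : σ (Tr.par j) ≠ σ j.succ := by rw [s1, s2]; decide
  unfold AT.Cfg.Lw LL1
  rw [lw_neg H (Or.inl rfl) s1, lw_pos H (hv1 _) t2 (Or.inr rfl) s2, oth_cs, oth_su,
    qm_ne hne, qm_ne hne.symm]
  unfold AT.Cfg.Fc
  rw [slc_op, slc_op, vcC_neg s1, vcC_pos t2 s2, yc_eq, s1, s2, uz_neg, uz_pos, yy_neg_right,
    UU_conj]
  rfl

theorem EE_comm (s t : Sl) (y : ℂ) : EE t s y = EE s t y := by rw [EE, EE, add_comm]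

/-- `par j` has the sign `1`, `j.succ` has the sign `-1`. -/
theorem Lw_pn (h : MZ a σ z) (hv1 : ∀ i, V1 (v1 i)) (H : EdC a σ z j)
    (s1 : σ (Tr.par j) = 1) (s2 : σ j.succ = -1) (v w : ℂ) :
    (cfgOf a σ z).Lw v1 (lamC a σ z) j v w =
      LL1 (th (z j.succ).re (z j.succ).im) (th (z (Tr.par j)).re (z (Tr.par j)).im)
        (bm σ z j.succ (Tr.par j)) (bm σ z (Tr.par j) j.succ)
        (xx (z j.succ).re (z j.succ).im) (xx (z (Tr.par j)).re (z (Tr.par j)).im)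
        (a j.succ) (a (Tr.par j)) (v1 j.succ) (v1 (Tr.par j)) w v := by
  have t1 := h.abs_th (Tr.par j)
  have hne : σ (Tr.par j) ≠ σ j.succ := by rw [s1, s2]; decide
  unfold AT.Cfg.Lw LL1
  rw [lw_neg H (Or.inr rfl) s2, lw_pos H (hv1 _) t1 (Or.inl rfl) s1, oth_cs, oth_su,
    qm_ne hne, qm_ne hne.symm]
  unfold AT.Cfg.Fc
  rw [slc_op, slc_op, vcC_neg s2, vcC_pos t1 s1, yc_eq, s1, s2, uz_neg, uz_pos, yy_comm,
    yy_neg_right, UU_conj, EE_comm]
  unfold qe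
  ring

/-- Both signs are `-1`. -/
theorem Lw_nn (H : EdC a σ z j)
    (s1 : σ (Tr.par j) = -1) (s2 : σ j.succ = -1) (v w : ℂ) :
    (cfgOf a σ z).Lw (fun _ => 13 / 40) (lamC a σ z) j v w =
      LLS (th (z (Tr.par j)).re (z (Tr.par j)).im) (th (z j.succ).re (z j.succ).im)
        (bm σ z (Tr.par j) j.succ) (bm σ z j.succ (Tr.par j))
        (xx (z (Tr.par j)).re (z (Tr.par j)).im) (xx (z j.succ).re (z j.succ).im)
        (a (Tr.par j)) (a j.succ) v w := by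
  have he : σ (Tr.par j) = σ j.succ := by rw [s1, s2]
  unfold AT.Cfg.Lw LLS
  rw [lw_neg H (Or.inl rfl) s1, lw_neg H (Or.inr rfl) s2, oth_cs, oth_su, qm_eq he, qm_eq he.symm]
  unfold AT.Cfg.Fc
  rw [slc_op, slc_op, vcC_neg s1, vcC_neg s2, yc_eq, s1, s2, uz_neg, uz_neg]

/-- Both signs are `1`. -/
theorem Lw_pp (h : MZ a σ z) (H : EdC a σ z j)
    (s1 : σ (Tr.par j) = 1) (s2 : σ j.succ = 1) (v w : ℂ) :
    (cfgOf a σ z).Lw (fun _ => 13 / 40) (lamC a σ z) j v w =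
      LLS (th (z (Tr.par j)).re (z (Tr.par j)).im) (th (z j.succ).re (z j.succ).im)
        (bm σ z (Tr.par j) j.succ) (bm σ z j.succ (Tr.par j))
        (xx (z (Tr.par j)).re (z (Tr.par j)).im) (xx (z j.succ).re (z j.succ).im)
        (a (Tr.par j)) (a j.succ) (mir v) (mir w) := by
  have he : σ (Tr.par j) = σ j.succ := by rw [s1, s2]
  have t1 := h.abs_th (Tr.par j)
  have t2 := h.abs_th j.succ
  have hs := h.same _ _ (adj_cs j) he
  unfold AT.Cfg.Lw LLS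
  rw [lw_pos H V1_t t1 (Or.inl rfl) s1, lw_pos H V1_t t2 (Or.inr rfl) s2, oth_cs, oth_su,
    qm_eq he, qm_eq he.symm]
  unfold AT.Cfg.Fc
  rw [slc_op, slc_op, vcC_pos t1 s1, vcC_pos t2 s2, yc_eq, s1, s2, uz_pos, uz_pos,
    EE_crit_mir (hs.reg _ _)]

end

/-! ### The estimates -/

/-- The data of an edge with opposite signs. -/
theorem OOD_oo {Φ : ℂ → ℂ → ℂ} (hΦ : IsPhi Φ) (h0 : Φ 0 0 = c00)
    (h : MZ a σ z) {n p : Fin (m + 1)} (hnp : Adj n p) (hs : σ n ≠ σ p) {v1 v1' : ℝ} (hv : V1 v1)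
    (hv' : V1 v1') (D : OOD Φ (z n) (z p) (a n) (a p) v1 v1') :
    OO Φ (th (z n).re (z n).im) (th (z p).re (z p).im) (xx (z n).re (z n).im)
      (xx (z p).re (z p).im) (bm σ z n p) (bm σ z p n) v1 v1' where
  hΦ := hΦ
  h0 := h0
  ho := h.opp n p hnp hs
  hs := h.split hnp hs
  hc := h.xxpos n
  hc' := h.xxpos p
  hθ := D.hθ
  hθ' := D.hθ'
  hv1 := hv
  hv1' := hv'
  hr := by rw [gdv_re_eq h]; exact D.hr
  hr' := by rw [gdv_re_eq h]; exact D.hr'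

/-- The data of an edge with equal signs. -/
def OOSd (a : Fin (m + 1) → ℕ) (σ : Fin (m + 1) → ℤ) (z : Fin (m + 1) → ℂ) (Φ : ℂ → ℂ → ℂ)
    (i k : Fin (m + 1)) : Prop :=
  OOS Φ (th (z i).re (z i).im) (th (z k).re (z k).im) (xx (z i).re (z i).im)
      (xx (z k).re (z k).im) (bm σ z i k) (bm σ z k i) (a i) (a k) ∧
    EndS Φ (th (z i).re (z i).im) (th (z k).re (z k).im) ∧
    ReflS Φ (th (z i).re (z i).im) (th (z k).re (z k).im)

/-- The data at the edges with opposite signs. -/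
def OODopp (a : Fin (m + 1) → ℕ) (σ : Fin (m + 1) → ℤ) (z : Fin (m + 1) → ℂ) (Φ : ℂ → ℂ → ℂ) :
    Prop := ∀ n p : Fin (m + 1), Adj n p → σ n = -1 → σ p = 1 →
    OOD Φ (z n) (z p) (a n) (a p) (13 / 40) (13 / 40)

/-- The data at the edges with equal signs. -/
def OOSall (a : Fin (m + 1) → ℕ) (σ : Fin (m + 1) → ℤ) (z : Fin (m + 1) → ℂ) (Φ : ℂ → ℂ → ℂ) :
    Prop := ∀ i k : Fin (m + 1), Adj i k → σ i = σ k → OOSd a σ z Φ i k

/-- **The estimate of an edge away from the critical point.** -/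
theorem far_edge {Φ : ℂ → ℂ → ℂ} (hΦ : IsPhi Φ) (h0 : Φ 0 0 = c00) (h : MZ a σ z)
    (ha : ∀ i, 2 ≤ a i) {j : Fin m} (H : EdC a σ z j)
    (hO : OODopp a σ z Φ) (hS : OOSall a σ z Φ) {v w : ℂ}
    (hv : v ∈ G0 ((cfgOf a σ z).θ (Tr.par j)) (13 / 40))
    (hw : w ∈ G0 ((cfgOf a σ z).θ j.succ) (13 / 40))
    (hne : v ≠ (cfgOf a σ z).vc (Tr.par j) ∨ w ≠ (cfgOf a σ z).vc j.succ) :
    EdgeOK ((cfgOf a σ z).sv (Tr.par j) v) ((cfgOf a σ z).sv j.succ w)
      ((cfgOf a σ z).Lw (fun _ => 13 / 40) (lamC a σ z) j v w) := by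
  have e1 : (cfgOf a σ z).sv (Tr.par j) v = .op v := if_pos (mem_Op _)
  have e2 : (cfgOf a σ z).sv j.succ w = .op w := if_pos (mem_Op _)
  have t1 := abs_th_lt (h.pos (Tr.par j)).1 (h.pos (Tr.par j)).2.1 (h.pos (Tr.par j)).2.2
  have t2 := abs_th_lt (h.pos j.succ).1 (h.pos j.succ).2.1 (h.pos j.succ).2.2
  rw [e1, e2]
  rcases h.sg (Tr.par j) with s1 | s1 <;> rcases h.sg j.succ with s2 | s2
  · -- `(1, 1)`
    obtain ⟨K, hE, hR⟩ := hS _ _ (adj_cs j) (by rw [s1, s2])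
    rw [vcC_pos t1 s1, vcC_pos t2 s2] at hne
    rw [Lw_pp h H s1 s2]
    exact K.far_pos hE hR hv hw hne
  · -- `(1, -1)`
    have hs : σ j.succ ≠ σ (Tr.par j) := by rw [s1, s2]; decide
    have D := hO _ _ (adj_su j) s2 s1
    have K := OOD_oo hΦ h0 h (adj_su j) hs V1_t V1_t D
    rw [vcC_neg s2, vcC_pos t1 s1] at hne
    rw [Lw_pn h (fun _ => V1_t) H s1 s2]
    have hE := D.ends
    have gL := D.gL
    have gR := D.gR
    rw [← bm_ne hs, ← bm_ne hs.symm] at hE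
    rw [← bm_ne hs] at gL
    rw [← bm_ne hs.symm] at gR
    exact (K.far D.flat D.flatc hE gL gR (apos ha _) (apos ha _) hw hv hne.symm).symm
  · -- `(-1, 1)`
    have hs : σ (Tr.par j) ≠ σ j.succ := by rw [s1, s2]; decide
    have D := hO _ _ (adj_cs j) s1 s2
    have K := OOD_oo hΦ h0 h (adj_cs j) hs V1_t V1_t D
    rw [vcC_neg s1, vcC_pos t2 s2] at hne
    rw [Lw_np h (fun _ => V1_t) H s1 s2]
    have hE := D.ends
    have gL := D.gL
    have gR := D.gR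
    rw [← bm_ne hs, ← bm_ne hs.symm] at hE
    rw [← bm_ne hs] at gL
    rw [← bm_ne hs.symm] at gR
    exact K.far D.flat D.flatc hE gL gR (apos ha _) (apos ha _) hv hw hne
  · -- `(-1, -1)`
    obtain ⟨K, hE, hR⟩ := hS _ _ (adj_cs j) (by rw [s1, s2])
    rw [vcC_neg s1, vcC_neg s2] at hne
    rw [Lw_nn H s1 s2]
    exact K.far hE hR hv hw hne

/-- **The estimate of an edge at the critical point.** -/
theorem near_edge {Φ : ℂ → ℂ → ℂ} (hΦ : IsPhi Φ) (h0 : Φ 0 0 = c00) (h : MZ a σ z)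
    {j : Fin m}
    (hO : OODopp a σ z Φ) (hS : OOSall a σ z Φ) :
    EdgeC ((cfgOf a σ z).slc (Tr.par j)) ((cfgOf a σ z).slc j.succ) ((cfgOf a σ z).yc j)
      ((cfgOf a σ z).Fc j) := by
  have t1 := abs_th_lt (h.pos (Tr.par j)).1 (h.pos (Tr.par j)).2.1 (h.pos (Tr.par j)).2.2
  have t2 := abs_th_lt (h.pos j.succ).1 (h.pos j.succ).2.1 (h.pos j.succ).2.2
  unfold AT.Cfg.Fc
  rw [slc_op, slc_op, yc_eq]
  rcases h.sg (Tr.par j) with s1 | s1 <;> rcases h.sg j.succ with s2 | s2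
  · -- `(1, 1)`
    obtain ⟨K, hE, hR⟩ := hS _ _ (adj_cs j) (by rw [s1, s2])
    rw [vcC_pos t1 s1, vcC_pos t2 s2, s1, s2, uz_pos, uz_pos]
    exact K.near_pos hE
  · -- `(1, -1)`
    have hs : σ j.succ ≠ σ (Tr.par j) := by rw [s1, s2]; decide
    have D := hO _ _ (adj_su j) s2 s1
    have K := OOD_oo hΦ h0 h (adj_su j) hs V1_t V1_t D
    have hE := D.ends
    rw [← bm_ne hs, ← bm_ne hs.symm] at hE
    have k := (K.near D.flatc hE).symm
    rw [vcC_neg s2, vcC_pos t1 s1, s1, s2, uz_pos, uz_neg, yy_comm, yy_neg_right, UU_conj,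
      EE_comm]
    exact k
  · -- `(-1, 1)`
    have hs : σ (Tr.par j) ≠ σ j.succ := by rw [s1, s2]; decide
    have D := hO _ _ (adj_cs j) s1 s2
    have K := OOD_oo hΦ h0 h (adj_cs j) hs V1_t V1_t D
    have hE := D.ends
    rw [← bm_ne hs, ← bm_ne hs.symm] at hE
    have k := K.near D.flatc hE
    rw [vcC_neg s1, vcC_pos t2 s2, s1, s2, uz_pos, uz_neg, yy_neg_right, UU_conj]
    exact k
  · -- `(-1, -1)`
    obtain ⟨K, hE, hR⟩ := hS _ _ (adj_cs j) (by rw [s1, s2])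
    rw [vcC_neg s1, vcC_neg s2, s1, s2, uz_neg, uz_neg]
    exact K.near hE

end

end Pool.Agent.MX
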