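import Pool.Agent.S3.W.FlatW
import Pool.Agent.S3.W.Gain
import Pool.Agent.S3.W.Edg1
import Pool.Agent.S3.Es7
import Pool.Agent.MX.S.EndS
import Pool.Agent.MX.WCfg

/-!
# The estimates of the edges of a tree with arbitrary signs
-/

set_option autoImplicit false
set_option linter.unusedSectionVars false

namespace Pool.Agent.MX

open Pool.Agent.S3 hiding Cfg oth OOD lamC cfgOf EdC Qv mem_Op uc_neg uc_pos slc_op crit edC
  oth_cs oth_su ell_mirror wr_mirror lamC_sum vcC_neg vcC_pos r_neg r_pos evC lw_neg lw_pos gdv_re_eq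
  apos β_eq yc_eq Qv_neg Qv_pos
open Complex
open Pool.Agent.H63.VC7 (inc)
open Pool.Agent.S3.E
open Pool.Agent.AT (Tr oth Adj adj_cs adj_su oth_cs oth_su mem_inc mem_inc_par mem_inc_succ exists_edge
  Cfg OOD adj_oth)
open Pool.Agent.MX.G (uz qm)
open Pool.Agent.H25.RK (gdv gdv_re_lt gdv_hasDerivAt ul)

variable {m : ℕ} [Tr m] {a : Fin (m + 1) → ℕ} {σ : Fin (m + 1) → ℤ} {z : Fin (m + 1) → ℂ}

theorem mu_le_pi (h : MZ a σ z) {i k : Fin (m + 1)} (hik : Adj i k) :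
    mu (bm σ z i k) (a i) (13 / 40) ≤ Real.pi :=
  (mu_le (h.a3 i) (h.bm_pos hik) (h.bm_le hik)).trans (by linarith [Real.pi_pos])

/-- The data of the edges with opposite signs. -/
theorem MZ.oppD {Φ : ℂ → ℂ → ℂ} (hΦ : IsPhi Φ) (h0 : Φ 0 0 = c00) (h : MZ a σ z) :
    OODopp a σ z Φ := by
  intro n p hnp s1 s2
  have hs : σ n ≠ σ p := by rw [s1, s2]; decide
  have tn := Ht_of (h.thpos n) (h.hT n)
  have tp := Ht_of (h.thpos p) (h.hT p)
  have K : OO Φ (th (z n).re (z n).im) (th (z p).re (z p).im) (xx (z n).re (z n).im)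
      (xx (z p).re (z p).im) (bm σ z n p) (bm σ z p n) (13 / 40) (13 / 40) :=
    ⟨hΦ, h0, h.opp n p hnp hs, h.split hnp hs, h.xxpos n, h.xxpos p, tn, tp, V1_t, V1_t,
      by rw [gdv_re_eq h]; exact h.hR n, by rw [gdv_re_eq h]; exact h.hR p⟩
  have hE := endAll' hΦ h0 K.ho K.hs (h.xxpos n) (h.xxpos p) tn tp V1_t V1_t le_rfl le_rfl
    (mu_le_pi h hnp) (mu_le_pi h hnp.symm)
  rw [bm_ne hs, bm_ne hs.symm] at hE
  refine ⟨tn, tp, h.hR n, h.hR p, flatAll_of tn tp K.ho.S le_rfl le_rfl,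
    flatC_of K le_rfl le_rfl, hE, ?_, ?_⟩
  · rw [← bm_ne hs]
    rcases (h.a3 n).eq_or_lt with e | e
    · exact gainL_of hΦ (h.hG n e.symm) (mu_le (h.a3 n) (h.bm_pos hnp) (h.bm_le hnp))
    · exact gainL_nonpos hΦ (mu_nonpos e (h.bm_pos hnp))
  · rw [← bm_ne hs.symm]
    rcases (h.a3 p).eq_or_lt with e | e
    · exact gainR_of hΦ (h.hG p e.symm) (mu_le (h.a3 p) (h.bm_pos hnp.symm) (h.bm_le hnp.symm))
    · exact gainR_nonpos hΦ (mu_nonpos e (h.bm_pos hnp.symm))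

/-- The share of an edge with equal signs. -/
theorem MZ.splitS (h : MZ a σ z) {i k : Fin (m + 1)} (hik : Adj i k) (hs : σ i = σ k) :
    SplitS (th (z i).re (z i).im) (th (z k).re (z k).im) (xx (z i).re (z i).im)
      (xx (z k).re (z k).im) (bm σ z i k) (bm σ z k i) where
  b1 := h.share i k hik hs
  b1' := h.share k i hik.symm hs.symm
  hQ := h.hQS hs
  hQ' := h.hQS hs.symm

/-- The data of the edges with equal signs. -/
theorem MZ.sameD {Φ : ℂ → ℂ → ℂ} (hΦ : IsPhi Φ) (h0 : Φ 0 0 = c00) (h : MZ a σ z)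
    (hR : ∀ θ θ' : ℝ, SamHyp θ θ' → ReflS Φ θ θ') : OOSall a σ z Φ := by
  intro i k hik hs
  have hS := h.same i k hik hs
  refine ⟨⟨hΦ, h0, hS, h.splitS hik hs, h.xxpos i, h.xxpos k, by rw [gdv_re_eq h]; exact h.hR i,
    by rw [gdv_re_eq h]; exact h.hR k, ?_, ?_, h.nb i k hik hs, h.nb k i hik.symm hs.symm⟩,
    fun v w hp h1 h2 => hp.end_lt hΦ h0 h1 h2, hR _ _ hS⟩
  · exact apos (fun i => by have := h.a3 i; omega) i
  · exact apos (fun i => by have := h.a3 i; omega) k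

/-- **The estimates of the edges of the tree.** -/
theorem edg_t1 {Φ : ℂ → ℂ → ℂ} (hΦ : IsPhi Φ) (h0 : Φ 0 0 = c00) (h : MZ a σ z)
    (hO : OODopp a σ z Φ) (hS : OOSall a σ z Φ) :
    (cfgOf a σ z).Edg (fun _ => 13 / 40) (lamC a σ z) where
  v0 := fun i _ => V1_t.pos
  vh := fun i _ => by norm_num
  vx := fun i _ => by
    have h1 := h.hR i
    have h3 := h.abs_th i
    have h4 : 0 < (z i).re / Real.pi := div_pos (h.pos i).1 Real.pi_pos
    rcases h.sg i with s | s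
    · rw [vcC_pos h3 s, mir_re, abs_neg, gdv_re_eq h, abs_of_pos h4]; exact h1
    · rw [vcC_neg s, gdv_re_eq h, abs_of_pos h4]; exact h1
  lam1 := fun i _ => lamC_sum h (fun i => by have := h.a3 i; omega) i
  far := by
    intro j v w hv hw hne
    have hne' : v ≠ (cfgOf a σ z).vc (Tr.par j) ∨ w ≠ (cfgOf a σ z).vc j.succ := by
      rcases hne with h | h
      · exact Or.inl h.2
      · exact Or.inr h.2
    exact far_edge hΦ h0 h (fun i => by have := h.a3 i; omega) (edC h j) hO hS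
      (hv (mem_Op _)) (hw (mem_Op _)) hne'
  near := fun j => near_edge hΦ h0 h hO hS

end Pool.Agent.MX
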