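import Pool.Agent.AT.Low4
import Pool.Agent.AT.JLim
import Pool.Agent.S3.Clo
import Pool.Agent.S3.Ks5
import Pool.Agent.MX.LowK5s
import Pool.Agent.MX.WEdg1

/-!
# The small indices: the tree with arbitrary signs

The test point of a vertex is `tk θ` if the vertex has a neighbour of its own sign, and `td θ`
otherwise.
-/

set_option autoImplicit false
set_option linter.unusedSectionVars false

namespace Pool.Agent.MX

open Pool.Agent.S3 hiding Cfg oth OOD lamC cfgOf EdC Qv mem_Op uc_neg uc_pos slc_op crit edC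
  oth_cs oth_su ell_mirror wr_mirror lamC_sum vcC_neg vcC_pos r_neg r_pos evC lw_neg lw_pos gdv_re_eq
  apos β_eq yc_eq Qv_neg Qv_pos J0
open Complex
open Pool.Agent.H63.VC7 (inc)
open Pool.Agent.S3.E
open Pool.Agent.AT (Tr oth Adj adj_cs adj_su oth_cs oth_su mem_inc mem_inc_par mem_inc_succ exists_edge
  Cfg OOD adj_oth J0)
open Pool.Agent.MX.G (uz qm)
open Pool.Agent.H63.VC3 Pool.Agent.H63.VC4 Pool.Agent.H63.VC6 Pool.Agent.H63.VC7 Complex
open Pool.Agent.H25.RK Pool.Agent.H63.GO Filter Topology MeasureTheory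
open scoped BigOperators

variable {m : ℕ} [Tr m]

section

variable {a : Fin (m + 1) → ℕ} {σ : Fin (m + 1) → ℤ} {z : Fin (m + 1) → ℂ}

/-- The vertex has a neighbour of its own sign. -/
def Bm (σ : Fin (m + 1) → ℤ) (i : Fin (m + 1)) : Prop := ∃ k, Adj i k ∧ σ i = σ k

open Classical in
/-- The test points in the first quadrant. -/
noncomputable def tq (σ : Fin (m + 1) → ℤ) (z : Fin (m + 1) → ℂ) (i : Fin (m + 1)) : ℂ :=
  if Bm σ i then tk (th (z i).re (z i).im) else td (th (z i).re (z i).im)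

open Classical in
/-- The losses of the vertex functions. -/
noncomputable def rM (σ : Fin (m + 1) → ℤ) (z : Fin (m + 1) → ℂ) (i : Fin (m + 1)) : ℝ :=
  if Bm σ i then rK (th (z i).re (z i).im) else Real.pi / 6

/-- The test points of the tree. -/
noncomputable def tM (σ : Fin (m + 1) → ℤ) (z : Fin (m + 1) → ℂ) (i : Fin (m + 1)) : ℂ :=
  if σ i = -1 then tq σ z i else mir (tq σ z i)

theorem tM_neg {i : Fin (m + 1)} (h : σ i = -1) : tM σ z i = tq σ z i := by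
  unfold tM; rw [if_pos h]

theorem tM_pos {i : Fin (m + 1)} (h : σ i = 1) : tM σ z i = mir (tq σ z i) := by
  unfold tM; rw [if_neg (by rw [h]; decide)]

theorem MZ.ht4 (h : MZ a σ z) {i : Fin (m + 1)} (hi : Bm σ i) : Ht4 (th (z i).re (z i).im) := by
  obtain ⟨k, h1, h2⟩ := hi
  exact (h.same i k h1 h2).ht4

theorem MZ.ht (h : MZ a σ z) (i : Fin (m + 1)) : Ht (th (z i).re (z i).im) :=
  Ht_of (h.thpos i) (h.hT i)

theorem tq_B {i : Fin (m + 1)} (hi : Bm σ i) : tq σ z i = tk (th (z i).re (z i).im) := by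
  unfold tq; rw [if_pos hi]

theorem tq_A {i : Fin (m + 1)} (hi : ¬Bm σ i) : tq σ z i = td (th (z i).re (z i).im) := by
  unfold tq; rw [if_neg hi]

theorem rM_B {i : Fin (m + 1)} (hi : Bm σ i) : rM σ z i = rK (th (z i).re (z i).im) := by
  unfold rM; rw [if_pos hi]

theorem rM_A {i : Fin (m + 1)} (hi : ¬Bm σ i) : rM σ z i = Real.pi / 6 := by
  unfold rM; rw [if_neg hi]

theorem tq_TP (h : MZ a σ z) (i : Fin (m + 1)) :
    TP (th (z i).re (z i).im) (tq σ z i) := by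
  by_cases hi : Bm σ i
  · rw [tq_B hi]; exact tp_tk (h.ht4 hi)
  · rw [tq_A hi]; exact tp_td (h.ht i)

/-- At the test points the two shares agree. -/
theorem lw_tM {v1 : Fin (m + 1) → ℝ} {lam : Fin m → Fin (m + 1) → ℝ} (j : Fin m)
    {i : Fin (m + 1)} (h : MZ a σ z) (hv1 : V1 (v1 i)) (h1 : 1 / 4 ≤ v1 i) :
    (cfgOf a σ z).lw v1 lam j i (tM σ z i) = (cfgOf a σ z).lv j i (tM σ z i) := by
  have e : pl ((cfgOf a σ z).θ i) (v1 i) (tM σ z i) = tM σ z i := by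
    show pl (th (z i).re (z i).im) (v1 i) (tM σ z i) = tM σ z i
    rcases h.sg i with s | s
    · rw [tM_pos s, pl_mir hv1, (tq_TP h i).pl h1]
    · rw [tM_neg s, (tq_TP h i).pl h1]
  unfold AT.Cfg.lw
  rw [e, sub_self, mul_zero, add_zero, if_pos (mem_Op i)]

theorem wr_tM {i : Fin (m + 1)} (h : MZ a σ z) (h4 : Bm σ i → 4 ≤ a i) :
    -(wr ((cfgOf a σ z).r i) (tM σ z i)).re ≤ rM σ z i := by
  have key : -(wr ((cfgOf a σ z).r i) (tM σ z i)).re =
      2 * Real.pi * (tq σ z i).im * (1 - a i * (tq σ z i).re) := by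
    rw [wr_reW, neg_neg]
    rcases h.sg i with s | s
    · rw [tM_pos s, r_pos s, mir_im, mir_re]
      ring
    · rw [tM_neg s, r_neg s]
      ring
  rw [key]
  by_cases hi : Bm σ i
  · have ha : (4 : ℝ) ≤ a i := by exact_mod_cast h4 hi
    rw [tq_B hi, rM_B hi]
    exact tk_cost (h.ht4 hi) ha
  · have ha : (3 : ℝ) ≤ a i := by exact_mod_cast h.a3 i
    rw [tq_A hi, rM_A hi]
    exact td_cost (h.ht i) ha

section

variable {Φ : ℂ → ℂ → ℂ} {v1 : Fin (m + 1) → ℝ}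

theorem rM_nonneg (h : MZ a σ z) (i : Fin (m + 1)) : 0 ≤ rM σ z i := by
  have := Real.pi_pos
  by_cases hi : Bm σ i
  · rw [rM_B hi]; exact rK_nonneg (h.ht4 hi)
  · rw [rM_A hi]; positivity

theorem tq_opp (h : MZ a σ z) (hΦ : IsPhi Φ) (h0 : Φ 0 0 = c00) (n p : Fin (m + 1)) :
    rM σ z n + rM σ z p < (Φ (tq σ z n) ((starRingEnd ℂ) (tq σ z p))).re ∧
      (Φ 0 0).re < (Φ (tq σ z n) ((starRingEnd ℂ) (tq σ z p))).re := by
  by_cases hn : Bm σ n <;> by_cases hp : Bm σ p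
  · rw [tq_B hn, tq_B hp, rM_B hn, rM_B hp]
    exact low_K1 hΦ h0 (h.ht4 hn) (h.ht4 hp)
  · rw [tq_B hn, tq_A hp, rM_B hn, rM_A hp]
    exact low_K1r hΦ h0 (h.ht4 hn) (h.ht p)
  · rw [tq_A hn, tq_B hp, rM_A hn, rM_B hp]
    exact low_K1l hΦ h0 (h.ht n) (h.ht4 hp)
  · rw [tq_A hn, tq_A hp, rM_A hn, rM_A hp]
    exact ⟨low_D1 hΦ h0 (h.ht n) (h.ht p), (low_D0 hΦ h0 (h.ht n) (h.ht p)).2⟩

theorem mem_sT {b : Bool} {i : Fin (m + 1)} {v : ℂ}
    (h : v ∈ (cfgOf a σ z).sT v1 b i) :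
    (b = true ∧ v ∈ AT.rseg) ∨ (b = false ∧ v ∈ G0 (th (z i).re (z i).im) (v1 i)) := by
  unfold AT.Cfg.sT at h
  cases b
  · right
    simp only [Bool.false_eq_true, if_false] at h
    exact ⟨rfl, h.1 (mem_Op i)⟩
  · left
    simp only [if_true] at h
    exact ⟨rfl, h⟩

theorem rseg_eq {v : ℂ} (h : v ∈ AT.rseg) : v = ((v.re : ℝ) : ℂ) := by
  apply Complex.ext
  · simp
  · simpa using h.1

/-- The hypotheses of the abstract theorem at an edge. -/
theorem low_edge (h : MZ a σ z) (hΦ : IsPhi Φ) (h0 : Φ 0 0 = c00) (hO : OODopp a σ z Φ)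
    (hS : OOSall a σ z Φ) (j : Fin m) :
    (rM σ z (Tr.par j) + rM σ z j.succ <
      (cfgOf a σ z).Lw (fun _ => 13 / 40) (lamC a σ z) j (tM σ z (Tr.par j)) (tM σ z j.succ)) ∧
    (∀ x x' : ℝ, |x| ≤ 1 / 2 → |x'| ≤ 1 / 2 → EdgeOK (.op (x : ℂ)) (.op (x' : ℂ))
      ((cfgOf a σ z).Lw (fun _ => 13 / 40) (lamC a σ z) j (tM σ z (Tr.par j))
        (tM σ z j.succ))) ∧
    (∀ (x : ℝ) (w : ℂ), |x| ≤ 1 / 2 → w ∈ G0 (th (z j.succ).re (z j.succ).im) (13 / 40) →
      EdgeOK (.op (x : ℂ)) (.op w)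
        ((cfgOf a σ z).Lw (fun _ => 13 / 40) (lamC a σ z) j (tM σ z (Tr.par j)) w)) ∧
    (∀ (v : ℂ) (x : ℝ), |x| ≤ 1 / 2 →
      v ∈ G0 (th (z (Tr.par j)).re (z (Tr.par j)).im) (13 / 40) →
      EdgeOK (.op v) (.op (x : ℂ))
        ((cfgOf a σ z).Lw (fun _ => 13 / 40) (lamC a σ z) j v (tM σ z j.succ))) := by
  have H := edC h j
  have hT := h.ht
  have ha2 : ∀ i, 2 ≤ a i := fun i => by have := h.a3 i; omega
  have ha0 : ∀ i, (0 : ℝ) < a i := apos ha2
  have h14 : (1 : ℝ) / 4 ≤ 13 / 40 := by norm_num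
  have TPi := tq_TP h
  rcases h.sg (Tr.par j) with s1 | s1 <;> rcases h.sg j.succ with s2 | s2
  · -- `(1, 1)`
    have hs : σ (Tr.par j) = σ j.succ := by rw [s1, s2]
    obtain ⟨K, -, -⟩ := hS _ _ (adj_cs j) hs
    have b1 : Bm σ (Tr.par j) := ⟨_, adj_cs j, hs⟩
    have b2 : Bm σ j.succ := ⟨_, adj_su j, hs.symm⟩
    simp only [Lw_pp h H s1 s2, tM_pos s1, tM_pos s2, mir_mir, tq_B b1, tq_B b2, rM_B b1,
      rM_B b2]
    refine ⟨lowS_bad K, fun x x' hx hx' => lowS_rr K hx hx', ?_, ?_⟩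
    · intro x w hx hw
      have k := (lowS_rg K (mir_mem hw) (x := -x) (by rwa [abs_neg])).mir_both
      rwa [mir_mir, mir_ofReal, neg_neg] at k
    · intro v x hx hv
      have k := (lowS_gr K (mir_mem hv) (x := -x) (by rwa [abs_neg])).mir_both
      rwa [mir_mir, mir_ofReal, neg_neg] at k
  · -- `(1, -1)`
    have hs : σ j.succ ≠ σ (Tr.par j) := by rw [s1, s2]; decide
    have D := hO _ _ (adj_su j) s2 s1
    have K := OOD_oo hΦ h0 h (adj_su j) hs V1_t V1_t D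
    have gL := D.gL
    have gR := D.gR
    rw [← bm_ne hs] at gL
    rw [← bm_ne hs.symm] at gR
    obtain ⟨c1, c2⟩ := tq_opp h hΦ h0 j.succ (Tr.par j)
    simp only [Lw_pn h (fun _ => V1_t) H s1 s2, tM_pos s1, tM_neg s2]
    refine ⟨?_, ?_, ?_, ?_⟩
    · have := lowT_ge K gL gR (ha0 _) (ha0 _) h14 h14 (TPi j.succ) (TPi (Tr.par j))
      linarith
    · intro x x' hx hx'
      exact (lowT_rr K D.flat gL gR (ha0 _) (ha0 _) h14 h14 (TPi _) (TPi _) c2 hx' hx).symm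
    · intro x w hx hw
      exact (lowT_gr K D.flat gL gR (ha0 _) (ha0 _) h14 (TPi _) hw hx).symm
    · intro v x hx hv
      exact (lowT_rg K D.flat gL gR (ha0 _) (ha0 _) h14 (TPi _) hv hx).symm
  · -- `(-1, 1)`
    have hs : σ (Tr.par j) ≠ σ j.succ := by rw [s1, s2]; decide
    have D := hO _ _ (adj_cs j) s1 s2
    have K := OOD_oo hΦ h0 h (adj_cs j) hs V1_t V1_t D
    have gL := D.gL
    have gR := D.gR
    rw [← bm_ne hs] at gL
    rw [← bm_ne hs.symm] at gR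
    obtain ⟨c1, c2⟩ := tq_opp h hΦ h0 (Tr.par j) j.succ
    simp only [Lw_np h (fun _ => V1_t) H s1 s2, tM_pos s2, tM_neg s1]
    refine ⟨?_, ?_, ?_, ?_⟩
    · have := lowT_ge K gL gR (ha0 _) (ha0 _) h14 h14 (TPi (Tr.par j)) (TPi j.succ)
      linarith
    · intro x x' hx hx'
      exact lowT_rr K D.flat gL gR (ha0 _) (ha0 _) h14 h14 (TPi _) (TPi _) c2 hx hx'
    · intro x w hx hw
      exact lowT_rg K D.flat gL gR (ha0 _) (ha0 _) h14 (TPi _) hw hx
    · intro v x hx hv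
      exact lowT_gr K D.flat gL gR (ha0 _) (ha0 _) h14 (TPi _) hv hx
  · -- `(-1, -1)`
    have hs : σ (Tr.par j) = σ j.succ := by rw [s1, s2]
    obtain ⟨K, -, -⟩ := hS _ _ (adj_cs j) hs
    have b1 : Bm σ (Tr.par j) := ⟨_, adj_cs j, hs⟩
    have b2 : Bm σ j.succ := ⟨_, adj_su j, hs.symm⟩
    simp only [Lw_nn H s1 s2, tM_neg s1, tM_neg s2, tq_B b1, tq_B b2, rM_B b1, rM_B b2]
    exact ⟨lowS_bad K, fun x x' hx hx' => lowS_rr K hx hx', fun x w hx hw => lowS_rg K hw hx,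
      fun v x hx hv => lowS_gr K hv hx⟩

/-- **The hypotheses of the abstract theorem for a tree with arbitrary signs.** -/
theorem lowH_of (h : MZ a σ z) (h4 : ∀ i, Bm σ i → 4 ≤ a i) (hΦ : IsPhi Φ) (h0 : Φ 0 0 = c00)
    (hO : OODopp a σ z Φ) (hS : OOSall a σ z Φ) :
    (cfgOf a σ z).LowH (fun _ => 13 / 40) (lamC a σ z) (tM σ z) 0 (rM σ z) where
  hg := rfl
  hρ := fun i _ => rM_nonneg h i
  wt := fun i _ => wr_tM h (h4 i)
  bad := by
    intro j
    have h14 : (1 : ℝ) / 4 ≤ 13 / 40 := by norm_num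
    have k := (low_edge h hΦ h0 hO hS j).1
    unfold AT.Cfg.Lw at k
    rw [lw_tM j h V1_t h14, lw_tM j h V1_t h14] at k
    have e1 : ∀ i, (cfgOf a σ z).cr 0 (rM σ z) i = rM σ z i := by
      intro i
      unfold AT.Cfg.cr; rw [if_pos (mem_Op i), zero_add]
    rw [e1, e1]
    unfold AT.Cfg.Lt
    exact k
  good := by
    intro j b b' hb hb' hbb v hv w hw
    have h14 : (1 : ℝ) / 4 ≤ 13 / 40 := by norm_num
    have lt_t : ∀ i v, (cfgOf a σ z).lT (fun _ => 13 / 40) (lamC a σ z) (tM σ z) 0 true j i v =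
        (cfgOf a σ z).lv j i (tM σ z i) := by
      intro i v
      unfold AT.Cfg.lT
      simp
    have lt_f : ∀ i v, (cfgOf a σ z).lT (fun _ => 13 / 40) (lamC a σ z) (tM σ z) 0 false j i v =
        (cfgOf a σ z).lw (fun _ => 13 / 40) (lamC a σ z) j i v := by
      intro i v
      unfold AT.Cfg.lT
      simp
    have sv_op : ∀ i v, (cfgOf a σ z).sv i v = .op v := fun i v => if_pos (mem_Op i)
    obtain ⟨-, k2, k3, k4⟩ := low_edge h hΦ h0 hO hS j
    rw [sv_op, sv_op]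
    rcases mem_sT hv with ⟨e, hv'⟩ | ⟨e, hv'⟩
    · subst e
      rcases mem_sT hw with ⟨e', hw'⟩ | ⟨e', hw'⟩
      · subst e'
        rw [lt_t, lt_t, rseg_eq hv', rseg_eq hw']
        refine (k2 v.re w.re hv'.2 hw'.2).mono (le_of_eq ?_)
        unfold AT.Cfg.Lw
        rw [lw_tM j h V1_t h14, lw_tM j h V1_t h14]
      · subst e'
        rw [lt_t, lt_f, rseg_eq hv']
        refine (k3 v.re w hv'.2 hw').mono (le_of_eq ?_)
        unfold AT.Cfg.Lw
        rw [lw_tM j h V1_t h14]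
    · subst e
      rcases mem_sT hw with ⟨e', hw'⟩ | ⟨e', hw'⟩
      · subst e'
        rw [lt_f, lt_t, rseg_eq hw']
        refine (k4 v w.re hw'.2 hv').mono (le_of_eq ?_)
        unfold AT.Cfg.Lw
        rw [lw_tM j h V1_t h14]
      · subst e'
        rcases hbb with h | h
        · exact absurd h (by decide)
        · exact absurd h (by decide)

/-- **The small indices are negligible: the tree.** -/
theorem low_tree (hm : 1 ≤ m) (h : MZ a σ z) (h4 : ∀ i, Bm σ i → 4 ≤ a i) (hΦ : IsPhi Φ)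
    (h0 : Φ 0 0 = c00) (hO : OODopp a σ z Φ) (hS : OOSall a σ z Φ) :
    ∃ δ : ℝ, 0 < δ ∧ ∃ (K : ℝ) (p : ℕ), ∀ᶠ M : ℕ in atTop,
      ‖JG (Tr.par (m := m)) Fin.succ (cfgOf a σ z).r M - J0 (cfgOf a σ z).r M‖ ≤
        K * (M : ℝ) ^ p * Real.exp (M * (((cfgOf a σ z).V (cp (cfgOf a σ z).ac
          (cfgOf a σ z).bc)).re - δ)) := by
  have hC := crit hm h
  have hop : ∀ i, i ∉ (cfgOf a σ z).Op → False := fun i hi => hi (mem_Op i)
  obtain ⟨δ, hδ, K, -, p, hb⟩ := AT.Cfg.low_main ksB ksL hC (fun i hi => (hop i hi).elim)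
    (fun i hi => (hop i hi).elim) (fun i hi => (hop i hi).elim)
    (Eventually.of_forall fun M i hi => (hop i hi).elim) (edg_t1 hΦ h0 h hO hS)
    (lowH_of h h4 hΦ h0 hO hS)
    (fun v y hv hy => low_E1a hv hy.1 hy.2) (fun s y hy => low_E1c hy.1 hy.2 s)
  refine ⟨δ, hδ, K, p, ?_⟩
  filter_upwards [hb] with M hM
  rw [AT.JLim_V_re hC]
  exact hM

end

end

end Pool.Agent.MX
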