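import Pool.Agent.MX.SU
import Pool.Agent.MX.Main

/-!
# The complexified volume conjecture for trees with arbitrary signs, Kashaev's invariant and the
colored `SU(n)` invariants
-/

set_option autoImplicit false

namespace Pool.Agent.MX

open Pool.Agent.AT (Tr Adj)
open Pool.Agent.AT.Hyp (IsVolume IsComplexVolume)
open Pool.Agent.S4 (C4)
open Pool.Agent.S3 (c00)
open Pool.Agent.H63.VC7 (inc)
open Pool.Agent.H63.VC10 (coloredJones)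
open Pool.Agent.H63.VC11 (coloredSU)
open Complex Filter Topology
open scoped BigOperators

/-- From a critical point. -/
theorem all_tr {m : ℕ} [Tr m] (hm : 1 ≤ m) (b : Fin (m + 1) → ℕ) (σ : Fin (m + 1) → ℤ)
    {z : Fin (m + 1) → ℂ} (hz : MZ b σ z) (hg : MG σ z) (h4 : ∀ i, Bm σ i → 4 ≤ b i) :
    ∃ (V : ℝ) (Z : ℂ), IsVolume (Tr.par (m := m)) Fin.succ (fun i => σ i * (b i : ℤ)) V ∧
      IsComplexVolume (Tr.par (m := m)) Fin.succ (fun i => σ i * (b i : ℤ)) Z ∧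
      (∀ e : ℤ, ∃ C : ℝ, (∃ k : ℤ, Z = I * (V + C * I) + k * (Real.pi : ℂ) ^ 2) ∧
        ∃ J : ℕ → ℂ,
          (∀ N : ℕ, Tendsto (fun q => coloredJones
            (Pool.Agent.H63.VC10.diagram (Tr.par (m := m)) (fun i => σ i * (b i : ℤ))) e N q)
            (𝓝[≠] exp (Real.pi * I / ((N + 1 : ℕ) : ℂ))) (𝓝 (J N))) ∧
          (∃ L : ℕ → ℂ, (∀ᶠ N : ℕ in atTop, exp (L N) = J N) ∧
            Tendsto (fun N : ℕ => 2 * (Real.pi : ℂ) * L N / (N + 1)) atTop (𝓝 (V + C * I))) ∧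
          Tendsto (fun N : ℕ => 2 * (Real.pi : ℂ) * log (J N) / (N + 1)) atTop (𝓝 (V : ℂ)) ∧
          ∃ κ : ℂ, κ ≠ 0 ∧ Tendsto (fun N : ℕ => J N /
            ((((N : ℝ) + 1) ^ (3 / 2 : ℝ) : ℝ) *
              exp ((N + 1) * (V + C * I) / (2 * Real.pi)))) atTop (𝓝 κ)) ∧
      ∀ r : Fin (m + 1) → ℤ, (∀ i, σ i * (b i : ℤ) = 2 * r i) →
        ∃ C : ℝ, (∃ k : ℤ, Z = I * (V + C * I) + k * (Real.pi : ℂ) ^ 2) ∧
        ∀ n g : ℕ, 2 ≤ n → 1 ≤ g → g < n → ∃ J : ℕ → ℂ,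
          (∀ N : ℕ, n ≤ N → Tendsto (fun q => coloredSU
            (Pool.Agent.H63.VC11.diagram (Tr.par (m := m)) r) n N q)
            (𝓝[≠] exp (Real.pi * I / (N + g))) (𝓝 (J N))) ∧
          (∃ L : ℕ → ℂ, (∀ᶠ N : ℕ in atTop, exp (L N) = J N) ∧
            Tendsto (fun N : ℕ => 2 * (Real.pi : ℂ) * L N / (N + 1)) atTop (𝓝 (V + C * I))) ∧
          Tendsto (fun N : ℕ => 2 * (Real.pi : ℂ) * log (J N) / (N + 1)) atTop (𝓝 (V : ℂ)) ∧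
          ∃ κ : ℂ, κ ≠ 0 ∧ Tendsto (fun N : ℕ => J N /
            ((((N : ℝ) + g) ^ (2 * (n : ℝ) - 5 / 2) : ℝ) *
              exp ((N + g) * (V + C * I) / (2 * Real.pi)))) atTop (𝓝 κ) := by
  obtain ⟨hV, Z, hZ, k2, hk⟩ := geo hm hz hg
  refine ⟨2 * Real.pi * (Wv b σ z).re, Z, hV, hZ, ?_, ?_⟩
  · intro e
    obtain ⟨C, ⟨k1, hC⟩, hJ⟩ := jones_tree hm hz h4 e
    refine ⟨C, ⟨k2 - k1, ?_⟩, hJ⟩
    rw [hk, hC]
    push_cast
    ring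
  · intro r hr
    obtain ⟨Φ, hΦ, h0⟩ := Pool.Agent.S3.exists_Phi c00
    have hO := hz.oppD hΦ h0
    have hS := hz.sameD hΦ h0 fun _ _ _ => reflS hΦ
    obtain ⟨k1, hk1⟩ := Pool.Agent.S4.C4_spec (fun i => 2 * r i) (Wv b σ z) Finset.univ
    refine ⟨C4 (fun i => 2 * r i) (Wv b σ z) Finset.univ, ⟨k2 - k1, ?_⟩, ?_⟩
    · rw [hk, hk1]
      have e : ∑ i, ((σ i * b i : ℤ) : ℂ) = ∑ i, (((fun i => 2 * r i) i : ℤ) : ℂ) :=
        Finset.sum_congr rfl fun i _ => by rw [hr i]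
      rw [e]
      push_cast
      ring
    · intro n g hn hg1 hgn
      exact su_tree hm hz (edg_t1 hΦ h0 hz hO hS) (lowH_of hz h4 hΦ h0 hO hS) r hr hn hg1 hgn

end Pool.Agent.MX
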