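import Pool.Agent.MX.S.CritQ
import Pool.Agent.MX.S.Far
import Pool.Agent.MX.G.Sgn
import Pool.Agent.AT.CritCfg

/-!
# The critical point of a tree with arbitrary signs

`cfgOf a σ z`: the configuration with twists `σ i * a i / 2`, `σ i = ±1`, at the solution `z` of the
vertex equations. All vertices are open.
-/

set_option autoImplicit false
set_option linter.unusedSectionVars false

namespace Pool.Agent.MX

open Pool.Agent.S3 hiding oth oth_cs oth_su Cfg
open Pool.Agent.AT (Tr Cfg oth Adj adj_cs adj_su adj_oth oth_cs oth_su mem_inc mem_inc_par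
  mem_inc_succ)
open Pool.Agent.MX.G (uz qm Rz)
open Pool.Agent.H63.VC hiding ext
open Pool.Agent.H63.VC7 Complex
open Pool.Agent.S3.E
open Pool.Agent.H25.RK (gdv gdv_re_lt gdv_hasDerivAt ul)
open scoped BigOperators

variable {m : ℕ} [Tr m]

/-- The share of the edge from `i` to `k` at the node `i`. -/
noncomputable def bm (σ : Fin (m + 1) → ℤ) (z : Fin (m + 1) → ℂ) (i k : Fin (m + 1)) : ℝ :=
  (qm (σ i) (σ k) (z i) (z k)).re / (z i).im

/-- A solution of the vertex equations `a_i z_i = π + i ∑ q_ij`, and its properties. -/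
structure MZ (a : Fin (m + 1) → ℕ) (σ : Fin (m + 1) → ℤ) (z : Fin (m + 1) → ℂ) : Prop where
  sg : ∀ i, σ i = 1 ∨ σ i = -1
  pos : ∀ i, 0 < (z i).re ∧ (z i).re < Real.pi / 2 ∧ 0 < (z i).im
  vertex : ∀ i, (a i : ℂ) * z i = (Real.pi : ℂ) +
    I * ∑ j ∈ inc (Tr.par (m := m)) Fin.succ i, qm (σ i) (σ (oth j i)) (z i) (z (oth j i))
  qm_re : ∀ i k, Adj i k → 0 < (qm (σ i) (σ k) (z i) (z k)).re
  opp : ∀ i k, Adj i k → σ i ≠ σ k → OppHyp (th (z i).re (z i).im) (th (z k).re (z k).im)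
    (xx (z i).re (z i).im) (xx (z k).re (z k).im)
  crit : ∀ i k, Adj i k → σ i ≠ σ k → ECrit (E.uu (z i)) (-((starRingEnd ℂ) (E.uu (z k))))
    (yy (E.uu (z i)) ((starRingEnd ℂ) (E.uu (z k)))) (qe (z i) (z k))
    (-((starRingEnd ℂ) (qe (z k) (z i)))) (-(2 * Real.pi * bw (z i) (z k)))
    (2 * Real.pi * bw (z k) (z i))
  same : ∀ i k, Adj i k → σ i = σ k → SamHyp (th (z i).re (z i).im) (th (z k).re (z k).im)
  share : ∀ i k, Adj i k → σ i = σ k → 2 / 5 < bm σ z i k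
  nb : ∀ i k, Adj i k → σ i = σ k →
    NB (th (z i).re (z i).im) (xx (z i).re (z i).im) (bm σ z i k) (a i)
  a3 : ∀ i, 3 ≤ a i
  hR : ∀ i, (z i).re / Real.pi < 13 / 40
  hT : ∀ i, th (z i).re (z i).im ≤ 27 / 50
  hT4 : ∀ i, 4 ≤ a i → th (z i).re (z i).im ≤ 1 / 2
  hG : ∀ i, a i = 3 → 7 / 25 ≤ th (z i).re (z i).im

theorem qm_opp {σ τ : ℤ} (h : σ ≠ τ) (z w : ℂ) : qm σ τ z w = qe z w := by
  rw [qm, if_neg h, qe, E.uu, E.uu, UU_conj]

theorem qm_same {σ τ : ℤ} (h : σ = τ) (z w : ℂ) : qm σ τ z w = qq (E.uu z) (E.uu w) := if_pos h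

theorem bm_opp {σ : Fin (m + 1) → ℤ} {z : Fin (m + 1) → ℂ} {i k : Fin (m + 1)}
    (h : σ i ≠ σ k) : bm σ z i k = bw (z i) (z k) := by
  rw [bm, qm_opp h, bw]

theorem bm_same {σ : Fin (m + 1) → ℤ} {z : Fin (m + 1) → ℂ} {i k : Fin (m + 1)}
    (h : σ i = σ k) : bm σ z i k = (qq (E.uu (z i)) (E.uu (z k))).re / (z i).im := by
  rw [bm, qm_same h]

namespace MZ

variable {a : Fin (m + 1) → ℕ} {σ : Fin (m + 1) → ℤ} {z : Fin (m + 1) → ℂ}

theorem thpos (h : MZ a σ z) (i : Fin (m + 1)) : 0 < th (z i).re (z i).im :=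
  th_pos (h.pos i).1 (h.pos i).2.1 (h.pos i).2.2

theorem xxpos (h : MZ a σ z) (i : Fin (m + 1)) : 0 < xx (z i).re (z i).im :=
  xx_pos (h.pos i).1 (h.pos i).2.1 (h.pos i).2.2

theorem abs_th (h : MZ a σ z) (i : Fin (m + 1)) : |th (z i).re (z i).im| < Real.pi / 2 :=
  abs_th_lt (h.pos i).1 (h.pos i).2.1 (h.pos i).2.2

theorem gd_uu (h : MZ a σ z) (i : Fin (m + 1)) :
    gd (UU (xx (z i).re (z i).im) (th (z i).re (z i).im)) = z i :=
  E.gd_uu (h.pos i).1 (h.pos i).2.1 (h.pos i).2.2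

theorem rz (h : MZ a σ z) (i : Fin (m + 1)) : Rz (z i) :=
  ⟨(h.pos i).1, (h.pos i).2.1, (h.pos i).2.2⟩

theorem bm_pos (h : MZ a σ z) {i k : Fin (m + 1)} (hik : Adj i k) : 0 < bm σ z i k :=
  div_pos (h.qm_re i k hik) (h.pos i).2.2

/-- Regularity, without conjugates. -/
theorem reg (h : MZ a σ z) {i k : Fin (m + 1)} (hik : Adj i k) :
    Reg (E.uu (z i)) (E.uu (z k)) := by
  by_cases hs : σ i = σ k
  · exact (h.same i k hik hs).reg _ _
  · have h1 : Reg (E.uu (z i)) (UU (xx (z k).re (z k).im) (-(th (z k).re (z k).im))) :=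
      (h.opp i k hik hs).reg (xx (z i).re (z i).im) (xx (z k).re (z k).im)
    rw [← UU_conj] at h1
    have h2 := G.reg_conj_right h1
    rwa [conj_conj] at h2

/-- The canonical split of an edge with opposite signs. -/
theorem split (h : MZ a σ z) {i k : Fin (m + 1)} (hik : Adj i k) (hs : σ i ≠ σ k) :
    Split (th (z i).re (z i).im) (th (z k).re (z k).im) (xx (z i).re (z i).im)
      (xx (z k).re (z k).im) (bm σ z i k) (bm σ z k i) where
  b0 := h.bm_pos hik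
  b0' := h.bm_pos hik.symm
  hQ := by
    rw [h.gd_uu i, bm_opp hs, bw, div_mul_cancel₀ _ (h.pos i).2.2.ne']
    rfl
  hQ' := by
    rw [h.gd_uu k, bm_opp (Ne.symm hs), bw, div_mul_cancel₀ _ (h.pos k).2.2.ne']
    rfl

/-- The split of an edge with equal signs. -/
theorem hQS (h : MZ a σ z) {i k : Fin (m + 1)} (hs : σ i = σ k) :
    (qq (UU (xx (z i).re (z i).im) (th (z i).re (z i).im))
      (UU (xx (z k).re (z k).im) (th (z k).re (z k).im))).re =
      bm σ z i k * (gd (UU (xx (z i).re (z i).im) (th (z i).re (z i).im))).im := by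
  rw [h.gd_uu i, bm_same hs, div_mul_cancel₀ _ (h.pos i).2.2.ne']
  rfl

/-- The weights have sum `a`. -/
theorem sum_bm (h : MZ a σ z) (i : Fin (m + 1)) :
    ∑ j ∈ inc (Tr.par (m := m)) Fin.succ i, bm σ z i (oth j i) = a i := by
  have h1 := congrArg im (h.vertex i)
  rw [← ofReal_natCast, im_ofReal_mul, add_im, ofReal_im, I_mul_im, zero_add, re_sum] at h1
  unfold bm
  rw [← Finset.sum_div, ← h1, mul_div_cancel_right₀ _ (h.pos i).2.2.ne']

theorem bm_le (h : MZ a σ z) {i k : Fin (m + 1)} (hik : Adj i k) : bm σ z i k ≤ a i := by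
  have hsum := h.sum_bm i
  obtain ⟨j, hj⟩ := hik
  have hj' : j ∈ inc (Tr.par (m := m)) Fin.succ i ∧ oth j i = k := by
    rcases hj with ⟨e1, e2⟩ | ⟨e1, e2⟩
    · rw [e1, e2, oth_cs]; exact ⟨mem_inc_par j, rfl⟩
    · rw [e1, e2, oth_su]; exact ⟨mem_inc_succ j, rfl⟩
  rw [← hsum, ← hj'.2]
  exact Finset.single_le_sum (f := fun j => bm σ z i (oth j i))
    (fun j hj => (h.bm_pos (adj_oth hj)).le) hj'.1

theorem gdv_uu (h : MZ a σ z) (i : Fin (m + 1)) :
    gdv (E.uu (z i)) = z i / Real.pi ∧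
    gdv (-((starRingEnd ℂ) (E.uu (z i)))) = -((starRingEnd ℂ) (z i)) / Real.pi :=
  ⟨(h.rz i).gdv_uu, (h.rz i).gdv_uu'⟩

/-- The vertex equation, `c < 0`. -/
theorem hv_neg (h : MZ a σ z) (i : Fin (m + 1)) :
    2 * Real.pi * I * (2 * ((-((a i : ℝ) / 2) : ℝ) : ℂ) * gdv (E.uu (z i)) + 1)
      - 2 * ∑ j ∈ inc (Tr.par (m := m)) Fin.succ i,
        qm (σ i) (σ (oth j i)) (z i) (z (oth j i)) = 0 := by
  have hpi : (Real.pi : ℂ) ≠ 0 := by exact_mod_cast Real.pi_ne_zero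
  have h1 := h.vertex i
  rw [(h.gdv_uu i).1]
  generalize (∑ j ∈ inc (Tr.par (m := m)) Fin.succ i,
    qm (σ i) (σ (oth j i)) (z i) (z (oth j i))) = S at *
  push_cast
  field_simp
  linear_combination (-2 * I) * h1 - (2 * S) * I_sq

/-- The vertex equation, `c > 0`. -/
theorem hv_pos (h : MZ a σ z) (i : Fin (m + 1)) :
    2 * Real.pi * I * (2 * ((((a i : ℝ) / 2) : ℝ) : ℂ) * gdv (-((starRingEnd ℂ) (E.uu (z i)))) + 1)
      + 2 * (starRingEnd ℂ) (∑ j ∈ inc (Tr.par (m := m)) Fin.succ i,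
        qm (σ i) (σ (oth j i)) (z i) (z (oth j i))) = 0 := by
  have hpi : (Real.pi : ℂ) ≠ 0 := by exact_mod_cast Real.pi_ne_zero
  have h1 := congrArg (starRingEnd ℂ) (h.vertex i)
  rw [map_add, map_mul, map_mul, conj_ofReal, conj_I, map_natCast] at h1
  rw [(h.gdv_uu i).2]
  generalize (starRingEnd ℂ) (∑ j ∈ inc (Tr.par (m := m)) Fin.succ i,
    qm (σ i) (σ (oth j i)) (z i) (z (oth j i))) = S at *
  push_cast
  field_simp
  linear_combination (-2 * I) * h1 + (2 * S) * I_sq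

end MZ

section

variable (a : Fin (m + 1) → ℕ) (σ : Fin (m + 1) → ℤ) (z : Fin (m + 1) → ℂ)

/-- The configuration at a solution of the system. -/
noncomputable def cfgOf : Cfg m where
  r := fun i => (σ i : ℝ) * a i / 2
  Op := Finset.univ
  s := σ
  θ := fun i => th (z i).re (z i).im
  xc := fun i => -(σ i : ℝ) * xx (z i).re (z i).im
  yc := fun j => yy (uz (σ (Tr.par j)) (z (Tr.par j))) (uz (σ j.succ) (z j.succ))
  β := fun j i => 2 * Real.pi * σ i * bm σ z i (oth j i)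

/-- `-e_v / 2` at the edge from `i` to `k`. -/
noncomputable def Qm (i k : Fin (m + 1)) : ℂ :=
  if σ i = 1 then -((starRingEnd ℂ) (qm (σ i) (σ k) (z i) (z k)))
    else qm (σ i) (σ k) (z i) (z k)

/-- `-e_v / 2` at the edge `j` and its vertex `i`. -/
noncomputable def Qv (j : Fin m) (i : Fin (m + 1)) : ℂ := Qm σ z i (oth j i)

end

section

variable {a : Fin (m + 1) → ℕ} {σ : Fin (m + 1) → ℤ} {z : Fin (m + 1) → ℂ}

theorem mem_Op (i : Fin (m + 1)) : i ∈ (cfgOf a σ z).Op := Finset.mem_univ i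

theorem uz_one (z : ℂ) : uz 1 z = -((starRingEnd ℂ) (E.uu z)) := if_pos rfl

theorem uz_neg_one (z : ℂ) : uz (-1) z = E.uu z := if_neg (by decide)

/-- The critical equations at the edge `j`. -/
structure EdC (a : Fin (m + 1) → ℕ) (σ : Fin (m + 1) → ℤ) (z : Fin (m + 1) → ℂ) (j : Fin m) :
    Prop where
  dom : sdom ((cfgOf a σ z).yc j) ((cfgOf a σ z).slc (Tr.par j)) ∧
    sdom ((cfgOf a σ z).yc j) ((cfgOf a σ z).slc j.succ)
  hy : ey ((cfgOf a σ z).yc j) ((cfgOf a σ z).slc (Tr.par j)) +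
    ey ((cfgOf a σ z).yc j) ((cfgOf a σ z).slc j.succ) = 0
  ev1 : ev ((cfgOf a σ z).yc j) ((cfgOf a σ z).vc (Tr.par j)) = -2 * Qv σ z j (Tr.par j)
  ev2 : ev ((cfgOf a σ z).yc j) ((cfgOf a σ z).vc j.succ) = -2 * Qv σ z j j.succ
  hA : ((cfgOf a σ z).A j).re < 0
  hD : ∀ p q : ℝ, (p ≠ 0 ∨ q ≠ 0) → ((cfgOf a σ z).qf j p q).re < 0

theorem uc_neg {i : Fin (m + 1)} (h : σ i = -1) : (cfgOf a σ z).uc i = E.uu (z i) := by
  unfold AT.Cfg.uc cfgOf E.uu UU ul
  simp [h]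

theorem uc_pos {i : Fin (m + 1)} (h : σ i = 1) :
    (cfgOf a σ z).uc i = -((starRingEnd ℂ) (E.uu (z i))) := by
  unfold AT.Cfg.uc cfgOf E.uu ul
  rw [UU_conj, UU_neg, UU, neg_neg]
  simp [h]

theorem uc_eq (hσ : ∀ i, σ i = 1 ∨ σ i = -1) (i : Fin (m + 1)) :
    (cfgOf a σ z).uc i = uz (σ i) (z i) := by
  rcases hσ i with h | h
  · rw [uc_pos h, h, uz_one]
  · rw [uc_neg h, h, uz_neg_one]

theorem slc_op (i : Fin (m + 1)) : (cfgOf a σ z).slc i = .op ((cfgOf a σ z).vc i) := by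
  unfold AT.Cfg.slc
  rw [if_pos (mem_Op i)]

theorem EdC.of_open {j : Fin m}
    (H : ECrit ((cfgOf a σ z).uc (Tr.par j)) ((cfgOf a σ z).uc j.succ) ((cfgOf a σ z).yc j)
      (Qv σ z j (Tr.par j)) (Qv σ z j j.succ) ((cfgOf a σ z).β j (Tr.par j))
      ((cfgOf a σ z).β j j.succ)) : EdC a σ z j where
  dom := by rw [slc_op, slc_op]; exact H.dom
  hy := by rw [slc_op, slc_op]; exact H.hy
  ev1 := H.ev1
  ev2 := H.ev2
  hA := by
    unfold AT.Cfg.A
    rw [slc_op, slc_op]; exact H.hA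
  hD := by
    intro p q hpq
    have := H.hD p q hpq
    unfold AT.Cfg.qf AT.Cfg.c AT.Cfg.b AT.Cfg.A
    rw [slc_op, slc_op]
    exact this

theorem β_eq (j : Fin m) (i : Fin (m + 1)) : (cfgOf a σ z).β j i =
    2 * Real.pi * σ i * bm σ z i (oth j i) := rfl

theorem yc_eq (j : Fin m) : (cfgOf a σ z).yc j =
    yy (uz (σ (Tr.par j)) (z (Tr.par j))) (uz (σ j.succ) (z j.succ)) := rfl

theorem Qv_cs (j : Fin m) : Qv σ z j (Tr.par j) = Qm σ z (Tr.par j) j.succ := by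
  rw [Qv, oth_cs]

theorem Qv_su (j : Fin m) : Qv σ z j j.succ = Qm σ z j.succ (Tr.par j) := by
  rw [Qv, oth_su]

theorem Qv_neg {j : Fin m} {i : Fin (m + 1)} (h : σ i = -1) : Qv σ z j i =
    qm (σ i) (σ (oth j i)) (z i) (z (oth j i)) := by
  unfold Qv Qm; rw [if_neg (by rw [h]; decide)]

theorem Qv_pos {j : Fin m} {i : Fin (m + 1)} (h : σ i = 1) : Qv σ z j i =
    -((starRingEnd ℂ) (qm (σ i) (σ (oth j i)) (z i) (z (oth j i)))) := by
  unfold Qv Qm; rw [if_pos h]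

/-- The critical equations of an edge, for all signs. -/
theorem MZ.ecrit (h : MZ a σ z) {i k : Fin (m + 1)} (hik : Adj i k) :
    ECrit (uz (σ i) (z i)) (uz (σ k) (z k)) (yy (uz (σ i) (z i)) (uz (σ k) (z k)))
      (Qm σ z i k) (Qm σ z k i) (2 * Real.pi * σ i * bm σ z i k)
      (2 * Real.pi * σ k * bm σ z k i) := by
  have bi := h.bm_pos hik
  have bk := h.bm_pos hik.symm
  have xi := h.xxpos i
  have xk := h.xxpos k
  rcases h.sg i with s1 | s1 <;> rcases h.sg k with s2 | s2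
  · have hs : σ i = σ k := by rw [s1, s2]
    have e1 : Qm σ z i k = -((starRingEnd ℂ) (qq (E.uu (z i)) (E.uu (z k)))) := by
      rw [Qm, if_pos s1, qm_same hs]
    have e2 : Qm σ z k i = -((starRingEnd ℂ) (qq (E.uu (z k)) (E.uu (z i)))) := by
      rw [Qm, if_pos s2, qm_same hs.symm]
    have b1 : 2 * Real.pi * ((σ i : ℤ) : ℝ) * bm σ z i k = 2 * Real.pi * bm σ z i k := by
      rw [s1]; push_cast; ring
    have b2 : 2 * Real.pi * ((σ k : ℤ) : ℝ) * bm σ z k i = 2 * Real.pi * bm σ z k i := by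
      rw [s2]; push_cast; ring
    rw [e1, e2, b1, b2, s1, s2, uz_one, uz_one]
    exact ecrit_pos (h.same i k hik hs) bi bk xi xk
  · have hs : σ i ≠ σ k := by rw [s1, s2]; decide
    have e1 : Qm σ z i k = -((starRingEnd ℂ) (qe (z i) (z k))) := by
      rw [Qm, if_pos s1, qm_opp hs]
    have e2 : Qm σ z k i = qe (z k) (z i) := by
      rw [Qm, if_neg (by rw [s2]; decide), qm_opp (Ne.symm hs)]
    have b1 : 2 * Real.pi * ((σ i : ℤ) : ℝ) * bm σ z i k = 2 * Real.pi * bw (z i) (z k) := by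
      rw [s1, bm_opp hs]; push_cast; ring
    have b2 : 2 * Real.pi * ((σ k : ℤ) : ℝ) * bm σ z k i = -(2 * Real.pi * bw (z k) (z i)) := by
      rw [s2, bm_opp (Ne.symm hs)]; push_cast; ring
    have H := (h.crit k i hik.symm (Ne.symm hs)).symm
    have ey0 : yy (uz (σ i) (z i)) (uz (σ k) (z k)) =
        yy (E.uu (z k)) ((starRingEnd ℂ) (E.uu (z i))) := by
      rw [s1, s2, uz_one, uz_neg_one, yy_neg_left, yy_comm]
    rw [ey0, e1, e2, b1, b2, s1, s2, uz_one, uz_neg_one]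
    exact H
  · have hs : σ i ≠ σ k := by rw [s1, s2]; decide
    have e1 : Qm σ z i k = qe (z i) (z k) := by
      rw [Qm, if_neg (by rw [s1]; decide), qm_opp hs]
    have e2 : Qm σ z k i = -((starRingEnd ℂ) (qe (z k) (z i))) := by
      rw [Qm, if_pos s2, qm_opp (Ne.symm hs)]
    have b1 : 2 * Real.pi * ((σ i : ℤ) : ℝ) * bm σ z i k = -(2 * Real.pi * bw (z i) (z k)) := by
      rw [s1, bm_opp hs]; push_cast; ring
    have b2 : 2 * Real.pi * ((σ k : ℤ) : ℝ) * bm σ z k i = 2 * Real.pi * bw (z k) (z i) := by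
      rw [s2, bm_opp (Ne.symm hs)]; push_cast; ring
    have H := h.crit i k hik hs
    have ey0 : yy (uz (σ i) (z i)) (uz (σ k) (z k)) =
        yy (E.uu (z i)) ((starRingEnd ℂ) (E.uu (z k))) := by
      rw [s1, s2, uz_one, uz_neg_one, yy_neg_right]
    rw [ey0, e1, e2, b1, b2, s1, s2, uz_one, uz_neg_one]
    exact H
  · have hs : σ i = σ k := by rw [s1, s2]
    have e1 : Qm σ z i k = qq (E.uu (z i)) (E.uu (z k)) := by
      rw [Qm, if_neg (by rw [s1]; decide), qm_same hs]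
    have e2 : Qm σ z k i = qq (E.uu (z k)) (E.uu (z i)) := by
      rw [Qm, if_neg (by rw [s2]; decide), qm_same hs.symm]
    have b1 : 2 * Real.pi * ((σ i : ℤ) : ℝ) * bm σ z i k = -(2 * Real.pi * bm σ z i k) := by
      rw [s1]; push_cast; ring
    have b2 : 2 * Real.pi * ((σ k : ℤ) : ℝ) * bm σ z k i = -(2 * Real.pi * bm σ z k i) := by
      rw [s2]; push_cast; ring
    rw [e1, e2, b1, b2, s1, s2, uz_neg_one, uz_neg_one]
    exact ecrit_neg (h.same i k hik hs) bi bk xi xk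

/-- Every edge satisfies the critical equations. -/
theorem edC (h : MZ a σ z) (j : Fin m) : EdC a σ z j := by
  refine EdC.of_open ?_
  rw [uc_eq h.sg, uc_eq h.sg, yc_eq, Qv_cs, Qv_su, β_eq, β_eq, oth_cs, oth_su]
  exact h.ecrit (adj_cs j)

theorem ev_eq (H : ∀ j, EdC a σ z j) {i : Fin (m + 1)} {j : Fin m}
    (h : j ∈ inc (Tr.par (m := m)) Fin.succ i) :
    ev ((cfgOf a σ z).yc j) ((cfgOf a σ z).vc i) = -2 * Qv σ z j i := by
  rcases mem_inc h with e | e
  · subst e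
    exact (H j).ev1
  · subst e
    exact (H j).ev2

/-- **The critical point of the tree.** -/
theorem crit (hm : 1 ≤ m) (h : MZ a σ z) : (cfgOf a σ z).Crit := by
  have H := edC h
  refine ⟨hm, fun i _ => h.thpos i, fun i _ => ?_, fun j => (H j).dom, fun j => (H j).hy, ?_, ?_,
    fun j => (H j).hA, ?_⟩
  · exact (abs_lt.1 (h.abs_th i)).2
  · intro i hi
    rw [Finset.sum_congr rfl fun j hj => ev_eq H hj, ← Finset.mul_sum]
    rcases h.sg i with s1 | s1
    · rw [Finset.sum_congr rfl fun j _ => Qv_pos s1, Finset.sum_neg_distrib, ← map_sum]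
      have h3 := h.hv_pos i
      have h4 : (cfgOf a σ z).vc i = gdv (-((starRingEnd ℂ) (E.uu (z i)))) := by
        unfold AT.Cfg.vc
        rw [uc_pos s1]
      have h5 : (cfgOf a σ z).r i = (a i : ℝ) / 2 := by
        show (σ i : ℝ) * a i / 2 = _
        rw [s1]; push_cast; ring
      rw [h4, h5]
      linear_combination h3
    · rw [Finset.sum_congr rfl fun j _ => Qv_neg s1]
      have h3 := h.hv_neg i
      have h4 : (cfgOf a σ z).vc i = gdv (E.uu (z i)) := by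
        unfold AT.Cfg.vc
        rw [uc_neg s1]
      have h5 : (cfgOf a σ z).r i = -((a i : ℝ) / 2) := by
        show (σ i : ℝ) * a i / 2 = _
        rw [s1]; push_cast; ring
      rw [h4, h5]
      linear_combination h3
  · intro i _
    have h3 : ∀ j ∈ inc (Tr.par (m := m)) Fin.succ i, (cfgOf a σ z).β j i =
        (2 * Real.pi * σ i) * bm σ z i (oth j i) :=
      fun j _ => β_eq j i
    rw [Finset.sum_congr rfl h3, ← Finset.mul_sum, h.sum_bm i]
    show 2 * Real.pi * (σ i : ℝ) * (a i : ℝ) = 4 * Real.pi * ((σ i : ℝ) * a i / 2)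
    ring
  · intro j p q _ _ hpq
    exact (H j).hD p q hpq

end

end Pool.Agent.MX
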