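import Pool.Agent.MX.CritCfg
import Pool.Agent.AT.Main
import Pool.Agent.AT.CV.Crit
import Pool.Agent.AT.G.Vol

/-!
# The critical point of a tree with arbitrary signs, volume and complex volume
-/

set_option autoImplicit false
set_option linter.unusedSectionVars false

namespace Pool.Agent.MX

open Pool.Agent.S3 hiding oth oth_cs oth_su Cfg
open Pool.Agent.AT (Tr Cfg oth Adj adj_cs adj_su adj_oth oth_cs oth_su mem_inc mem_inc_par
  mem_inc_succ)
open Pool.Agent.AT.G (SV CritS)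
open Pool.Agent.MX.G (uz qm Rz)
open Pool.Agent.H63.VC hiding ext
open Pool.Agent.H63.VC7 Complex
open Pool.Agent.S3.E
open Pool.Agent.H63.GO
open Pool.Agent.H63.VC3 (ff hh)
open Pool.Agent.H25.RK (gdv gdv_re_lt gdv_hasDerivAt ul)
open scoped BigOperators

variable {m : ℕ} [Tr m] {a : Fin (m + 1) → ℕ} {σ : Fin (m + 1) → ℤ} {z : Fin (m + 1) → ℂ}

/-- The critical value. -/
noncomputable def Wv (a : Fin (m + 1) → ℕ) (σ : Fin (m + 1) → ℤ) (z : Fin (m + 1) → ℂ) : ℂ :=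
  (cfgOf a σ z).V (cp (cfgOf a σ z).ac (cfgOf a σ z).bc)

/-- The critical value as a sum. -/
theorem Wv_eq : Wv a σ z =
    ∑ j : Fin m, (4 * ff ((cfgOf a σ z).yc j + 1 / 2) -
      fe ((cfgOf a σ z).yc j - (cfgOf a σ z).vc (Tr.par j)) -
      fe ((cfgOf a σ z).yc j + (cfgOf a σ z).vc (Tr.par j)) -
      fe ((cfgOf a σ z).yc j - (cfgOf a σ z).vc j.succ) -
      fe ((cfgOf a σ z).yc j + (cfgOf a σ z).vc j.succ)) +
    ∑ i, 2 * Real.pi * I * (((σ i * a i : ℤ) : ℂ) / 2 * (cfgOf a σ z).vc i ^ 2 +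
      (cfgOf a σ z).vc i) := by
  unfold Wv AT.Cfg.V
  rw [add_comm]
  congr 1
  · refine Finset.sum_congr rfl fun j _ => ?_
    rw [AT.Cfg.Hess_Yz0, AT.Cfg.Hess_slz0, AT.Cfg.Hess_slz0, slc_op, slc_op]
    unfold sP
    ring
  · have h1 : ∀ i : (cfgOf a σ z).Op, wr ((cfgOf a σ z).r i)
        (gdv ((cp (cfgOf a σ z).ac (cfgOf a σ z).bc) (Sum.inl i))) =
          wr ((cfgOf a σ z).r i) ((cfgOf a σ z).vc i) := by
      intro i
      rfl
    rw [Finset.sum_congr rfl fun i _ => h1 i]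
    rw [Finset.sum_coe_sort (cfgOf a σ z).Op
      (fun i => wr ((cfgOf a σ z).r i) ((cfgOf a σ z).vc i))]
    refine Finset.sum_congr rfl fun i _ => ?_
    unfold wr
    have : (((cfgOf a σ z).r i : ℝ) : ℂ) = ((σ i * a i : ℤ) : ℂ) / 2 := by
      show (((σ i : ℝ) * a i / 2 : ℝ) : ℂ) = _
      push_cast
      ring
    rw [this]

/-- The critical value. -/
theorem WT_Wv : AT.G.WT (Tr.par (m := m)) Fin.succ (fun i => σ i * (a i : ℤ)) (cfgOf a σ z).yc
    (cfgOf a σ z).vc = Wv a σ z := Wv_eq.symm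

/-- `φ ≤ θ`. -/
theorem MZ.ph_le_th (h : MZ a σ z) (i : Fin (m + 1)) :
    ph (z i).re (z i).im ≤ th (z i).re (z i).im := by
  have h1 := (E.Lc_uu (h.pos i).1 (h.pos i).2.1 (h.pos i).2.2).2
  have h2 : |(E.uu (z i)).im| < Real.pi / 2 := by
    rw [E.uu, UU_im]; exact h.abs_th i
  have h3 := Lc_im_abs h2
  rw [h1, E.uu, UU_im, abs_of_pos (h.thpos i)] at h3
  exact (le_abs_self _).trans h3

/-- `R + φ < π / 2`. -/
theorem MZ.re_add_ph (h : MZ a σ z) (i : Fin (m + 1)) :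
    (z i).re + ph (z i).re (z i).im < Real.pi / 2 := by
  have h1 := h.hR i
  have h2 := h.hT i
  have h3 := h.ph_le_th i
  rw [div_lt_iff₀ Real.pi_pos] at h1
  have := Real.pi_gt_d2
  linarith

/-- The properties of the solution used only for the geometry. -/
structure MG (σ : Fin (m + 1) → ℤ) (z : Fin (m + 1) → ℂ) : Prop where
  good : ∀ i k, Adj i k → σ i ≠ σ k →
    S3.Good (E.uu (z i)) ((starRingEnd ℂ) (E.uu (z k)))
  qlt : ∀ i k, Adj i k → |(qm (σ i) (σ k) (z i) (z k)).im| + (z k).re < Real.pi / 2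

/-- **The critical point of the tree in the form used for the geometry.** -/
theorem critS_of (hm : 1 ≤ m) (h : MZ a σ z) (hg : MG σ z) :
    CritS (Tr.par (m := m)) Fin.succ (fun i => σ i * (a i : ℤ)) (cfgOf a σ z).yc
      (cfgOf a σ z).vc := by
  have key := G.critS_z (a := a) hm h.sg h.rz (fun i k hik => h.reg hik)
    (fun i k hik hs => good_same (h.same i k hik hs) (h.xxpos i).le (h.xxpos k).le)
    hg.good h.vertex hg.qlt h.re_add_ph
  have e : (cfgOf a σ z).vc = fun i => gdv (uz (σ i) (z i)) := by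
    funext i
    unfold AT.Cfg.vc
    rw [uc_eq h.sg]
  rw [e]
  exact key

/-- **Volume and complex volume of the tree**, from the critical value. -/
theorem geo (hm : 1 ≤ m) (h : MZ a σ z) (hg : MG σ z) :
    AT.Hyp.IsVolume (Tr.par (m := m)) Fin.succ (fun i => σ i * (a i : ℤ))
      (2 * Real.pi * (Wv a σ z).re) ∧
    ∃ Z : ℂ, AT.Hyp.IsComplexVolume (Tr.par (m := m)) Fin.succ (fun i => σ i * (a i : ℤ)) Z ∧
      ∃ k : ℤ, Z = 2 * Real.pi * I * Wv a σ z +
        (Real.pi : ℂ) ^ 2 / 2 * (∑ i, ((σ i * a i : ℤ) : ℂ)) + k * (Real.pi : ℂ) ^ 2 := by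
  have hcs := critS_of hm h hg
  have hW : Wv a σ z = AT.G.WT (Tr.par (m := m)) Fin.succ (fun i => σ i * (a i : ℤ))
      (cfgOf a σ z).yc (cfgOf a σ z).vc := Wv_eq
  obtain ⟨Z, hZ, k2, hk⟩ := AT.CV.isComplexVolume_of_crit hcs
  refine ⟨?_, Z, hZ, k2, ?_⟩
  · rw [hW]
    exact hcs.isVolume
  · rw [hk, hW]

end Pool.Agent.MX
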