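import Pool.Agent.AT2.Clo2
import Pool.Agent.AT2.G.Clasp
import Pool.Agent.S3.CritC
import Pool.Agent.MX.G.Sgn

/-!
# The critical point at a closed edge, for both signs

The node has the variable `z`, `u = uu z`, and negative weight; the closed leaf has the sign `s`
(`s = 1`: opposite signs, `s = -1`: equal signs). The critical point of the edge is `yC s (z / π)`, and
`-e_v / 2 = (u + s i z) / 2`.
-/

set_option autoImplicit false

namespace Pool.Agent.MX

open Pool.Agent.S3 Pool.Agent.S3.E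
open Complex
open Pool.Agent.AT2 (Rg Om yC y1 YY mem_Om)
open Pool.Agent.MX.G (uz Rz)
open Pool.Agent.H63.VC3 (hh)
open Pool.Agent.H25.RK (gdv gdv_re_lt)
open scoped ComplexConjugate

/-- `-e_v / 2` at a closed edge. -/
noncomputable def qC (s : ℤ) (z : ℂ) : ℂ := (E.uu z + s * I * z) / 2

/-! ### The tangent of the edge variable -/

theorem tan_y1 {v : ℂ} (hv : v ∈ Om) (hc : cos (Real.pi * v) ≠ 0) :
    cos (Real.pi * y1 v) ≠ 0 ∧
      sin (Real.pi * y1 v) = (1 / cos (Real.pi * v) - I) * cos (Real.pi * y1 v) := by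
  have h1 := AT2.y1_exp hv
  have h2 := Complex.sin_sq_add_cos_sq (Real.pi * y1 v)
  have h3 : exp (2 * Real.pi * I * y1 v) = (cos (Real.pi * y1 v) + sin (Real.pi * y1 v) * I) ^ 2 := by
    rw [← exp_mul_I, ← exp_nat_mul]
    congr 1
    push_cast
    ring
  rw [h3] at h1
  unfold YY at h1
  generalize cos (Real.pi * y1 v) = C at *
  generalize sin (Real.pi * y1 v) = S at *
  generalize cos (Real.pi * v) = k at *
  have h4 : C * (C + S * I) = I * k := by
    linear_combination (1 / 2 : ℂ) * h1 + (1 / 2 : ℂ) * h2 - (1 / 2) * S ^ 2 * I_sq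
  have hC : C ≠ 0 := by
    rintro rfl
    rw [zero_mul] at h4
    exact mul_ne_zero I_ne_zero hc h4.symm
  have hE : C + S * I ≠ 0 := by
    intro h0
    rw [h0, mul_zero] at h4
    exact mul_ne_zero I_ne_zero hc h4.symm
  refine ⟨hC, ?_⟩
  have h5 : (S * k - (1 - I * k) * C) * (C + S * I) = 0 := by
    have e1 : I * k * (C + S * I) ^ 2 = I * k * (-1 + 2 * I * k) := by rw [h1]
    have e2 : (1 - 2 * I * k) * (C * (C + S * I)) = (1 - 2 * I * k) * (I * k) := by rw [h4]
    linear_combination (-1 : ℂ) * e1 - e2 + (S * k * (C + S * I)) * I_sq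
  have h6 : S * k = (1 - I * k) * C := sub_eq_zero.1 ((mul_eq_zero.1 h5).resolve_right hE)
  field_simp
  linear_combination h6

/-- Complex conjugation of the critical point. -/
theorem yC_mirror {s : ℤ} {v : ℂ} (h : Rg s v) : conj (yC s v) = yC (-s) (-conj v) ∧
    Rg (-s) (-conj v) := by
  rcases h with ⟨rfl, h⟩ | ⟨rfl, h⟩
  · refine ⟨?_, Or.inr ⟨rfl, ?_⟩⟩
    · rw [AT2.yC_one, ← AT2.yC_conj h]
    · rw [map_neg, conj_conj, neg_neg]
      exact h
  · refine ⟨?_, Or.inl ⟨by norm_num, h⟩⟩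
    have h1 := AT2.yC_conj h
    rw [map_neg, conj_conj, neg_neg] at h1
    rw [h1, conj_conj, neg_neg, AT2.yC_one]

theorem tan_yC {s : ℤ} {v : ℂ} (h : Rg s v) (hc : cos (Real.pi * v) ≠ 0) :
    cos (Real.pi * yC s v) ≠ 0 ∧
      sin (Real.pi * yC s v) = (1 / cos (Real.pi * v) - s * I) * cos (Real.pi * yC s v) := by
  rcases h with ⟨rfl, h⟩ | ⟨rfl, h⟩
  · have := tan_y1 h hc
    rw [AT2.yC_one]
    push_cast
    rw [one_mul]
    exact this
  · have h1 := AT2.yC_conj h
    rw [map_neg, conj_conj, neg_neg] at h1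
    have e1 : (Real.pi : ℂ) * -conj v = -conj (Real.pi * v) := by
      rw [map_mul, conj_ofReal]; ring
    have hc' : cos (Real.pi * -conj v) ≠ 0 := by
      rw [e1, Complex.cos_neg, Complex.cos_conj]
      exact (map_ne_zero _).2 hc
    obtain ⟨h2, h3⟩ := tan_y1 h hc'
    have e2 : (Real.pi : ℂ) * yC (-1) v = conj (Real.pi * y1 (-conj v)) := by
      rw [map_mul, conj_ofReal, h1]
    rw [e2, Complex.cos_conj, Complex.sin_conj]
    refine ⟨(map_ne_zero _).2 h2, ?_⟩
    rw [h3, e1, Complex.cos_neg, Complex.cos_conj]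
    simp only [map_mul, map_sub, map_div₀, map_one, conj_conj, conj_I]
    push_cast
    ring

section

variable {z : ℂ} {s : ℤ}

theorem sg_of_rg {v : ℂ} (h : Rg s v) : s = 1 ∨ s = -1 := by
  rcases h with ⟨h, -⟩ | ⟨h, -⟩
  · exact Or.inl h
  · exact Or.inr h

theorem sg_sq (h : s = 1 ∨ s = -1) : (s : ℂ) ^ 2 = 1 := by
  rcases h with rfl | rfl <;> norm_num

theorem cos_re_im (z : ℂ) : (cos z).re = Real.cos z.re * Real.cosh z.im ∧
    (cos z).im = -(Real.sin z.re * Real.sinh z.im) := by
  conv_lhs => rw [← re_add_im z]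
  conv_rhs => rw [← re_add_im z]
  rw [Complex.cos_add_mul_I]
  simp only [sub_re, sub_im, mul_re, mul_im, I_re, I_im, ← ofReal_cos, ← ofReal_cosh, ← ofReal_sin,
    ← ofReal_sinh, ofReal_re, ofReal_im, add_re, add_im]
  constructor <;> ring_nf

theorem Rz.cosz (h : Rz z) : 0 < (cos z).re ∧ (cos z).im < 0 ∧ cos z ≠ 0 := by
  obtain ⟨h1, h2⟩ := cos_re_im z
  have h3 : 0 < (cos z).re := by
    rw [h1]
    exact mul_pos (Real.cos_pos_of_mem_Ioo ⟨by linarith [h.re0, Real.pi_pos], h.re1⟩)
      (Real.cosh_pos _)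
  refine ⟨h3, ?_, ?_⟩
  · rw [h2]
    have := mul_pos (Real.sin_pos_of_pos_of_lt_pi h.re0 (by linarith [h.re1, Real.pi_pos]))
      (Real.sinh_pos_iff.2 h.im0)
    linarith
  · intro h0
    rw [h0, zero_re] at h3
    exact lt_irrefl _ h3

/-- The second derivatives at a closed edge. -/
theorem second_cl (hz : Rz z) (hr : Rg s (z / Real.pi)) :
    evv (yC s (z / Real.pi)) (z / Real.pi) =
      -(s * I * Real.pi * (1 / cos z - s * I) / cos z) ∧
    eyv (yC s (z / Real.pi)) (z / Real.pi) =
      s * I * Real.pi * sin z * (1 - 2 * s * I * cos z) / cos z ^ 2 ∧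
    eyy (yC s (z / Real.pi)) (.op (z / Real.pi)) + eyy (yC s (z / Real.pi)) (.cl s) =
      -(Real.pi * s * I * (1 - 2 * s * I * cos z) ^ 2 / cos z ^ 2) := by
  have hpi : (Real.pi : ℂ) ≠ 0 := by exact_mod_cast Real.pi_ne_zero
  have hs := sg_sq (sg_of_rg hr)
  have hs0 : (s : ℂ) ≠ 0 := by
    intro h0
    rw [h0] at hs
    norm_num at hs
  obtain ⟨-, -, hk⟩ := Rz.cosz hz
  have ev0 : (Real.pi : ℂ) * (z / Real.pi) = z := by field_simp
  have hT := tan_yC hr (by rw [ev0]; exact hk)
  rw [ev0] at hT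
  obtain ⟨hC, hS⟩ := hT
  have e1 : ct (yC s (z / Real.pi) + 1 / 2) = -(Real.pi * (1 / cos z - s * I)) := by
    rw [ct, mul_add, show (Real.pi : ℂ) * (1 / 2) = (Real.pi : ℂ) / 2 by ring,
      Complex.sin_add_pi_div_two, Complex.cos_add_pi_div_two, hS]
    field_simp
  have hsc := Complex.sin_sq_add_cos_sq z
  have hI := I_ne_zero
  have e2 : ct (yC s (z / Real.pi) - z / Real.pi) =
      Real.pi * (cos z + (1 / cos z - s * I) * sin z) / (1 - s * I * cos z - sin z) := by
    rw [ct, mul_sub, ev0, Complex.cos_sub, Complex.sin_sub, hS]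
    have a1 : (1 / cos z - s * I) * cos (Real.pi * yC s (z / Real.pi)) * cos z -
        cos (Real.pi * yC s (z / Real.pi)) * sin z =
        cos (Real.pi * yC s (z / Real.pi)) * (1 - s * I * cos z - sin z) := by
      field_simp
    rw [a1, show Real.pi * (cos (Real.pi * yC s (z / Real.pi)) * cos z +
      (1 / cos z - s * I) * cos (Real.pi * yC s (z / Real.pi)) * sin z) =
      cos (Real.pi * yC s (z / Real.pi)) * (Real.pi * (cos z + (1 / cos z - s * I) * sin z)) by ring,
      mul_div_mul_left _ _ hC]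
  have e3 : ct (yC s (z / Real.pi) + z / Real.pi) =
      Real.pi * (cos z - (1 / cos z - s * I) * sin z) / (1 - s * I * cos z + sin z) := by
    rw [ct, mul_add, ev0, Complex.cos_add, Complex.sin_add, hS]
    have a1 : (1 / cos z - s * I) * cos (Real.pi * yC s (z / Real.pi)) * cos z +
        cos (Real.pi * yC s (z / Real.pi)) * sin z =
        cos (Real.pi * yC s (z / Real.pi)) * (1 - s * I * cos z + sin z) := by
      field_simp
    rw [a1, show Real.pi * (cos (Real.pi * yC s (z / Real.pi)) * cos z -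
      (1 / cos z - s * I) * cos (Real.pi * yC s (z / Real.pi)) * sin z) =
      cos (Real.pi * yC s (z / Real.pi)) * (Real.pi * (cos z - (1 / cos z - s * I) * sin z)) by ring,
      mul_div_mul_left _ _ hC]
  have hprod : (1 - s * I * cos z - sin z) * (1 - s * I * cos z + sin z) = -2 * s * I * cos z := by
    linear_combination (-1 : ℂ) * hsc + (s : ℂ) ^ 2 * cos z ^ 2 * I_sq - cos z ^ 2 * hs
  have hne : -2 * s * I * cos z ≠ 0 :=
    mul_ne_zero (mul_ne_zero (mul_ne_zero (by norm_num) hs0) hI) hk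
  have n1 : 1 - s * I * cos z - sin z ≠ 0 := by
    intro h0
    rw [h0, zero_mul] at hprod
    exact hne hprod.symm
  have n2 : 1 - s * I * cos z + sin z ≠ 0 := by
    intro h0
    rw [h0, mul_zero] at hprod
    exact hne hprod.symm
  have hsi : (s : ℂ) * I * (s * I) = -1 := by
    linear_combination (s : ℂ) ^ 2 * I_sq - hs
  have hinv : (1 : ℂ) / (-2 * s * I * cos z) = s * I / (2 * cos z) := by
    rw [div_eq_div_iff hne (by simpa using hk)]
    linear_combination (2 * cos z) * hsi
  have hadd : ct (yC s (z / Real.pi) - z / Real.pi) + ct (yC s (z / Real.pi) + z / Real.pi) =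
      s * I * Real.pi * (1 / cos z - s * I) / cos z := by
    rw [e2, e3, div_add_div _ _ n1 n2, hprod, div_eq_mul_one_div _ (-2 * s * I * cos z), hinv]
    have a2 : Real.pi * (cos z + (1 / cos z - s * I) * sin z) * (1 - s * I * cos z + sin z) +
        (1 - s * I * cos z - sin z) * (Real.pi * (cos z - (1 / cos z - s * I) * sin z)) =
        2 * Real.pi * (1 / cos z - s * I) := by
      have a3 : (1 - s * I * cos z : ℂ) = (1 / cos z - s * I) * cos z := by
        field_simp
      rw [a3]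
      linear_combination (2 * Real.pi * (1 / cos z - s * I)) * hsc
    rw [a2]
    field_simp
  have hsub : ct (yC s (z / Real.pi) - z / Real.pi) - ct (yC s (z / Real.pi) + z / Real.pi) =
      s * I * Real.pi * sin z * (1 - 2 * s * I * cos z) / cos z ^ 2 := by
    rw [e2, e3, div_sub_div _ _ n1 n2, hprod, div_eq_mul_one_div _ (-2 * s * I * cos z), hinv]
    have a2 : Real.pi * (cos z + (1 / cos z - s * I) * sin z) * (1 - s * I * cos z + sin z) -
        (1 - s * I * cos z - sin z) * (Real.pi * (cos z - (1 / cos z - s * I) * sin z)) =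
        2 * Real.pi * (cos z * sin z) * (1 + (1 / cos z - s * I) ^ 2) := by
      have a3 : (1 - s * I * cos z : ℂ) = (1 / cos z - s * I) * cos z := by
        field_simp
      rw [a3]
      ring
    have a4 : (1 : ℂ) + (1 / cos z - s * I) ^ 2 = (1 - 2 * s * I * cos z) / cos z ^ 2 := by
      rw [eq_div_iff (pow_ne_zero 2 hk)]
      have a5 : (1 / cos z - s * I) * cos z = 1 - s * I * cos z := by field_simp
      linear_combination ((1 / cos z - s * I) * cos z + 1 - s * I * cos z) * a5 +
        cos z ^ 2 * hsi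
    rw [a2, a4]
    field_simp
  refine ⟨?_, ?_, ?_⟩
  · rw [evv, ← hadd]; ring
  · rw [eyv, hsub]
  · have e4 : eyy (yC s (z / Real.pi)) (.op (z / Real.pi)) =
        2 * ct (yC s (z / Real.pi) + 1 / 2) -
          (ct (yC s (z / Real.pi) - z / Real.pi) + ct (yC s (z / Real.pi) + z / Real.pi)) := by
      rw [eyy]; ring
    have e5 : eyy (yC s (z / Real.pi)) (.cl s) =
        ct (yC s (z / Real.pi) + 1 / 2) + Real.pi * I * s := rfl
    rw [e4, e5, hadd, e1]
    field_simp
    linear_combination (cos z * (4 * (s : ℂ) * I * cos z - 3)) * hsi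

/-- The form at a closed edge. -/
theorem form_cl (hz : Rz z) (hr : Rg s (z / Real.pi)) (β a : ℂ) :
    (evv (yC s (z / Real.pi)) (z / Real.pi) + I * β) * dgv (E.uu z) ^ 2 * a ^ 2
      - (eyv (yC s (z / Real.pi)) (z / Real.pi) * dgv (E.uu z) * a) ^ 2
        / (eyy (yC s (z / Real.pi)) (.op (z / Real.pi)) + eyy (yC s (z / Real.pi)) (.cl s)) =
      -(a ^ 2 / Real.pi) * (cos z + (s - β / Real.pi) * (I * cos z ^ 2)) := by
  have hpi : (Real.pi : ℂ) ≠ 0 := by exact_mod_cast Real.pi_ne_zero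
  have hs := sg_sq (sg_of_rg hr)
  have hs0 : (s : ℂ) ≠ 0 := by
    intro h0
    rw [h0] at hs
    norm_num at hs
  obtain ⟨k1, k2, hk⟩ := Rz.cosz hz
  have hI := I_ne_zero
  have hsc := Complex.sin_sq_add_cos_sq z
  have hsi : (s : ℂ) * I * (s * I) = -1 := by
    linear_combination (s : ℂ) ^ 2 * I_sq - hs
  obtain ⟨v1, v2, v3⟩ := second_cl hz hr
  have hd : dgv (E.uu z) = cos z / Real.pi := by
    have hc := cosh_uu hz.re0 hz.re1 hz.im0
    have hc0 : cosh (E.uu z) ≠ 0 := by
      intro h0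
      rw [h0, zero_mul] at hc
      exact one_ne_zero hc.symm
    rw [dgv, div_eq_div_iff (mul_ne_zero hpi hc0) hpi]
    linear_combination (-Real.pi : ℂ) * hc
  have hN : (1 - 2 * s * I * cos z : ℂ) ≠ 0 := by
    intro h0
    have h1 : cos z = s * I * (-1 / 2) := by
      linear_combination ((s : ℂ) * I / 2) * h0 + cos z * hsi
    rcases sg_of_rg hr with rfl | rfl
    · rw [h1] at k1
      norm_num at k1
    · rw [h1] at k1
      norm_num at k1
  rw [v1, v2, v3, hd]
  have hA : (s * I * Real.pi * sin z * (1 - 2 * s * I * cos z) / cos z ^ 2 * (cos z / Real.pi) * a) ^ 2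
      / -(Real.pi * s * I * (1 - 2 * s * I * cos z) ^ 2 / cos z ^ 2) =
      -(s * I * (1 - cos z ^ 2) * a ^ 2 / Real.pi) := by
    rw [show (1 : ℂ) - cos z ^ 2 = sin z ^ 2 by linear_combination -hsc]
    generalize (1 - 2 * s * I * cos z : ℂ) = N at hN ⊢
    field_simp
  rw [hA]
  field_simp
  linear_combination (Real.pi * cos z * a ^ 2) * hsi

/-- The logarithms of the closed form. -/
theorem log_uu (hz : Rz z) : log (1 + I * AT2.tt (z / Real.pi)) - log (1 - I * AT2.tt (z / Real.pi)) =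
    Real.pi * I / 2 - E.uu z := by
  have hpi : (Real.pi : ℂ) ≠ 0 := by exact_mod_cast Real.pi_ne_zero
  have hpr := Real.pi_pos
  have him : (z / (Real.pi : ℂ)).im = z.im / Real.pi := by rw [div_ofReal_im]
  have h0 : 0 < (z / (Real.pi : ℂ)).im := by rw [him]; exact div_pos hz.im0 hpr
  have hn := AT2.norm_tt_lt h0
  have ht : AT2.tt (z / Real.pi) = exp (z * I) := by
    unfold AT2.tt
    congr 1
    field_simp
  rw [ht] at hn ⊢
  obtain ⟨s1, s2⟩ := AT2.one_add_slit h0
  rw [ht] at s1 s2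
  have n1 := slitPlane_ne_zero s1
  have n2 := slitPlane_ne_zero s2
  obtain ⟨-, -, hk⟩ := Rz.cosz hz
  have hc := cosh_uu hz.re0 hz.re1 hz.im0
  have hsn : sinh (E.uu z) = tan z := sinh_u hz.re0 hz.re1 hz.im0
  have hIn : ‖I * exp (z * I)‖ < 1 := by rwa [norm_mul, norm_I, one_mul]
  have hre : ∀ w : ℂ, ‖w‖ < 1 → 0 < (1 + w).re := by
    intro w hw
    have := abs_lt.1 (lt_of_le_of_lt (abs_re_le_norm w) hw)
    rw [add_re, one_re]
    linarith
  have a1 : |(log (1 + I * exp (z * I))).im| < Real.pi / 2 := by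
    rw [log_im]
    exact abs_arg_lt_pi_div_two_iff.2 (Or.inl (hre _ hIn))
  have a2 : |(log (1 - I * exp (z * I))).im| < Real.pi / 2 := by
    rw [log_im]
    refine abs_arg_lt_pi_div_two_iff.2 (Or.inl ?_)
    have := hre (-(I * exp (z * I))) (by rwa [norm_neg])
    rwa [← sub_eq_add_neg] at this
  have hth := abs_lt.1 hz.abs_im
  have hpI : (Real.pi * I / 2 : ℂ).im = Real.pi / 2 := by
    have : (Real.pi * I / 2 : ℂ) = ((Real.pi / 2 : ℝ) : ℂ) * I := by push_cast; ring
    rw [this, im_ofReal_mul, I_im, mul_one]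
  apply AT.G.eq_of_exp
  · rw [exp_sub, exp_sub, exp_log n1, exp_log n2]
    have e1 : exp (Real.pi * I / 2) = I := by
      rw [show (Real.pi * I / 2 : ℂ) = Real.pi / 2 * I by ring, exp_pi_div_two_mul_I]
    have e2 : exp (E.uu z) = (1 + sin z) / cos z := by
      rw [← cosh_add_sinh, hsn, tan_eq_sin_div_cos, eq_div_iff hk]
      have : sin z / cos z * cos z = sin z := div_mul_cancel₀ _ hk
      linear_combination hc + this
    have hns : 1 + sin z ≠ 0 := by
      intro h1
      have := exp_ne_zero (E.uu z)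
      rw [e2, h1, zero_div] at this
      exact this rfl
    rw [e1, e2]
    have e3 : exp (z * I) = cos z + sin z * I := exp_mul_I z
    have hsc := Complex.sin_sq_add_cos_sq z
    rw [e3] at n2 ⊢
    rw [div_div_eq_mul_div, div_eq_div_iff n2 hns]
    linear_combination (sin z * (1 + sin z) + cos z ^ 2 + I * cos z * sin z) * I_sq - hsc
  · rw [sub_im, sub_im, hpI, abs_lt]
    have b1 := abs_lt.1 a1
    have b2 := abs_lt.1 a2
    constructor <;> linarith

theorem qC_re (s : ℤ) (z : ℂ) : (qC s z).re = ((E.uu z).re - s * z.im) / 2 := by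
  have : qC s z = ((1 / 2 : ℝ) : ℂ) * E.uu z + ((s / 2 : ℝ) : ℂ) * (I * z) := by
    unfold qC; push_cast; ring
  rw [this, add_re, re_ofReal_mul, re_ofReal_mul, I_mul_re]
  ring

/-- **The critical point at a closed edge of a node of negative weight.** -/
theorem ecritC (hz : Rz z) (hr : Rg s (z / Real.pi)) :
    ECrit1 (E.uu z) (yC s (z / Real.pi)) (qC s z) s (-(2 * Real.pi * ((qC s z).re / z.im))) := by
  have hpr := Real.pi_pos
  have hpi : (Real.pi : ℂ) ≠ 0 := by exact_mod_cast Real.pi_ne_zero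
  have hg := hz.gdv_uu
  have hC := AT2.clE hr
  obtain ⟨k1, k2, hk⟩ := Rz.cosz hz
  refine ⟨⟨?_, hC.dom.1, hC.dom.2.1⟩, ?_, ?_, ?_, ?_⟩
  · rw [hg]; exact hC.dom
  · rw [hg, AT2.ey_op_cl]; exact hC.ey
  · rw [hg]
    have h1 := hC.mu
    have h2 := log_uu hz
    unfold ev
    rw [h1]
    unfold qC
    have e : (Real.pi : ℂ) * I * (z / Real.pi) = I * z := by field_simp
    rw [e]
    linear_combination h2
  · rw [hg, (second_cl hz hr).2.2]
    have hs := sg_of_rg hr
    have e1 : (-(Real.pi * s * I * (1 - 2 * s * I * cos z) ^ 2 / cos z ^ 2) : ℂ) =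
        ((-(Real.pi * s) : ℝ) : ℂ) * (I * (1 / cos z - 2 * s * I) ^ 2) := by
      push_cast
      field_simp
    rw [e1, re_ofReal_mul, I_mul_re, sq, mul_im]
    have i1 : (1 / cos z : ℂ).re = (cos z).re / normSq (cos z) := by rw [one_div, inv_re]
    have i2 : (1 / cos z : ℂ).im = -(cos z).im / normSq (cos z) := by rw [one_div, inv_im]
    have hN : 0 < normSq (cos z) := normSq_pos.2 hk
    have j1 : ((2 * s * I : ℂ)).re = 0 := by
      rw [show (2 * s * I : ℂ) = ((2 * s : ℝ) : ℂ) * I by push_cast; ring, re_ofReal_mul, I_re,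
        mul_zero]
    have j2 : ((2 * s * I : ℂ)).im = 2 * s := by
      rw [show (2 * s * I : ℂ) = ((2 * s : ℝ) : ℂ) * I by push_cast; ring, im_ofReal_mul, I_im,
        mul_one]
    rw [sub_re, sub_im, i1, i2, j1, j2]
    have hRp : 0 < (cos z).re / normSq (cos z) := div_pos k1 hN
    rcases hr with ⟨rfl, hO⟩ | ⟨rfl, hO⟩
    · have hR := (mem_Om.1 hO).2.1
      rw [div_ofReal_re, div_lt_iff₀ hpr] at hR
      have hM : -(cos z).im / normSq (cos z) < 2 := by
        rw [div_lt_iff₀ hN, normSq_apply]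
        obtain ⟨h1, h2⟩ := cos_re_im z
        have hcos : 1 / 2 < Real.cos z.re := by
          rw [← Real.cos_pi_div_three]
          exact Real.cos_lt_cos_of_nonneg_of_le_pi hz.re0.le (by linarith) (by linarith)
        have h3 : 1 / 4 < (cos z).re * (cos z).re + (cos z).im * (cos z).im := by
          rw [h1, h2]
          have h4 := Real.one_le_cosh z.im
          have h5 : (1 / 2 : ℝ) < Real.cos z.re * Real.cosh z.im := by nlinarith
          nlinarith [mul_self_nonneg (Real.sin z.re * Real.sinh z.im)]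
        nlinarith [sq_nonneg ((cos z).im + 1 / 4), sq_nonneg ((cos z).re), k1]
      push_cast
      have := mul_pos hRp (sub_pos.2 hM)
      nlinarith
    · have hM : 0 < -(cos z).im / normSq (cos z) := div_pos (by linarith) hN
      push_cast
      have := mul_pos hRp hM
      nlinarith
  · intro a ha
    rw [hg, form_cl hz hr]
    have hI := hz.im0
    have hb : ((s : ℂ) - ((-(2 * Real.pi * ((qC s z).re / z.im)) : ℝ) : ℂ) / Real.pi) =
        (((E.uu z).re / z.im : ℝ) : ℂ) := by
      rw [qC_re]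
      have h1 : ((z.im : ℝ) : ℂ) ≠ 0 := by exact_mod_cast hI.ne'
      push_cast
      field_simp
      ring
    rw [hb]
    have e1 : (-((a : ℂ) ^ 2 / Real.pi) * (cos z + (((E.uu z).re / z.im : ℝ) : ℂ) *
        (I * cos z ^ 2))) = ((-(a ^ 2 / Real.pi) : ℝ) : ℂ) * (cos z +
          (((E.uu z).re / z.im : ℝ) : ℂ) * (I * cos z ^ 2)) := by
      push_cast; ring
    rw [e1, re_ofReal_mul, add_re, re_ofReal_mul, I_mul_re, sq (cos z), mul_im]
    have hx : 0 < (E.uu z).re := by
      rw [E.uu, UU_re]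
      exact xx_pos hz.re0 hz.re1 hz.im0
    have hxI : 0 < (E.uu z).re / z.im := div_pos hx hI
    have h2 : 0 < -((cos z).re * (cos z).im + (cos z).im * (cos z).re) := by nlinarith
    have h3 := mul_pos hxI h2
    have h4 : 0 < a ^ 2 / Real.pi := by positivity
    have h5 := mul_pos h4 (add_pos k1 h3)
    nlinarith

/-- The critical point at a closed edge of a node of positive weight; the sign of the leaf is `-s`. -/
theorem ecritC_pos (hz : Rz z) (hr : Rg s (z / Real.pi)) :
    ECrit1 (-conj (E.uu z)) (yC (-s) (-conj z / Real.pi)) (-conj (qC s z)) (-s)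
      (2 * Real.pi * ((qC s z).re / z.im)) := by
  have h1 := (ecritC hz hr).mirror hz.abs_im
  rw [neg_neg, (yC_mirror hr).1] at h1
  have e : -conj (z / (Real.pi : ℂ)) = -conj z / Real.pi := by
    rw [map_div₀, conj_ofReal, neg_div]
  rwa [e] at h1

end

end Pool.Agent.MX
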