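import Pool.Agent.AT.Bridge
import Pool.Agent.MX.CritT
import Pool.Agent.MX.E.Crit

/-!
# The critical point of a tree with arbitrary signs and its properties
-/

set_option autoImplicit false

namespace Pool.Agent.MX

open Pool.Agent.S3 hiding oth oth_cs oth_su Cfg
open Pool.Agent.AT (Tr oth Adj mem_NN NN NN_nonempty NN_symm card_NN sum_NN)
open Pool.Agent.MX.G (qm)
open Complex Pool.Agent.S3.E Pool.Agent.H63.VC7
open Pool.Agent.H25.RK (gdv)
open scoped BigOperators

variable {m : ℕ} [Tr m]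

/-- The inequality `NB` of an edge with equal signs. -/
theorem nb_of {a p : ℝ} {z : ℂ} (ha : 5 ≤ a) (h0 : 0 < z.re) (h1 : z.re < Real.pi / 2)
    (hI : 0 < z.im) (hR : z.re ≤ 16 / 25) (hθ : th z.re z.im ≤ 21 / 50)
    (hp1 : 4 / 5 * (tan z).re ≤ Real.sinh p) (hp2 : 2 / 5 * z.im ≤ p) :
    NB (th z.re z.im) (xx z.re z.im) (p / z.im) a := by
  have ht := th_pos h0 h1 hI
  have hpi := Real.pi_pos
  have hc : cos z ≠ 0 := E.cos_ne_of h0.le h1
  have hgd : gdv (S3.E.uu z) = z / Real.pi := (⟨h0, h1, hI⟩ : G.Rz z).gdv_uu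
  have hre : (gdv (UU (xx z.re z.im) (th z.re z.im))).re = z.re / Real.pi := by
    have e : gdv (UU (xx z.re z.im) (th z.re z.im)) = z / Real.pi := hgd
    rw [e, div_ofReal_re]
  have him : (gdv (UU (xx z.re z.im) (th z.re z.im))).im = z.im / Real.pi := by
    have e : gdv (UU (xx z.re z.im) (th z.re z.im)) = z / Real.pi := hgd
    rw [e, div_ofReal_im]
  have htan : (tan z).re = Real.sin (2 * z.re) / (Real.cosh (2 * z.im) + Real.cos (2 * z.re)) := by
    have e1 := E.tan_re' hc
    have e2 : normSq (cos z) = (Real.cosh (2 * z.im) + Real.cos (2 * z.re)) / 2 := by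
      rw [E.normSq_cos, Real.cosh_two_mul, Real.cos_two_mul, Real.cosh_sq]
      ring
    have e3 : 0 < normSq (cos z) := normSq_pos.2 hc
    have e4 : 0 < Real.cosh (2 * z.im) + Real.cos (2 * z.re) := by linarith
    rw [eq_div_iff e4.ne', Real.sin_two_mul]
    rw [e2] at e1
    linarith
  have hcR : 0 < Real.cos z.re := Real.cos_pos_of_mem_Ioo ⟨by linarith, h1⟩
  have hIe : z.im = Real.arsinh (Real.tan (th z.re z.im) * Real.cos z.re) := by
    rw [E.tan_th_eq h0 h1 hI, Real.arsinh_sinh]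
  have key := nb (a := a) (θ := th z.re z.im) (R := z.re) (I := z.im)
    (y1 := Real.arsinh (Real.tan (th z.re z.im) * Real.cos (13 * Real.pi / 40))) (p := p)
    ha ht hθ h0 hR hIe rfl (by rw [← htan]; exact hp1) hp2
  unfold NB
  rw [hre, him]
  have hbl : bl (th z.re z.im) (13 / 40) =
      Real.arsinh (Real.tan (th z.re z.im) * Real.cos (13 * Real.pi / 40)) / Real.pi := by
    unfold bl
    rw [show Real.pi * (13 / 40) = 13 * Real.pi / 40 by ring]
  rw [hbl]
  set y1 := Real.arsinh (Real.tan (th z.re z.im) * Real.cos (13 * Real.pi / 40))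
  have ha0 : 0 < a := by linarith
  have e5 : 5 / 8 * (y1 / Real.pi) = (5 / 8 * (y1 * z.im)) / (Real.pi * z.im) := by
    field_simp
  have e6 : p / z.im * (2 * Real.pi * (13 / 40 - 1 / a) * (y1 / Real.pi) +
      2 * Real.pi * ((13 / 40 - z.re / Real.pi) * (z.im / Real.pi - y1 / Real.pi))) =
      (p * (2 * (13 * Real.pi / 40 - Real.pi / a) * y1 +
        2 * (13 * Real.pi / 40 - z.re) * (z.im - y1))) / (Real.pi * z.im) := by
    field_simp
  rw [e5, e6]
  exact div_lt_div_of_pos_right key (mul_pos hpi hI)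

/-- **Existence of the critical point.** -/
theorem exists_mz (hm : 1 ≤ m) {a : Fin (m + 1) → ℕ} {σ : Fin (m + 1) → ℤ}
    (hσ : ∀ i, σ i = 1 ∨ σ i = -1)
    (h3 : ∀ i, 3 ≤ a i)
    (hB : ∀ i, (∃ k, Adj i k ∧ σ i = σ k) → 5 ≤ a i ∧
      2 * (inc (Tr.par (m := m)) Fin.succ i).card ≤ 3 * a i)
    (hM : ∀ i, (∃ k, Adj i k ∧ σ i ≠ σ k) → (inc (Tr.par (m := m)) Fin.succ i).card ≤ a i) :
    ∃ z : Fin (m + 1) → ℂ, MZ a σ z ∧ MG σ z := by
  set s : Fin (m + 1) → Bool := fun i => decide (σ i = 1) with hs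
  have hse : ∀ i k, s i = s k ↔ σ i = σ k := by
    intro i k
    rw [hs]
    simp only [decide_eq_decide]
    rcases hσ i with h1 | h1 <;> rcases hσ k with h2 | h2 <;> rw [h1, h2] <;> simp
  have hBn : ∀ i, E.Bn (NN (m := m)) s i ↔ ∃ k, Adj i k ∧ σ i = σ k := by
    intro i
    unfold E.Bn
    constructor
    · rintro ⟨k, hk, h⟩
      exact ⟨k, mem_NN.1 hk, (hse i k).1 h⟩
    · rintro ⟨k, hk, h⟩
      exact ⟨k, mem_NN.2 hk, (hse i k).2 h⟩
  have hN : E.Nbr (fun i => (a i : ℝ)) (fun _ => 0) (NN (m := m)) s :=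
    { a3 := fun i => by exact_mod_cast h3 i
      w0 := fun i => le_rfl
      ne := fun i => Or.inl (NN_nonempty hm i)
      big := fun i h => absurd h (lt_irrefl _)
      card := by
        intro i hi
        refine ⟨?_, fun h => absurd h (lt_irrefl _)⟩
        have h1 : ∃ k, Adj i k ∧ σ i ≠ σ k := by
          rcases hi with hi | ⟨k, hk, h⟩
          · obtain ⟨k, hk⟩ := NN_nonempty hm i
            refine ⟨k, mem_NN.1 hk, fun h => hi ?_⟩
            exact ⟨k, hk, (hse i k).2 h⟩
          · exact ⟨k, mem_NN.1 hk, fun h' => h ((hse i k).2 h')⟩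
        rw [card_NN, add_zero]
        exact_mod_cast hM i h1
      pure := by
        intro i hi
        obtain ⟨h1, h2⟩ := hB i ((hBn i).1 hi)
        rw [card_NN, add_zero]
        exact ⟨by exact_mod_cast h1, by exact_mod_cast h2⟩
      symm := fun i j h => NN_symm h }
  obtain ⟨z, hz⟩ := E.exists_zero hN
  have hq : ∀ i k, Adj i k → qm (σ i) (σ k) (z i) (z k) = E.qs s 1 z i k := by
    intro i k hik
    by_cases h : σ i = σ k
    · rw [qm_same h]
      exact hz.q_same (mem_NN.2 hik) ((hse i k).2 h)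
    · rw [qm_opp h]
      exact hz.q_opp (mem_NN.2 hik) (fun h' => h ((hse i k).1 h'))
  have hopp : ∀ i k, σ i ≠ σ k → s i ≠ s k := fun i k h h' => h ((hse i k).1 h')
  refine ⟨z, ?_, ?_⟩
  · refine
      { sg := hσ
        pos := hz.pos
        vertex := fun i => ?_
        qm_re := fun i k hik => ?_
        opp := fun i k hik h => (hz.oe (mem_NN.2 hik) (hopp i k h)).oppHyp
        crit := fun i k hik h => (hz.oe (mem_NN.2 hik) (hopp i k h)).ecrit
        same := fun i k hik h => ?_
        share := fun i k hik h => ?_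
        nb := fun i k hik h => ?_
        a3 := h3
        hR := fun i => ?_
        hT := hz.th_le
        hT4 := fun i hi => hz.th_le4 (by exact_mod_cast hi)
        hG := fun i hi => hz.th_ge ?_ }
    · have h1 := hz.eqn i
      simp only [ofReal_zero, zero_mul, add_zero] at h1
      rw [sum_NN] at h1
      have h2 : ∑ j ∈ inc (Tr.par (m := m)) Fin.succ i, E.qs s 1 z i (oth j i) =
          ∑ j ∈ inc (Tr.par (m := m)) Fin.succ i, qm (σ i) (σ (oth j i)) (z i) (z (oth j i)) :=
        Finset.sum_congr rfl fun j hj => (hq i (oth j i) (Pool.Agent.AT.adj_oth hj)).symm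
      rw [← h2, ← h1]
      push_cast
      rfl
    · rw [hq i k hik]
      exact E.asr_re_pos (hz.w_pos (mem_NN.2 hik))
    · have h1 := hz.bn_of (mem_NN.2 hik) ((hse i k).2 h)
      have h2 := hz.thB h1.1
      have h3 := hz.thB h1.2
      exact ⟨(hz.pv i).thpos, (hz.pv k).thpos, by linarith, by linarith⟩
    · have h1 := hz.share (mem_NN.2 hik) ((hse i k).2 h)
      unfold bm
      rw [hq i k hik, lt_div_iff₀ (hz.pos i).2.2]
      exact h1
    · have hs' := (hse i k).2 h
      have h1 := (hz.bn_of (mem_NN.2 hik) hs').1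
      have h5 := (hB i ((hBn i).1 h1)).1
      have h2 := hz.share (mem_NN.2 hik) hs'
      have h4 := hz.sinh_ge (mem_NN.2 hik) hs'
      have hR := (hz.nm h1).R1
      unfold bm
      rw [hq i k hik]
      exact nb_of (by exact_mod_cast h5) (hz.pos i).1 (hz.pos i).2.1 (hz.pos i).2.2
        (by linarith) (hz.thB h1) h4 h2.le
    · rw [div_lt_iff₀ Real.pi_pos]
      have := hz.R_lt i
      have := Real.pi_pos
      linarith
    · show ((a i : ℕ) : ℝ) = 3
      rw [hi]
      norm_num
  · refine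
      { good := fun i k hik h => (hz.oe (mem_NN.2 hik) (hopp i k h)).good_edge.1
        qlt := fun i k hik => ?_ }
    by_cases h : σ i = σ k
    · rw [hq i k hik]
      exact hz.q_add_lt (mem_NN.2 hik) ((hse i k).2 h)
    · have h1 := hz.oe (mem_NN.2 hik) (hopp i k h)
      rw [qm_opp h, abs_of_pos h1.qe_pos.2.1]
      exact h1.qe_add_lt

end Pool.Agent.MX
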