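import Pool.Agent.MX.All
import Pool.Agent.MX.FinMZ

/-!
# The complexified volume conjecture for trees with arbitrary signs
-/

set_option autoImplicit false

namespace Pool.Agent.MX

open Pool.Agent.AT (Tr Adj)
open Pool.Agent.AT.Hyp (IsVolume IsComplexVolume)
open Pool.Agent.H63.VC7 (inc)
open Pool.Agent.H63.VC10 (coloredJones)
open Pool.Agent.H63.VC11 (coloredSU)
open Complex Filter Topology
open scoped BigOperators

private theorem mul_sign_pos {x y : ℤ} (hx : x ≠ 0) (h : x.sign = y.sign) : 0 < x * y := by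
  rcases lt_or_gt_of_ne hx with hx | hx
  · rw [Int.sign_eq_neg_one_of_neg hx] at h
    have hy : y < 0 := Int.sign_eq_neg_one_iff_neg.1 h.symm
    exact mul_pos_of_neg_of_neg hx hy
  · rw [Int.sign_eq_one_of_pos hx] at h
    have hy : 0 < y := Int.sign_eq_one_iff_pos.1 h.symm
    exact mul_pos hx hy

private theorem mul_sign_neg {x y : ℤ} (hx : x ≠ 0) (hy : y ≠ 0) (h : x.sign ≠ y.sign) :
    x * y < 0 := by
  rcases lt_or_gt_of_ne hx with h1 | h1 <;> rcases lt_or_gt_of_ne hy with h2 | h2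
  · exact absurd (by rw [Int.sign_eq_neg_one_of_neg h1, Int.sign_eq_neg_one_of_neg h2]) h
  · exact mul_neg_of_neg_of_pos h1 h2
  · exact mul_neg_of_pos_of_neg h1 h2
  · exact absurd (by rw [Int.sign_eq_one_of_pos h1, Int.sign_eq_one_of_pos h2]) h

/-- **The complexified volume conjecture for trees with arbitrary signs, Kashaev's invariant and
the colored `SU(n)` invariants.** -/
theorem final_all {m : ℕ} (hm : 1 ≤ m) (par : Fin m → Fin (m + 1))
    (hpar : ∀ j, par j ≤ j.castSucc) (a : Fin (m + 1) → ℤ) (h3 : ∀ i, 3 ≤ |a i|)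
    (hs : ∀ j : Fin m, 0 < a (par j) * a j.succ → 5 ≤ |a (par j)| ∧ 5 ≤ |a j.succ|)
    (hd : ∀ j : Fin m, a (par j) * a j.succ < 0 →
      ((Finset.univ.filter fun k : Fin m => par k = par j ∨ k.succ = par j).card : ℤ) ≤
        |a (par j)| ∧
      ((Finset.univ.filter fun k : Fin m => par k = j.succ ∨ k.succ = j.succ).card : ℤ) ≤
        |a j.succ|)
    (hd' : ∀ i, 2 * ((Finset.univ.filter fun k : Fin m => par k = i ∨ k.succ = i).card : ℤ) ≤
      3 * |a i|) :
    ∃ (V : ℝ) (Z : ℂ), IsVolume par Fin.succ a V ∧ IsComplexVolume par Fin.succ a Z ∧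
      (∀ e : ℤ, ∃ C : ℝ, (∃ k : ℤ, Z = I * (V + C * I) + k * (Real.pi : ℂ) ^ 2) ∧
        ∃ J : ℕ → ℂ,
          (∀ N : ℕ, Tendsto (fun q => coloredJones (Pool.Agent.H63.VC10.diagram par a) e N q)
            (𝓝[≠] exp (Real.pi * I / ((N + 1 : ℕ) : ℂ))) (𝓝 (J N))) ∧
          (∃ L : ℕ → ℂ, (∀ᶠ N : ℕ in atTop, exp (L N) = J N) ∧
            Tendsto (fun N : ℕ => 2 * (Real.pi : ℂ) * L N / (N + 1)) atTop (𝓝 (V + C * I))) ∧
          Tendsto (fun N : ℕ => 2 * (Real.pi : ℂ) * log (J N) / (N + 1)) atTop (𝓝 (V : ℂ)) ∧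
          ∃ κ : ℂ, κ ≠ 0 ∧ Tendsto (fun N : ℕ => J N /
            ((((N : ℝ) + 1) ^ (3 / 2 : ℝ) : ℝ) *
              exp ((N + 1) * (V + C * I) / (2 * Real.pi)))) atTop (𝓝 κ)) ∧
      ∀ r : Fin (m + 1) → ℤ, (∀ i, a i = 2 * r i) →
        ∃ C : ℝ, (∃ k : ℤ, Z = I * (V + C * I) + k * (Real.pi : ℂ) ^ 2) ∧
        ∀ n g : ℕ, 2 ≤ n → 1 ≤ g → g < n → ∃ J : ℕ → ℂ,
          (∀ N : ℕ, n ≤ N → Tendsto (fun q => coloredSU
            (Pool.Agent.H63.VC11.diagram par r) n N q)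
            (𝓝[≠] exp (Real.pi * I / (N + g))) (𝓝 (J N))) ∧
          (∃ L : ℕ → ℂ, (∀ᶠ N : ℕ in atTop, exp (L N) = J N) ∧
            Tendsto (fun N : ℕ => 2 * (Real.pi : ℂ) * L N / (N + 1)) atTop (𝓝 (V + C * I))) ∧
          Tendsto (fun N : ℕ => 2 * (Real.pi : ℂ) * log (J N) / (N + 1)) atTop (𝓝 (V : ℂ)) ∧
          ∃ κ : ℂ, κ ≠ 0 ∧ Tendsto (fun N : ℕ => J N /
            ((((N : ℝ) + g) ^ (2 * (n : ℝ) - 5 / 2) : ℝ) *
              exp ((N + g) * (V + C * I) / (2 * Real.pi)))) atTop (𝓝 κ) := by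
  let _ : Tr m := ⟨par, hpar⟩
  have hne : ∀ i, a i ≠ 0 := by
    intro i h0
    have := h3 i
    rw [h0] at this
    simp at this
  have hσ : ∀ i, (a i).sign = 1 ∨ (a i).sign = -1 := by
    intro i
    rcases lt_or_gt_of_ne (hne i) with h | h
    · exact Or.inr (Int.sign_eq_neg_one_of_neg h)
    · exact Or.inl (Int.sign_eq_one_of_pos h)
  have hab : ∀ i, (a i).sign * ((a i).natAbs : ℤ) = a i := fun i => Int.sign_mul_natAbs (a i)
  have hcard : ∀ i, (inc (Tr.par (m := m)) Fin.succ i).card =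
      (Finset.univ.filter fun k : Fin m => par k = i ∨ k.succ = i).card := fun _ => rfl
  -- an adjacent vertex with the same sign
  have h5 : ∀ i, (∃ k, Adj i k ∧ (a i).sign = (a k).sign) → 5 ≤ |a i| := by
    rintro i ⟨k, ⟨j, hj⟩, hk⟩
    rcases hj with ⟨h1, h2⟩ | ⟨h1, h2⟩
    · subst h1 h2
      exact (hs j (mul_sign_pos (hne _) hk)).1
    · subst h1 h2
      exact (hs j (mul_sign_pos (hne _) hk.symm)).2
  -- an adjacent vertex with the opposite sign
  have hM : ∀ i, (∃ k, Adj i k ∧ (a i).sign ≠ (a k).sign) →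
      ((Finset.univ.filter fun k : Fin m => par k = i ∨ k.succ = i).card : ℤ) ≤ |a i| := by
    rintro i ⟨k, ⟨j, hj⟩, hk⟩
    rcases hj with ⟨h1, h2⟩ | ⟨h1, h2⟩
    · subst h1 h2
      exact (hd j (mul_sign_neg (hne _) (hne _) hk)).1
    · subst h1 h2
      exact (hd j (mul_sign_neg (hne _) (hne _) hk.symm)).2
  have hB : ∀ i, (∃ k, Adj i k ∧ (a i).sign = (a k).sign) → 5 ≤ (a i).natAbs := by
    intro i hi
    have h1 := h5 i hi
    rw [Int.abs_eq_natAbs] at h1
    exact_mod_cast h1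
  obtain ⟨z, hz, hg⟩ := exists_mz hm (a := fun i => (a i).natAbs) (σ := fun i => (a i).sign) hσ
    (fun i => by
      have h1 := h3 i
      rw [Int.abs_eq_natAbs] at h1
      exact_mod_cast h1)
    (fun i hi => by
      refine ⟨hB i hi, ?_⟩
      have h1 := hd' i
      rw [Int.abs_eq_natAbs, ← hcard] at h1
      exact_mod_cast h1)
    (fun i hi => by
      have h1 := hM i hi
      rw [Int.abs_eq_natAbs, ← hcard] at h1
      exact_mod_cast h1)
  have key := all_tr hm (fun i => (a i).natAbs) (fun i => (a i).sign) hz hg fun i hi => by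
    have := hB i hi
    omega
  simp only [hab] at key
  exact key

end Pool.Agent.MX
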