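import Pool.Agent.H25.RK.DGI
import Pool.Agent.H25.RK.DGf
import Pool.Agent.H63.GO.MTaylor
import Pool.Agent.H63.VC.Asym
import Pool.Agent.H63.VC.EndB
import Pool.Agent.H63.VC.Riem
import Pool.Agent.H63.VC.SlowL
import Pool.Agent.H63.VC.SlowU
import Pool.Agent.H63.VC3.CritB
import Pool.Agent.H63.VC3.Upper
import Pool.Agent.H63.VC4.GaussN
import Pool.Agent.H63.VC4.KBN
import Pool.Agent.H63.VC4.LaplaceN
import Pool.Agent.H63.VC4.UpperN
import Pool.Agent.H63.VC5.Defs
import Pool.Agent.H63.VC6.LocU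
import Pool.Agent.H63.VC6.SlotU
import Pool.Agent.H63.VC7.Link
import Pool.Agent.S3.Asm.Def
import Pool.Agent.S3.Chain
import Pool.Agent.S3.Cl.PbNum
import Pool.Agent.S3.LowA
import Pool.Agent.S3.Quad

/-!
# The ray `re v = 16/25 im v`: `16/25 re q < im q`

If `sinh q = c tan (s (16/25 + i))`, `|c|² ≤ 1.3606`, `re c > 0`, `-im c ≤ .45 re c`,
`0 < s ≤ 1/2`, then `16/25 re q < im q`.
-/

set_option autoImplicit false

namespace Pool.Agent.MX

open Complex Pool.Agent.S3

theorem kg_sinh {x : ℝ} (h0 : 0 ≤ x) (h1 : x ≤ 1) :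
    Real.sinh x ≤ x + x ^ 3 / 6 + x ^ 5 / 100 := by
  have h := LowA_pos (b := 1) (f := fun x => x + x ^ 3 / 6 + x ^ 5 / 100 - Real.sinh x)
    (f' := fun x => 1 + x ^ 2 / 2 + x ^ 4 / 20 - Real.cosh x)
    (fun x _ _ => by
      have h1 := (((hasDerivAt_id' x).add ((hasDerivAt_pow 3 x).div_const 6)).add
        ((hasDerivAt_pow 5 x).div_const 100)).sub (Real.hasDerivAt_sinh x)
      refine h1.congr_deriv ?_
      norm_num
      try ring)
    (by simp) (fun x hx hx1 => by
      have h2 := Cl.pb_ch6 hx hx1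
      have h3 : x ^ 6 ≤ x ^ 4 := pow_le_pow_of_le_one hx hx1 (by norm_num)
      have h4 : 0 ≤ x ^ 4 := by positivity
      linarith only [h4, h3, h2]) h0 h1
  linarith only [h]

/-- `tan (κ a) ≤ κ tanh a (1 + 47/100 sinh² a)`. -/
theorem kg_tan {a : ℝ} (h0 : 0 ≤ a) (h1 : a ≤ 2 / 3) :
    Real.sin (16 / 25 * a) * Real.cosh a ≤
      16 / 25 * (1 + 47 / 100 * Real.sinh a ^ 2) * (Real.sinh a * Real.cos (16 / 25 * a)) := by
  have hy : 0 ≤ 16 / 25 * a := by linarith only [h0]
  have a1 := Cl.n_s5 hy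
  have a2 := Cl.pb_ch6 h0 (by linarith only [h1])
  have a3 := Real.one_sub_sq_div_two_le_cos (x := 16 / 25 * a)
  have a4 : a + a ^ 3 / 6 ≤ Real.sinh a := by
    have := Cl.n_sh5 h0
    have h5 : 0 ≤ a ^ 5 := by positivity
    linarith only [h5, this]
  have hv : a ^ 2 ≤ 4 / 9 := by linarith only [h1, mul_nonneg (sub_nonneg.2 h0) (sub_nonneg.2 h1)]
  have hs0 : 0 ≤ Real.sin (16 / 25 * a) :=
    Real.sin_nonneg_of_nonneg_of_le_pi hy (by linarith only [Real.pi_gt_three, h1])
  have hc0 : 0 ≤ Real.cosh a := (Real.cosh_pos a).le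
  have hv0 : 0 ≤ a ^ 2 := sq_nonneg a
  -- the left side
  have l1 : Real.sin (16 / 25 * a) * Real.cosh a ≤
      (16 / 25 * a - (16 / 25 * a) ^ 3 / 6 + (16 / 25 * a) ^ 5 / 120) *
        (1 + a ^ 2 / 2 + a ^ 4 / 24 + 7 / 4320 * a ^ 6) :=
    mul_le_mul a1 a2 hc0 (hs0.trans a1)
  -- the right side
  have p1 : 0 ≤ 1 - (16 / 25 * a) ^ 2 / 2 := by linarith only [hv]
  have p2 : 0 ≤ a + a ^ 3 / 6 := by positivity
  have r1 : (a + a ^ 3 / 6) * (1 - (16 / 25 * a) ^ 2 / 2) ≤
      Real.sinh a * Real.cos (16 / 25 * a) :=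
    mul_le_mul a4 a3 p1 (p2.trans a4)
  have r2 : (a + a ^ 3 / 6) ^ 2 ≤ Real.sinh a ^ 2 := pow_le_pow_left₀ p2 a4 2
  have r3 : 16 / 25 * (1 + 47 / 100 * (a + a ^ 3 / 6) ^ 2) *
      ((a + a ^ 3 / 6) * (1 - (16 / 25 * a) ^ 2 / 2)) ≤
      16 / 25 * (1 + 47 / 100 * Real.sinh a ^ 2) * (Real.sinh a * Real.cos (16 / 25 * a)) := by
    apply mul_le_mul _ r1 (mul_nonneg p2 p1) (by positivity)
    linarith only [r2]
  refine l1.trans (le_trans ?_ r3)
  obtain ⟨v, hvd⟩ : ∃ v, v = a ^ 2 := ⟨_, rfl⟩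
  have e1 : (16 / 25 * a - (16 / 25 * a) ^ 3 / 6 + (16 / 25 * a) ^ 5 / 120) *
        (1 + a ^ 2 / 2 + a ^ 4 / 24 + 7 / 4320 * a ^ 6) =
      a * (16 / 25 * (1 - (16 / 25) ^ 2 * v / 6 + (16 / 25) ^ 4 * v ^ 2 / 120) *
        (1 + v / 2 + v ^ 2 / 24 + 7 / 4320 * v ^ 3)) := by rw [hvd]; ring
  have e2 : 16 / 25 * (1 + 47 / 100 * (a + a ^ 3 / 6) ^ 2) *
      ((a + a ^ 3 / 6) * (1 - (16 / 25 * a) ^ 2 / 2)) =
      a * (16 / 25 * (1 + 47 / 100 * (v * (1 + v / 6) ^ 2)) * ((1 + v / 6) *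
        (1 - (16 / 25) ^ 2 * v / 2))) := by rw [hvd]; ring
  rw [e1, e2]
  apply mul_le_mul_of_nonneg_left _ h0
  rw [← hvd] at hv hv0
  have v2 : 0 ≤ v ^ 2 := by positivity
  have v3 : v ^ 3 ≤ 4 / 9 * v ^ 2 := by linarith only [mul_nonneg (sq_nonneg (v)) (sub_nonneg.2 hv)]
  have v30 : 0 ≤ v ^ 3 := by positivity
  have v4 : v ^ 4 ≤ 4 / 9 * v ^ 3 := by linarith only [mul_nonneg (sub_nonneg.2 hv0) (sub_nonneg.2 v3)]
  have v40 : 0 ≤ v ^ 4 := by positivity
  have v5 : v ^ 5 ≤ 4 / 9 * v ^ 4 := by linarith only [mul_nonneg (sq_nonneg (v)) (sub_nonneg.2 v3)]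
  have v50 : 0 ≤ v ^ 5 := by positivity
  linarith only [v5, v4, v3, v2, hv0]

/-- The final inequality. -/
theorem kg_AB {s : ℝ} (h0 : 0 < s) (h1 : s ≤ 1 / 2) :
    Real.sin (32 / 25 * s) * (9 / 20 + 16 / 25 * (1 + 23 / 25 * s ^ 2)) <
      Real.sinh (2 * s) * (1 - 36 / 125 * (1 + 23 / 25 * s ^ 2)) := by
  have a1 := Cl.n_s5 (x := 32 / 25 * s) (by linarith only [h0])
  have a2 : 2 * s + (2 * s) ^ 3 / 6 ≤ Real.sinh (2 * s) := by
    have := Cl.n_sh5 (x := 2 * s) (by linarith only [h0])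
    have h5 : 0 ≤ (2 * s) ^ 5 := by positivity
    linarith only [h5, this]
  have hv : s ^ 2 ≤ 1 / 4 := by (refine le_of_not_gt fun hng => ?_; linarith only [mul_nonneg (sub_nonneg.2 h0.le) (sub_nonneg.2 h1),
                                  mul_pos (sub_pos.2 hng) (sub_pos.2 h0),
                                  mul_nonneg (sq_nonneg (1 * s)) (sub_nonneg.2 h1)])
  obtain ⟨v, hvd⟩ : ∃ v, v = s ^ 2 := ⟨_, rfl⟩
  have p1 : 0 ≤ 9 / 20 + 16 / 25 * (1 + 23 / 25 * s ^ 2) := by positivity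
  have p2 : 0 ≤ 1 - 36 / 125 * (1 + 23 / 25 * s ^ 2) := by linarith only [hv, h1, h0]
  have l1 := mul_le_mul_of_nonneg_right a1 p1
  have l2 := mul_le_mul_of_nonneg_right a2 p2
  refine l1.trans_lt (lt_of_lt_of_le ?_ l2)
  have e1 : (32 / 25 * s - (32 / 25 * s) ^ 3 / 6 + (32 / 25 * s) ^ 5 / 120) *
      (9 / 20 + 16 / 25 * (1 + 23 / 25 * s ^ 2)) =
      s * ((32 / 25 * (1 - (32 / 25) ^ 2 * v / 6 + (32 / 25) ^ 4 * v ^ 2 / 120)) *
      (9 / 20 + 16 / 25 * (1 + 23 / 25 * v))) := by rw [hvd]; ring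
  have e2 : (2 * s + (2 * s) ^ 3 / 6) * (1 - 36 / 125 * (1 + 23 / 25 * s ^ 2)) =
      s * ((2 * (1 + 2 / 3 * v)) * (1 - 36 / 125 * (1 + 23 / 25 * v))) := by rw [hvd]; ring
  rw [e1, e2]
  apply mul_lt_mul_of_pos_left _ h0
  have v0 : 0 ≤ v := by rw [hvd]; positivity
  rw [← hvd] at hv
  have v2 : v ^ 2 ≤ 1 / 4 * v := by (refine le_of_not_gt fun hng => ?_; linarith only [hng, hvd,
                                      mul_nonneg (sub_nonneg.2 hng.le) (sub_nonneg.2 hvd.le),
                                      mul_nonneg (sub_nonneg.2 hng.le) (sub_nonneg.2 hvd.ge),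
                                      mul_nonneg (sq_nonneg (1 * v)) (sub_nonneg.2 hvd.le),
                                      mul_nonneg (sq_nonneg (1 * v)) (sub_nonneg.2 hvd.ge),
                                      mul_nonneg (sq_nonneg (s)) (sub_nonneg.2 hv)])
  have v20 : 0 ≤ v ^ 2 := by positivity
  have v3 : v ^ 3 ≤ 1 / 4 * v ^ 2 := by linarith only [mul_nonneg (sq_nonneg (v)) (sub_nonneg.2 hv)]
  have v30 : 0 ≤ v ^ 3 := by positivity
  linarith only [v3, v2, p1, hvd, h1, h0]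

theorem kg_T {s : ℝ} (h0 : 0 < s) (h1 : s ≤ 1 / 2) :
    Real.sinh s ^ 2 + Real.sin (16 / 25 * s) ^ 2 ≤
      141 / 100 * s ^ 2 * (1 + Real.sinh s ^ 2 - Real.sin (16 / 25 * s) ^ 2) := by
  have a1 := kg_sinh h0.le (by linarith only [h1])
  have a2 : s ≤ Real.sinh s := Real.self_le_sinh_iff.2 h0.le
  have a3 : Real.sin (16 / 25 * s) ≤ 16 / 25 * s := Real.sin_le (by linarith only [h0])
  have a4 : 0 ≤ Real.sin (16 / 25 * s) :=
    Real.sin_nonneg_of_nonneg_of_le_pi (by linarith only [h0]) (by linarith only [Real.pi_gt_three,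
                                                                     h1, h0])
  have b1 : Real.sinh s ^ 2 ≤ (s + s ^ 3 / 6 + s ^ 5 / 100) ^ 2 :=
    pow_le_pow_left₀ (h0.le.trans a2) a1 2
  have b2 : s ^ 2 ≤ Real.sinh s ^ 2 := pow_le_pow_left₀ h0.le a2 2
  have b3 : Real.sin (16 / 25 * s) ^ 2 ≤ (16 / 25 * s) ^ 2 := pow_le_pow_left₀ a4 a3 2
  have hv : s ^ 2 ≤ 1 / 4 := by (refine le_of_not_gt fun hng => ?_; linarith only [mul_nonneg (sub_nonneg.2 h0.le) (sub_nonneg.2 h1),
                                  mul_pos (sub_pos.2 hng) (sub_pos.2 h0),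
                                  mul_nonneg (sq_nonneg (s)) (sub_nonneg.2 h1)])
  obtain ⟨v, hvd⟩ : ∃ v, v = s ^ 2 := ⟨_, rfl⟩
  have v0 : 0 ≤ v := by rw [hvd]; positivity
  have c1 : Real.sinh s ^ 2 ≤ v * (1 + 7 / 20 * v) := by
    refine b1.trans ?_
    have e : (s + s ^ 3 / 6 + s ^ 5 / 100) ^ 2 = v * (1 + v / 6 + v ^ 2 / 100) ^ 2 := by
      rw [hvd]; ring
    rw [e]
    apply mul_le_mul_of_nonneg_left _ v0
    rw [← hvd] at hv
    have v2 : v ^ 2 ≤ 1 / 4 * v := by (refine le_of_not_gt fun hng => ?_; linarith only [hng, hvd,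
                                        mul_nonneg (sub_nonneg.2 hng.le) (sub_nonneg.2 hvd.le),
                                        mul_nonneg (sub_nonneg.2 hng.le) (sub_nonneg.2 hvd.ge),
                                        mul_nonneg (sq_nonneg (1 * v)) (sub_nonneg.2 hvd.le),
                                        mul_nonneg (sq_nonneg (1 * v)) (sub_nonneg.2 hvd.ge),
                                        mul_nonneg (sq_nonneg (s)) (sub_nonneg.2 hv)])
    have v20 : 0 ≤ v ^ 2 := by positivity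
    have v3 : v ^ 3 ≤ 1 / 4 * v ^ 2 := by linarith only [mul_nonneg (sq_nonneg (v)) (sub_nonneg.2 hv)]
    have v4 : v ^ 4 ≤ 1 / 4 * v ^ 3 := by linarith only [mul_nonneg (sq_nonneg (v)) (sub_nonneg.2 v2)]
    linarith only [v4, v3, v2, v0]
  have c2 : (16 / 25 * s) ^ 2 = 256 / 625 * v := by rw [hvd]; ring
  rw [c2] at b3
  rw [← hvd] at b2 hv ⊢
  have c3 : 141 / 100 * v * (1 + v - 256 / 625 * v) ≤
      141 / 100 * v * (1 + Real.sinh s ^ 2 - Real.sin (16 / 25 * s) ^ 2) := by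
    apply mul_le_mul_of_nonneg_left _ (by positivity)
    linarith only [b3, b2]
  linarith only [c3, c1, v0, b3, b2]

/-- The tangent. -/
theorem kg_tanUU {x s : ℝ} (hx : |x| < Real.pi / 2) :
    0 < 1 + Real.sinh s ^ 2 - Real.sin x ^ 2 ∧
    (tan (UU x s)).re = Real.sin x * Real.cos x / (1 + Real.sinh s ^ 2 - Real.sin x ^ 2) ∧
    (tan (UU x s)).im = Real.sinh s * Real.cosh s / (1 + Real.sinh s ^ 2 - Real.sin x ^ 2) := by
  have hcx : 0 < Real.cos x := cos_pos' hx
  have hn : 0 < 1 + Real.sinh s ^ 2 - Real.sin x ^ 2 := by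
    have : 1 + Real.sinh s ^ 2 - Real.sin x ^ 2 = Real.cos x ^ 2 + Real.sinh s ^ 2 := by
      rw [Real.cos_sq']; ring
    rw [this]
    positivity
  have hc : cos (UU x s) ≠ 0 := by
    intro h0
    have h1 := congrArg Complex.re h0
    rw [wcos_re, UU_re, UU_im, zero_re] at h1
    have := Real.cosh_pos s
    rcases mul_eq_zero.1 h1 with h2 | h2
    · exact hcx.ne' h2
    · exact this.ne' h2
  have hch := Real.cosh_sq s
  have hcs := Real.cos_sq' x
  have e : tan (UU x s) = (((Real.sin x * Real.cos x /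
      (1 + Real.sinh s ^ 2 - Real.sin x ^ 2) : ℝ) : ℂ)) +
      ((Real.sinh s * Real.cosh s / (1 + Real.sinh s ^ 2 - Real.sin x ^ 2) : ℝ) : ℂ) * I := by
    rw [Complex.tan_eq_sin_div_cos, div_eq_iff hc]
    apply Complex.ext
    · rw [wsin_re, mul_re, wcos_re, wcos_im, UU_re, UU_im, add_re, add_im, ofReal_re, ofReal_im,
        re_ofReal_mul, im_ofReal_mul, I_re, I_im]
      have hn' := hn.ne'
      generalize Real.sinh s = S at *
      generalize Real.cosh s = C at *
      generalize Real.sin x = a at *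
      generalize Real.cos x = b at *
      field_simp
      linear_combination (-(a * C)) * hcs
    · rw [wsin_im, mul_im, wcos_re, wcos_im, UU_re, UU_im, add_re, add_im, ofReal_re, ofReal_im,
        re_ofReal_mul, im_ofReal_mul, I_re, I_im]
      have hn' := hn.ne'
      generalize Real.sinh s = S at *
      generalize Real.cosh s = C at *
      generalize Real.sin x = a at *
      generalize Real.cos x = b at *
      field_simp
      linear_combination (-(b * S)) * hch
  refine ⟨hn, ?_, ?_⟩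
  · rw [e, add_re, ofReal_re, re_ofReal_mul, I_re, mul_zero, add_zero]
  · rw [e, add_im, ofReal_im, im_ofReal_mul, I_im, mul_one, zero_add]

/-- The core inequality. -/
theorem kg_core {s a b p r : ℝ} (hs0 : 0 < s) (hs1 : s ≤ 1 / 2) (hb : |b| < Real.pi / 2)
    (hRe : Real.sinh a * Real.cos b * (1 + Real.sinh s ^ 2 - Real.sin (16 / 25 * s) ^ 2) =
      Real.sin (16 / 25 * s) * Real.cos (16 / 25 * s) * p + Real.sinh s * Real.cosh s * r)
    (hIm : Real.cosh a * Real.sin b * (1 + Real.sinh s ^ 2 - Real.sin (16 / 25 * s) ^ 2) =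
      Real.sinh s * Real.cosh s * p - Real.sin (16 / 25 * s) * Real.cos (16 / 25 * s) * r)
    (c0 : 0 < p) (c1 : r ≤ 9 / 20 * p) (c2 : p ^ 2 + r ^ 2 ≤ 13606 / 10000) :
    16 / 25 * a < b := by
  have hpi := Real.pi_gt_three
  have hxlt : |16 / 25 * s| < Real.pi / 2 := by rw [abs_of_pos (by linarith only [hs0])]; linarith only [hpi,
                                                                                            hs1,
                                                                                            hs0]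
  obtain ⟨hD, -, -⟩ := kg_tanUU (s := s) hxlt
  obtain ⟨A, hA⟩ : ∃ A, A = Real.sin (16 / 25 * s) * Real.cos (16 / 25 * s) := ⟨_, rfl⟩
  obtain ⟨B, hB⟩ : ∃ B, B = Real.sinh s * Real.cosh s := ⟨_, rfl⟩
  obtain ⟨D, hDd⟩ : ∃ D, D = 1 + Real.sinh s ^ 2 - Real.sin (16 / 25 * s) ^ 2 := ⟨_, rfl⟩
  have kAB := kg_AB hs0 hs1
  have e1 : Real.sin (32 / 25 * s) = 2 * A := by
    rw [hA, show 32 / 25 * s = 2 * (16 / 25 * s) by ring, Real.sin_two_mul]; ring
  have e2 : Real.sinh (2 * s) = 2 * B := by rw [hB, Real.sinh_two_mul]; ring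
  rw [e1, e2] at kAB
  have kT := kg_T hs0 hs1
  have hAB : A ^ 2 + B ^ 2 = (Real.sinh s ^ 2 + Real.sin (16 / 25 * s) ^ 2) * D := by
    rw [hA, hB, hDd, mul_pow, mul_pow, Real.cosh_sq, Real.cos_sq']; ring
  have sx0 : 0 < Real.sin (16 / 25 * s) :=
    Real.sin_pos_of_pos_of_lt_pi (by linarith only [hs0]) (by linarith only [hpi, hs1, hs0])
  have A0 : 0 < A := by rw [hA]; exact mul_pos sx0 (cos_pos' hxlt)
  have B0 : 0 < B := by rw [hB]; exact mul_pos (Real.sinh_pos_iff.2 hs0) (Real.cosh_pos s)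
  have AB : A ≤ B := by
    have h1 : Real.sin (16 / 25 * s) ≤ 16 / 25 * s := Real.sin_le (by linarith only [hs0])
    have h2 := Real.cos_le_one (16 / 25 * s)
    have h3 : s ≤ Real.sinh s := Real.self_le_sinh_iff.2 hs0.le
    have h4 := Real.one_le_cosh s
    have h5 : A ≤ 16 / 25 * s := by
      rw [hA]
      calc _ ≤ Real.sin (16 / 25 * s) * 1 := mul_le_mul_of_nonneg_left h2 sx0.le
        _ ≤ _ := by linarith only [h1]
    have h6 : Real.sinh s ≤ B := by
      rw [hB]
      calc Real.sinh s = Real.sinh s * 1 := (mul_one _).symm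
        _ ≤ _ := mul_le_mul_of_nonneg_left h4 (hs0.le.trans h3)
    linarith only [h6, h5, h3, B0]
  rw [← hA, ← hB, ← hDd] at hRe hIm
  rw [← hDd] at kT hD
  by_contra hc
  push Not at hc
  have hb' := abs_lt.1 hb
  have hcb := cos_pos' hb
  have hca := Real.cosh_pos a
  -- `b > 0`
  have i0 : 0 < B * p - A * r := by linarith only [mul_nonneg (sub_nonneg.2 c1) (sub_nonneg.2 A0.le),
                                      mul_nonneg (sub_nonneg.2 c0.le) (sub_nonneg.2 AB),
                                      mul_pos (sub_pos.2 c0) (sub_pos.2 B0)]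
  have i1 : 0 < Real.cosh a * Real.sin b := by
    by_contra h0
    push Not at h0
    linarith only [hIm, mul_nonneg (sub_nonneg.2 hD.le) (sub_nonneg.2 h0),
      mul_nonneg (sub_nonneg.2 hs1) (sub_nonneg.2 i0.le), mul_pos (sub_pos.2 hs0) (sub_pos.2 i0)]
  have i2 : 0 < Real.sin b := by
    by_contra h0
    push Not at h0
    linarith only [mul_nonneg (sub_nonneg.2 hca.le) (sub_nonneg.2 h0),
      mul_nonneg (sub_nonneg.2 hs1) (sub_nonneg.2 i1.le), mul_pos (sub_pos.2 hs0) (sub_pos.2 i1)]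
  have b0 : 0 < b := by
    by_contra h0
    push Not at h0
    have := Real.sin_nonpos_of_nonpos_of_neg_pi_le h0 (by linarith only [hb'.1, hpi, hs1, hs0])
    linarith only [this, i2]
  have a0 : 0 < a := by linarith only [b0, hc]
  have sa0 : 0 < Real.sinh a := Real.sinh_pos_iff.2 a0
  -- the norm
  have n1 : (Real.sinh a ^ 2 + Real.sin b ^ 2) * D ^ 2 =
      (Real.sinh s ^ 2 + Real.sin (16 / 25 * s) ^ 2) * D * (p ^ 2 + r ^ 2) := by
    have h1 : (Real.sinh a ^ 2 + Real.sin b ^ 2) =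
        (Real.sinh a * Real.cos b) ^ 2 + (Real.cosh a * Real.sin b) ^ 2 := by
      rw [mul_pow, mul_pow, Real.cosh_sq, Real.cos_sq']; ring
    rw [h1, ← hAB]
    calc _ = (Real.sinh a * Real.cos b * D) ^ 2 + (Real.cosh a * Real.sin b * D) ^ 2 := by ring
      _ = _ := by rw [hRe, hIm]; ring
  have n2 : (Real.sinh a ^ 2 + Real.sin b ^ 2) * D =
      (Real.sinh s ^ 2 + Real.sin (16 / 25 * s) ^ 2) * (p ^ 2 + r ^ 2) := by
    apply mul_right_cancel₀ hD.ne'
    linear_combination n1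
  have n3 : Real.sinh a ^ 2 * D ≤ 141 / 100 * s ^ 2 * (13606 / 10000) * D := by
    have h1 : (Real.sinh s ^ 2 + Real.sin (16 / 25 * s) ^ 2) * (p ^ 2 + r ^ 2) ≤
        (141 / 100 * s ^ 2 * D) * (13606 / 10000) :=
      mul_le_mul kT c2 (by positivity) (by positivity)
    linarith only [mul_nonneg (sq_nonneg (Real.sin b)) hD.le, h1, n2]
  have n4 : Real.sinh a ^ 2 ≤ 141 / 100 * s ^ 2 * (13606 / 10000) :=
    le_of_mul_le_mul_right n3 hD
  have hv : s ^ 2 ≤ 1 / 4 := by (refine le_of_not_gt fun hng => ?_; linarith only [mul_nonneg (sub_nonneg.2 hs0.le) (sub_nonneg.2 hs1),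
                                  mul_pos (sub_pos.2 hng) (sub_pos.2 hs0),
                                  mul_nonneg (sq_nonneg (1 * s)) (sub_nonneg.2 hs1)])
  have a1 : a ≤ 2 / 3 := by
    by_contra h0
    push Not at h0
    have h1 : Real.sinh (2 / 3) ≤ Real.sinh a := Real.sinh_le_sinh.2 h0.le
    have h2 := Cl.n_sh5 (x := 2 / 3) (by norm_num)
    norm_num at h2
    have h3 : (7 / 10 : ℝ) ≤ Real.sinh a := by linarith only [h2, h1, hs1, hs0]
    have h4 := pow_le_pow_left₀ (by norm_num) h3 2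
    norm_num at h4
    linarith only [h4, hv, n4, hs1, hs0]
  have kt := kg_tan a0.le a1
  have hcκ : 0 < Real.cos (16 / 25 * a) :=
    Real.cos_pos_of_mem_Ioo ⟨by linarith only [hb'.1, hc], by linarith only [a1, hpi, hs1, hs0]⟩
  have t1 : Real.sin b * Real.cos (16 / 25 * a) ≤ Real.sin (16 / 25 * a) * Real.cos b := by
    have h1 : 0 ≤ Real.sin (16 / 25 * a - b) :=
      Real.sin_nonneg_of_nonneg_of_le_pi (by linarith only [hc]) (by linarith only [a1, b0, hpi,
                                                                       hs1, hs0])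
    rw [Real.sin_sub] at h1
    linarith only [h1]
  have t2 : Real.cosh a * Real.sin b * Real.cos (16 / 25 * a) ≤
      16 / 25 * (1 + 23 / 25 * s ^ 2) * (Real.sinh a * Real.cos b) * Real.cos (16 / 25 * a) := by
    have h1 : Real.cosh a * (Real.sin b * Real.cos (16 / 25 * a)) ≤
        Real.cosh a * (Real.sin (16 / 25 * a) * Real.cos b) := mul_le_mul_of_nonneg_left t1 hca.le
    have h2 := mul_le_mul_of_nonneg_right kt hcb.le
    have h3 : 16 / 25 * (1 + 47 / 100 * Real.sinh a ^ 2) *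
        (Real.sinh a * Real.cos (16 / 25 * a)) * Real.cos b ≤
        16 / 25 * (1 + 23 / 25 * s ^ 2) * (Real.sinh a * Real.cos (16 / 25 * a)) *
          Real.cos b := by
      apply mul_le_mul_of_nonneg_right _ hcb.le
      apply mul_le_mul_of_nonneg_right _ (by positivity)
      linarith only [n4, sq_nonneg (1 * s)]
    calc _ = Real.cosh a * (Real.sin b * Real.cos (16 / 25 * a)) := by ring
      _ ≤ Real.cosh a * (Real.sin (16 / 25 * a) * Real.cos b) := h1
      _ = Real.sin (16 / 25 * a) * Real.cosh a * Real.cos b := by ring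
      _ ≤ _ := h2
      _ ≤ _ := h3
      _ = _ := by ring
  have t3 : Real.cosh a * Real.sin b ≤
      16 / 25 * (1 + 23 / 25 * s ^ 2) * (Real.sinh a * Real.cos b) :=
    le_of_mul_le_mul_right t2 hcκ
  have t4 := mul_le_mul_of_nonneg_right t3 hD.le
  have t5 : B * p - A * r ≤ 16 / 25 * (1 + 23 / 25 * s ^ 2) * (A * p + B * r) := by
    rw [← hIm, ← hRe]
    calc _ ≤ _ := t4
      _ = _ := by ring
  obtain ⟨E, hE⟩ : ∃ E, E = 1 + 23 / 25 * s ^ 2 := ⟨_, rfl⟩
  rw [← hE] at t5 kAB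
  have E0 : 0 < E := by rw [hE]; positivity
  have f1 : 0 ≤ (9 / 20 * p - r) * (A + 16 / 25 * E * B) :=
    mul_nonneg (by linarith only [c1]) (by positivity)
  have f2 : 0 < p * (B * (1 - 36 / 125 * E) - A * (9 / 20 + 16 / 25 * E)) :=
    mul_pos c0 (by linarith only [kAB])
  linarith only [f2, f1, t5]

/-- `16/25 re q < im q` if `sinh q = c tan (s (16/25 + i))`. -/
theorem kg_lt {s : ℝ} (hs0 : 0 < s) (hs1 : s ≤ 1 / 2) {q c : ℂ} (hq : |q.im| < Real.pi / 2)
    (hqc : sinh q = tan (UU (16 / 25 * s) s) * c) (c0 : 0 < c.re) (c1 : -c.im ≤ 9 / 20 * c.re)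
    (c2 : normSq c ≤ 13606 / 10000) : 16 / 25 * q.re < q.im := by
  have hpi := Real.pi_gt_three
  have hxlt : |16 / 25 * s| < Real.pi / 2 := by rw [abs_of_pos (by linarith only [hs0])]; linarith only [hpi,
                                                                                            hs1,
                                                                                            hs0]
  obtain ⟨hD, t1, t2⟩ := kg_tanUU (s := s) hxlt
  have e1 := congrArg Complex.re hqc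
  have e2 := congrArg Complex.im hqc
  rw [sinh_re', mul_re, t1, t2] at e1
  rw [sinh_im', mul_im, t1, t2] at e2
  rw [normSq_apply] at c2
  refine kg_core (p := c.re) (r := -c.im) hs0 hs1 hq ?_ ?_ c0 c1 (by linarith only [c2])
  · rw [e1]
    generalize 1 + Real.sinh s ^ 2 - Real.sin (16 / 25 * s) ^ 2 = D at hD
    have hD' := hD.ne'
    field_simp
    ring
  · rw [e2]
    generalize 1 + Real.sinh s ^ 2 - Real.sin (16 / 25 * s) ^ 2 = D at hD
    have hD' := hD.ne'
    field_simp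
    ring

end Pool.Agent.MX
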