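import Pool.Agent.MX.LowK1
import Pool.Agent.AT.LowD2

/-!
# The test points on the ray `re v = 16/25 im v`

`tk θ = τ (16/25 + i)`, the point of the line of height `θ ≤ 1/2` on this ray. Along the ray
`re Φ (·, conj w)` and `re Φ (·, w)` increase.
-/

set_option autoImplicit false

namespace Pool.Agent.MX

open Complex Pool.Agent.S3
open Pool.Agent.H25.RK (gdv gdv_re_lt gdv_hasDerivAt)

/-! ### The derivative along the ray -/

theorem kg_abs {s : ℝ} (h0 : 0 ≤ s) (h1 : s ≤ 1 / 2) : |16 / 25 * s| < Real.pi / 2 := by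
  rw [abs_of_nonneg (by linarith only [h0])]
  linarith only [Real.pi_gt_three, h1]

theorem kg_igd {s : ℝ} (hs : |16 / 25 * s| < Real.pi / 2) :
    HasDerivAt (fun s : ℝ => igd (UU (16 / 25 * s) s))
      ((((16 / 25 : ℝ) : ℂ) + I) * cosh (igd (UU (16 / 25 * s) s))) s := by
  have h1 : HasDerivAt (fun s : ℝ => UU (16 / 25 * s) s) (((16 / 25 : ℝ) : ℂ) + I) s := by
    unfold UU
    have h2 := HasDerivAt.ofReal_comp (hasDerivAt_id' s)
    have h4 := HasDerivAt.ofReal_comp ((hasDerivAt_id' s).const_mul (16 / 25 : ℝ))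
    have h3 := h4.add (h2.mul_const I)
    refine h3.congr_deriv ?_
    rw [mul_one, ofReal_one, one_mul]
  have := HasDerivAt.scomp (g₁ := igd) (h := fun s : ℝ => UU (16 / 25 * s) s) s
    (hasDerivAt_igd (UU_re_lt hs)) h1
  exact this.congr_deriv (by rw [smul_eq_mul])

theorem kg_deriv {Φ : ℂ → ℂ → ℂ} (hΦ : IsPhi Φ) {s : ℝ} (hs : |16 / 25 * s| < Real.pi / 2) {w : ℂ}
    (h : Reg (igd (UU (16 / 25 * s) s)) w) :
    HasDerivAt (fun s => FP Φ (UU (16 / 25 * s) s) (gd w))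
      (2 / Real.pi * ((qq (igd (UU (16 / 25 * s) s)) w).im -
        16 / 25 * (qq (igd (UU (16 / 25 * s) s)) w).re)) s := by
  have h1 := hΦ.deriv (fun s => igd (UU (16 / 25 * s) s)) (fun _ => w)
    ((((16 / 25 : ℝ) : ℂ) + I) * cosh (igd (UU (16 / 25 * s) s))) 0 s h
    (kg_igd hs) (hasDerivAt_const s w)
  have h2 := hasDerivAt_re h1
  have e : (fun s => FP Φ (UU (16 / 25 * s) s) (gd w)) =ᶠ[nhds s]
      (fun s : ℝ => (Φ (gd (igd (UU (16 / 25 * s) s)) / (Real.pi : ℂ))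
        (gd w / (Real.pi : ℂ))).re) := by
    have hc : ContinuousAt (fun t : ℝ => |16 / 25 * t|) s := by fun_prop
    have hn : ∀ᶠ t in nhds s, |16 / 25 * t| < Real.pi / 2 := hc.eventually_lt_const hs
    filter_upwards [hn] with t ht
    rw [gd_igd (UU_re_lt ht), FP]
  refine (h2.congr_of_eventuallyEq e).congr_deriv ?_
  have hpi : (Real.pi : ℂ) ≠ 0 := by exact_mod_cast Real.pi_ne_zero
  have hc : cosh (igd (UU (16 / 25 * s) s)) ≠ 0 := cosh_ne h.left
  have e2 : -2 * qq (igd (UU (16 / 25 * s) s)) w *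
      ((((16 / 25 : ℝ) : ℂ) + I) * cosh (igd (UU (16 / 25 * s) s))) /
      ((Real.pi : ℂ) * cosh (igd (UU (16 / 25 * s) s))) -
      2 * qq w (igd (UU (16 / 25 * s) s)) * 0 / ((Real.pi : ℂ) * cosh w) =
      ((-(2 / Real.pi) : ℝ) : ℂ) * (qq (igd (UU (16 / 25 * s) s)) w *
        (((16 / 25 : ℝ) : ℂ) + I)) := by
    generalize cosh (igd (UU (16 / 25 * s) s)) = c at hc
    generalize qq (igd (UU (16 / 25 * s) s)) w = q
    push_cast
    field_simp
    ring
  rw [e2, re_ofReal_mul, mul_re, add_re, add_im, ofReal_re, ofReal_im, I_re, I_im]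
  ring

/-- Along the ray the value increases. -/
theorem kg_mono {Φ : ℂ → ℂ → ℂ} (hΦ : IsPhi Φ) {x : ℝ} (hx0 : 0 < x) (hx1 : x ≤ 1 / 2)
    {W : ℂ} (hreg : ∀ s, 0 ≤ s → s ≤ x → Reg (igd (UU (16 / 25 * s) s)) W)
    (c0 : 0 < (1 / cosh W).re) (c1 : -(1 / cosh W).im ≤ 9 / 20 * (1 / cosh W).re)
    (c2 : normSq (1 / cosh W) ≤ 13606 / 10000) :
    FP Φ (UU 0 0) (gd W) < FP Φ (UU (16 / 25 * x) x) (gd W) := by
  have hpi := Real.pi_pos
  have hm : StrictMonoOn (fun s => FP Φ (UU (16 / 25 * s) s) (gd W)) (Set.Icc 0 x) := by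
    apply strictMonoOn_of_deriv_pos (convex_Icc _ _)
    · intro s hs
      exact (kg_deriv hΦ (kg_abs hs.1 (hs.2.trans hx1))
        (hreg s hs.1 hs.2)).continuousAt.continuousWithinAt
    · intro s hs
      rw [interior_Icc] at hs
      have hr := hreg s hs.1.le hs.2.le
      rw [(kg_deriv hΦ (kg_abs hs.1.le (hs.2.le.trans hx1)) hr).deriv]
      have h1 := kg_lt hs.1 (hs.2.le.trans hx1) (q := qq (igd (UU (16 / 25 * s) s)) W)
        (c := 1 / cosh W) (qq_im_lt hr) (by rw [sinh_qq, sinh_igd]; ring) c0 c1 c2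
      have h2 : 0 < 2 / Real.pi := by positivity
      exact mul_pos h2 (by linarith only [h1])
  have := hm ⟨le_rfl, hx0.le⟩ ⟨hx0.le, le_rfl⟩ hx0
  simpa using this

/-! ### The test point -/

/-- The heights at the vertices with at least four twists. -/
structure Ht4 (θ : ℝ) : Prop where
  ht : Ht θ
  le : θ ≤ 1 / 2

theorem kg_tan12 {θ : ℝ} (h0 : 0 ≤ θ) (h1 : θ ≤ 1 / 2) : Real.tan θ ≤ 683 / 1250 := by
  have hpi := Real.pi_gt_three
  have a1 : Real.tan θ ≤ Real.tan (1 / 2) := by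
    rcases h1.eq_or_lt with h | h
    · rw [h]
    · exact (Real.tan_lt_tan_of_lt_of_lt_pi_div_two (by linarith only [hpi, h0]) (by linarith only [hpi]) h).le
  refine a1.trans ?_
  have a2 := Cl.n_s5 (x := 1 / 2) (by norm_num)
  have a3 := Cl.n_c6 (x := 1 / 2) (by norm_num)
  have hc : 0 < Real.cos (1 / 2) := by
    refine lt_of_lt_of_le ?_ a3
    norm_num
  rw [Real.tan_eq_sin_div_cos, div_le_iff₀ hc]
  norm_num at a2 a3 ⊢
  linarith only [a3, a2, hc]

theorem tk_exists {θ : ℝ} (h0 : 0 < θ) (h1 : θ ≤ 1 / 2) :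
    ∃ x, 0 < x ∧ x < 1 / 2 ∧ Real.sinh x = Real.tan θ * Real.cos (16 / 25 * x) := by
  have hpi := Real.pi_gt_three
  have ht : 0 < Real.tan θ := Real.tan_pos_of_pos_of_lt_pi_div_two h0 (by linarith only [hpi, h1,
                                                                            h0])
  have ht1 := kg_tan12 h0.le h1
  have hcont : ContinuousOn (fun x => Real.sinh x - Real.tan θ * Real.cos (16 / 25 * x))
      (Set.Icc 0 (1 / 2)) := by
    apply Continuous.continuousOn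
    have := Real.continuous_sinh
    fun_prop
  have h2 : (0 : ℝ) ∈ Set.Ioo (Real.sinh 0 - Real.tan θ * Real.cos (16 / 25 * 0))
      (Real.sinh (1 / 2) - Real.tan θ * Real.cos (16 / 25 * (1 / 2))) := by
    constructor
    · rw [Real.sinh_zero, mul_zero, Real.cos_zero]; linarith only [ht]
    · have h3 := Cl.n_sh5 (x := 1 / 2) (by norm_num)
      have h4 := Cl.n_c4 (x := 16 / 25 * (1 / 2)) (by norm_num)
      have h5 : 0 ≤ Real.cos (16 / 25 * (1 / 2)) :=
        Real.cos_nonneg_of_mem_Icc ⟨by linarith only [hpi, h1, h0], by norm_num; linarith only [hpi,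
                                                                                   h1, h0]⟩
      have h6 := mul_le_mul_of_nonneg_right ht1 h5
      norm_num at h3 h4 h6 ⊢
      linarith only [h6, h4, h3, h1, h0]
  obtain ⟨x, hx, hx2⟩ := intermediate_value_Ioo (by norm_num : (0 : ℝ) ≤ 1 / 2) hcont h2
  exact ⟨x, hx.1, hx.2, by simp only at hx2; linarith only [hx2]⟩

open Classical in
/-- The height of the test point, times `π`. -/
noncomputable def kx (θ : ℝ) : ℝ :=
  if h : ∃ x, 0 < x ∧ x < 1 / 2 ∧ Real.sinh x = Real.tan θ * Real.cos (16 / 25 * x) then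
    h.choose else 0

/-- The test point of a vertex with at least four twists. -/
noncomputable def tk (θ : ℝ) : ℂ :=
  ((16 / 25 * kx θ / Real.pi : ℝ) : ℂ) + (bl θ (16 / 25 * kx θ / Real.pi) : ℝ) * I

section

variable {θ θ' : ℝ}

theorem kx_spec (h : Ht4 θ) : 0 < kx θ ∧ kx θ < 1 / 2 ∧
    Real.sinh (kx θ) = Real.tan θ * Real.cos (16 / 25 * kx θ) := by
  have h1 := tk_exists h.ht.pos h.le
  unfold kx
  rw [dif_pos h1]
  exact h1.choose_spec

theorem tk_re (θ : ℝ) : (tk θ).re = 16 / 25 * kx θ / Real.pi := by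
  rw [tk, add_re, ofReal_re, re_ofReal_mul, I_re, mul_zero, add_zero]

theorem tk_im (θ : ℝ) : (tk θ).im = bl θ (tk θ).re := by
  rw [tk_re, tk, add_im, ofReal_im, im_ofReal_mul, I_im, mul_one, zero_add]

theorem tk_bl (h : Ht4 θ) : bl θ (16 / 25 * kx θ / Real.pi) = kx θ / Real.pi := by
  have hpi := Real.pi_pos
  rw [bl, mul_div_cancel₀ _ hpi.ne', ← (kx_spec h).2.2, Real.arsinh_sinh]

theorem tk_im' (h : Ht4 θ) : (tk θ).im = kx θ / Real.pi := by
  rw [tk_im, tk_re, tk_bl h]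

theorem tk_eq (h : Ht4 θ) : (Real.pi : ℂ) * tk θ = UU (16 / 25 * kx θ) (kx θ) := by
  apply Complex.ext
  · rw [pi_mul_re, tk_re, UU_re, mul_div_cancel₀ _ Real.pi_ne_zero]
  · rw [pi_mul_im, tk_im' h, UU_im, mul_div_cancel₀ _ Real.pi_ne_zero]

theorem tk_re_pos (h : Ht4 θ) : 0 < (tk θ).re := by
  rw [tk_re]
  have := (kx_spec h).1
  have := Real.pi_pos
  positivity

theorem tk_re_lt (h : Ht4 θ) : (tk θ).re < 1 / 4 := by
  rw [tk_re, div_lt_iff₀ Real.pi_pos]
  linarith only [Real.pi_gt_three, (kx_spec h).2.1]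

theorem Und_tk (h : Ht4 θ) : Und θ (tk θ) :=
  ⟨(tk_re_pos h).le, by linarith only [tk_re_lt h], by
    rw [tk_im' h]; exact (div_pos (kx_spec h).1 Real.pi_pos).le, (tk_im θ).le⟩

/-- The cost of a vertex with at least four twists. -/
noncomputable def rK (θ : ℝ) : ℝ := 2 * Real.pi * (tk θ).im * (1 - 4 * (tk θ).re)

theorem tk_cost (h : Ht4 θ) {a : ℝ} (ha : 4 ≤ a) :
    2 * Real.pi * (tk θ).im * (1 - a * (tk θ).re) ≤ rK θ := by
  have h0 := tk_re_pos h
  have h1 : 1 - a * (tk θ).re ≤ 1 - 4 * (tk θ).re := by linarith only [mul_nonneg (sub_nonneg.2 ha) (sub_nonneg.2 h0.le)]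
  have h2 := (Und_tk h).im0
  have hpi := Real.pi_pos
  unfold rK
  exact mul_le_mul_of_nonneg_left h1 (by positivity)

theorem rK_eq (h : Ht4 θ) : rK θ = 2 * kx θ * (1 - 64 / 25 * kx θ / Real.pi) := by
  have hpi := Real.pi_pos
  unfold rK
  rw [tk_im' h, tk_re]
  field_simp
  ring

theorem rK_nonneg (h : Ht4 θ) : 0 ≤ rK θ := by
  have hpi := Real.pi_gt_three
  obtain ⟨x0, x1, -⟩ := kx_spec h
  rw [rK_eq h]
  have h1 : 64 / 25 * kx θ / Real.pi ≤ 1 := by rw [div_le_one (by linarith only [hpi])]; linarith only [x1,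
                                                                                           hpi]
  exact mul_nonneg (by linarith only [x0]) (by linarith only [h1])

theorem rK_le' (h : Ht4 θ) : rK θ ≤ 2 * kx θ - 16296 / 10000 * kx θ ^ 2 := by
  have hpi := Real.pi_pos
  have hpi4 := Real.pi_lt_d4
  obtain ⟨x0, x1, -⟩ := kx_spec h
  rw [rK_eq h]
  have h1 : 16296 / 20000 * kx θ ≤ 64 / 25 * kx θ / Real.pi := by
    rw [le_div_iff₀ hpi]
    (refine le_of_not_gt fun hng => ?_; linarith only [x0, mul_pos (sub_pos.2 hpi4) (sub_pos.2 x0),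
      mul_pos (sub_pos.2 hng) (sub_pos.2 x1), mul_pos (sub_pos.2 hng) (sub_pos.2 x0)])
  (refine le_of_not_gt fun hng => ?_; linarith only [mul_pos (sub_pos.2 hng) (sub_pos.2 x0),
    mul_nonneg (sq_nonneg (1 * kx θ)) (sub_nonneg.2 h1)])

theorem rK_le (h : Ht4 θ) : rK θ ≤ 593 / 1000 := by
  have h1 := rK_le' h
  obtain ⟨x0, x1, -⟩ := kx_spec h
  linarith only [h1, mul_pos (sub_pos.2 x1) (sub_pos.2 x1), mul_pos (sub_pos.2 x0) (sub_pos.2 x1)]

theorem rK_gain (h : Ht4 θ) : rK θ - kx θ ^ 2 / 10 ≤ 568 / 1000 := by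
  have h1 := rK_le' h
  obtain ⟨x0, x1, -⟩ := kx_spec h
  linarith only [h1, mul_pos (sub_pos.2 x1) (sub_pos.2 x1), mul_pos (sub_pos.2 x0) (sub_pos.2 x1)]

/-- The points of the ray below the test point. -/
theorem Und_kg (h : Ht4 θ) {s : ℝ} (h0 : 0 ≤ s) (h1 : s ≤ kx θ) :
    Und θ (((16 / 25 * s / Real.pi : ℝ) : ℂ) + ((s / Real.pi : ℝ) : ℂ) * I) := by
  have hpi := Real.pi_pos
  have hpi3 := Real.pi_gt_three
  have h2 := (kx_spec h).2.1
  have h3 : 0 ≤ s / Real.pi := by positivity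
  have h4 : 16 / 25 * s / Real.pi ≤ 1 / 4 := by rw [div_le_iff₀ hpi]; linarith only [h2, hpi3, h1]
  refine ⟨by rw [line_re]; positivity, by rw [line_re]; linarith only [h4], by rw [line_im]; exact h3, ?_⟩
  rw [line_im, line_re, bl, mul_div_cancel₀ _ hpi.ne', div_le_div_iff_of_pos_right hpi,
    ← Real.sinh_le_sinh, Real.sinh_arsinh]
  have h5 : Real.sinh s ≤ Real.sinh (kx θ) := Real.sinh_le_sinh.2 h1
  have h6 : Real.cos (16 / 25 * kx θ) ≤ Real.cos (16 / 25 * s) :=
    Real.cos_le_cos_of_nonneg_of_le_pi (by linarith only [h0]) (by linarith only [h2, hpi3]) (by linarith only [h1])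
  have h7 := mul_le_mul_of_nonneg_left h6 (Real.tan_nonneg_of_nonneg_of_le_pi_div_two
    h.ht.pos.le h.ht.lt.le)
  have h8 := (kx_spec h).2.2
  linarith only [h8, h7, h5]

/-- The cosine of the other vertex, for an edge with equal signs. -/
theorem kg_c {w : ℂ} (hw : Und θ' w) (h' : Ht4 θ') (hw1 : w.re ≤ 13 / 40) :
    0 < (1 / cosh (uof w)).re ∧ -(1 / cosh (uof w)).im ≤ 9 / 20 * (1 / cosh (uof w)).re ∧
      normSq (1 / cosh (uof w)) ≤ 13606 / 10000 := by
  have hpi := Real.pi_pos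
  have e : 1 / cosh (uof w) = cos ((Real.pi : ℂ) * w) := by
    rw [uof, cosh_igd (pi_re_lt hw.abs), one_div_one_div]
  rw [e]
  obtain ⟨x, hx⟩ : ∃ x, x = Real.pi * w.re := ⟨_, rfl⟩
  obtain ⟨y, hy⟩ : ∃ y, y = Real.pi * w.im := ⟨_, rfl⟩
  have x0 : 0 ≤ x := by rw [hx]; exact mul_nonneg hpi.le hw.re0
  have x1 : x ≤ 13 / 40 * Real.pi := by rw [hx]; linarith only [mul_nonneg (sub_nonneg.2 hw1) (sub_nonneg.2 hpi.le)]
  have y0 : 0 ≤ y := by rw [hy]; exact mul_nonneg hpi.le hw.im0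
  have t0 : 0 ≤ Real.tan θ' := Real.tan_nonneg_of_nonneg_of_le_pi_div_two h'.ht.pos.le h'.ht.lt.le
  have t1 := kg_tan12 h'.ht.pos.le h'.le
  have ys : Real.sinh y ≤ Real.tan θ' * Real.cos x := by
    rw [hx, hy, ← sinh_pi_bl]
    exact Real.sinh_le_sinh.2 (mul_le_mul_of_nonneg_left hw.im1 hpi.le)
  have cx : 0 < Real.cos x := by rw [hx]; exact cos_pi_pos hw.abs
  have sx0 : 0 ≤ Real.sin x := Real.sin_nonneg_of_nonneg_of_le_pi x0 (by linarith only [x1, hpi])
  have sy0 : 0 ≤ Real.sinh y := Real.sinh_nonneg_iff.2 y0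
  have cy : 0 < Real.cosh y := Real.cosh_pos y
  -- `sin² x ≤ .7276`
  have sx : Real.sin x ^ 2 ≤ 7276 / 10000 := by
    have h1 : Real.sin x ≤ Real.sin (13 / 40 * Real.pi) :=
      Real.sin_le_sin_of_le_of_le_pi_div_two (by linarith only [x0, hpi]) (by linarith only [hpi]) x1
    have h2 : Real.sin (13 / 40 * Real.pi) = Real.cos (7 / 40 * Real.pi) := by
      rw [← Real.cos_pi_div_two_sub]
      congr 1
      ring
    have h3 : (54977 / 100000 : ℝ) ≤ 7 / 40 * Real.pi := by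
      have := Real.pi_gt_d6
      norm_num at this ⊢
      linarith only [this]
    have h4 : Real.cos (7 / 40 * Real.pi) ≤ Real.cos (54977 / 100000) :=
      Real.cos_le_cos_of_nonneg_of_le_pi (by norm_num) (by linarith only [hpi]) h3
    have h5 := Cl.n_c4 (x := 54977 / 100000) (by norm_num)
    have h6 : Real.sin x ≤ 85294 / 100000 := by
      rw [h2] at h1
      norm_num at h5 ⊢
      linarith only [h5, h4, h1]
    have h7 := pow_le_pow_left₀ sx0 h6 2
    norm_num at h7 ⊢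
    linarith only [h7]
  have ys2 : Real.sinh y ^ 2 ≤ (Real.tan θ' * Real.cos x) ^ 2 := pow_le_pow_left₀ sy0 ys 2
  have tt : Real.tan θ' ^ 2 ≤ 29856 / 100000 := by
    have := pow_le_pow_left₀ t0 t1 2
    norm_num at this ⊢
    linarith only [this]
  rw [mul_pow] at ys2
  have hcs := Real.cos_sq' x
  have hch := Real.cosh_sq y
  have key : Real.sin x * Real.sinh y ≤ 9 / 20 * (Real.cos x * Real.cosh y) := by
    apply le_of_sq_le_sq _ (by positivity)
    have e1 : (9 / 20 * (Real.cos x * Real.cosh y)) ^ 2 =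
        81 / 400 * (Real.cos x ^ 2 * (1 + Real.sinh y ^ 2)) := by
      rw [mul_pow, mul_pow, hch]; ring
    rw [mul_pow, e1]
    obtain ⟨Y, hY⟩ : ∃ Y, Y = Real.sinh y ^ 2 := ⟨_, rfl⟩
    obtain ⟨C, hC⟩ : ∃ C, C = Real.cos x ^ 2 := ⟨_, rfl⟩
    obtain ⟨S, hS⟩ : ∃ S, S = Real.sin x ^ 2 := ⟨_, rfl⟩
    have Y0 : 0 ≤ Y := by rw [hY]; positivity
    have C0 : 0 < C := by rw [hC]; positivity
    have S0 : 0 ≤ S := by rw [hS]; positivity
    rw [← hY, ← hC] at ys2 ⊢
    rw [← hS] at sx ⊢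
    rw [← hC, ← hS] at hcs
    have k1 : Y ≤ 29856 / 100000 * C := ys2.trans (mul_le_mul_of_nonneg_right tt C0.le)
    -- `S Y ≤ 81/400 C (1 + Y)`
    have k2 : S * Y - 81 / 400 * C * Y ≤ 81 / 400 * C := by
      have k3 : (S - 81 / 400 * C) * Y ≤ (7276 / 10000 - 81 / 400 * (1 - 7276 / 10000)) * Y :=
        mul_le_mul_of_nonneg_right (by rw [hcs]; linarith only [sx]) Y0
      linarith only [k3, k1, C0]
    linarith only [k2]
  refine ⟨?_, ?_, ?_⟩
  · rw [wcos_re, pi_mul_re, pi_mul_im, ← hx, ← hy]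
    exact mul_pos cx cy
  · rw [wcos_re, wcos_im, pi_mul_re, pi_mul_im, ← hx, ← hy]
    linarith only [key]
  · rw [normSq_apply, wcos_re, wcos_im, pi_mul_re, pi_mul_im, ← hx, ← hy]
    have e2 : Real.cos x * Real.cosh y * (Real.cos x * Real.cosh y) +
        -(Real.sin x * Real.sinh y) * -(Real.sin x * Real.sinh y) =
        Real.cos x ^ 2 + Real.sinh y ^ 2 := by
      have h1 : Real.cos x * Real.cosh y * (Real.cos x * Real.cosh y) =
        Real.cos x ^ 2 * Real.cosh y ^ 2 := by ring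
      have h2 : -(Real.sin x * Real.sinh y) * -(Real.sin x * Real.sinh y) =
        Real.sin x ^ 2 * Real.sinh y ^ 2 := by ring
      rw [h1, h2, hch, Real.sin_sq x]
      ring
    have h3 : Real.cos x ^ 2 ≤ 1 := Real.cos_sq_le_one x
    have h4 : Real.sinh y ^ 2 ≤ 29856 / 100000 := by
      refine ys2.trans ?_
      calc Real.tan θ' ^ 2 * Real.cos x ^ 2 ≤ 29856 / 100000 * 1 :=
            mul_le_mul tt h3 (by positivity) (by norm_num)
        _ = _ := by ring
    rw [e2]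
    linarith only [h4, h3]

/-- The increase along the ray if the other vertex is at `0`. -/
theorem kg_one {s : ℝ} (hs0 : 0 < s) (hs1 : s ≤ 1 / 2) {q : ℂ} (hq : |q.im| < Real.pi / 2)
    (hqc : sinh q = tan (UU (16 / 25 * s) s)) : 63 / 200 * s ≤ q.im - 16 / 25 * q.re := by
  have hpi := Real.pi_gt_three
  have hx := kg_abs hs0.le hs1
  obtain ⟨hD, t1, t2⟩ := kg_tanUU (s := s) hx
  have e1 := congrArg Complex.re hqc
  have e2 := congrArg Complex.im hqc
  rw [sinh_re', t1] at e1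
  rw [sinh_im', t2] at e2
  obtain ⟨a, ha⟩ : ∃ a, a = q.re := ⟨_, rfl⟩
  obtain ⟨b, hb⟩ : ∃ b, b = q.im := ⟨_, rfl⟩
  rw [← ha, ← hb] at e1 e2 ⊢
  rw [← hb] at hq
  have hv : s ^ 2 ≤ 1 / 4 := by (refine le_of_not_gt fun hng => ?_; linarith only [mul_nonneg (sub_nonneg.2 hs0.le) (sub_nonneg.2 hs1),
                                  mul_pos (sub_pos.2 hng) (sub_pos.2 hs0),
                                  mul_nonneg (sq_nonneg (1 * s)) (sub_nonneg.2 hs1)])
  have hcb := cos_pos' hq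
  have hq' := abs_lt.1 hq
  have sx0 : 0 < Real.sin (16 / 25 * s) :=
    Real.sin_pos_of_pos_of_lt_pi (by linarith only [hs0]) (by linarith only [hpi, hs1, hs0])
  have sx1 : Real.sin (16 / 25 * s) ≤ 16 / 25 * s := Real.sin_le (by linarith only [hs0])
  have ss0 : 0 < Real.sinh s := Real.sinh_pos_iff.2 hs0
  have hD1 : 1 ≤ 1 + Real.sinh s ^ 2 - Real.sin (16 / 25 * s) ^ 2 := by
    have h1 : Real.sin (16 / 25 * s) ≤ Real.sinh s := by
      have := Real.self_le_sinh_iff.2 hs0.le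
      linarith only [this, ss0, sx1]
    have := pow_le_pow_left₀ sx0.le h1 2
    linarith only [this]
  have hD2 : 1 + Real.sinh s ^ 2 - Real.sin (16 / 25 * s) ^ 2 ≤ 1 + s ^ 2 * (1 + 7 / 20 * s ^ 2) := by
    have a1 := kg_sinh hs0.le (by linarith only [hs1])
    have b1 : Real.sinh s ^ 2 ≤ (s + s ^ 3 / 6 + s ^ 5 / 100) ^ 2 :=
      pow_le_pow_left₀ ss0.le a1 2
    obtain ⟨v, hvd⟩ : ∃ v, v = s ^ 2 := ⟨_, rfl⟩
    have v0 : 0 ≤ v := by rw [hvd]; positivity
    have c1 : (s + s ^ 3 / 6 + s ^ 5 / 100) ^ 2 ≤ v * (1 + 7 / 20 * v) := by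
      have e : (s + s ^ 3 / 6 + s ^ 5 / 100) ^ 2 = v * (1 + v / 6 + v ^ 2 / 100) ^ 2 := by
        rw [hvd]; ring
      rw [e]
      apply mul_le_mul_of_nonneg_left _ v0
      rw [← hvd] at hv
      have v2 : v ^ 2 ≤ 1 / 4 * v := by (refine le_of_not_gt fun hng => ?_; linarith only [hng, hvd,
                                          mul_nonneg (sub_nonneg.2 hng.le) (sub_nonneg.2 hvd.le),
                                          mul_nonneg (sub_nonneg.2 hng.le) (sub_nonneg.2 hvd.ge),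
                                          mul_nonneg (sq_nonneg (1 * v)) (sub_nonneg.2 hvd.le),
                                          mul_nonneg (sq_nonneg (1 * v)) (sub_nonneg.2 hvd.ge),
                                          mul_nonneg (sq_nonneg (s)) (sub_nonneg.2 hv)])
      have v20 : 0 ≤ v ^ 2 := by positivity
      have v3 : v ^ 3 ≤ 1 / 4 * v ^ 2 := by linarith only [mul_nonneg (sq_nonneg (v)) (sub_nonneg.2 hv)]
      have v4 : v ^ 4 ≤ 1 / 4 * v ^ 3 := by linarith only [mul_nonneg (sq_nonneg (v)) (sub_nonneg.2 v2)]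
      linarith only [v4, v3, v2, v0]
    rw [← hvd]
    linarith only [sq_nonneg (Real.sin (16 / 25 * s)), c1, b1]
  obtain ⟨A, hA⟩ : ∃ A, A = Real.sin (16 / 25 * s) * Real.cos (16 / 25 * s) := ⟨_, rfl⟩
  obtain ⟨B, hB⟩ : ∃ B, B = Real.sinh s * Real.cosh s := ⟨_, rfl⟩
  obtain ⟨D, hDd⟩ : ∃ D, D = 1 + Real.sinh s ^ 2 - Real.sin (16 / 25 * s) ^ 2 := ⟨_, rfl⟩
  rw [← hA, ← hDd] at e1
  rw [← hB, ← hDd] at e2
  rw [← hDd] at hD hD1 hD2
  have A1 : A ≤ 16 / 25 * s := by
    rw [hA]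
    calc _ ≤ Real.sin (16 / 25 * s) * 1 :=
          mul_le_mul_of_nonneg_left (Real.cos_le_one _) sx0.le
      _ ≤ _ := by linarith only [sx1]
  have A0 : 0 < A := by rw [hA]; exact mul_pos sx0 (cos_pos' hx)
  have B2 : 2 * B = Real.sinh (2 * s) := by rw [hB, Real.sinh_two_mul]; ring
  have B1 : B ≤ 589 / 1000 := by
    have h1 : Real.sinh (2 * s) ≤ Real.sinh 1 := Real.sinh_le_sinh.2 (by linarith only [hs1])
    have h2 := kg_sinh (x := 1) (by norm_num) le_rfl
    norm_num at h2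
    linarith only [h2, h1, B2, sx1, sx0, hs1]
  have B3 : s * (1 + 2 / 3 * s ^ 2) ≤ B := by
    have h1 := Cl.n_sh5 (x := 2 * s) (by linarith only [hs0])
    have h5 : 0 ≤ (2 * s) ^ 5 := by positivity
    linarith only [h5, h1, B2]
  have B0 : 0 < B := by rw [hB]; exact mul_pos ss0 (Real.cosh_pos s)
  -- `b > 0`
  have hca := Real.one_le_cosh a
  have i1 : 0 < Real.sin b := by
    have h1 : 0 < Real.cosh a * Real.sin b := by rw [e2]; positivity
    by_contra h0
    push Not at h0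
    linarith only [h0, mul_nonneg (sub_nonneg.2 hca) (sub_nonneg.2 h0),
      mul_nonneg (sub_nonneg.2 sx1) (sub_nonneg.2 h1.le), mul_pos (sub_pos.2 sx0) (sub_pos.2 h1),
      mul_nonneg (sub_nonneg.2 hs1) (sub_nonneg.2 h1.le)]
  have b0 : 0 < b := by
    by_contra h0
    push Not at h0
    have := Real.sin_nonpos_of_nonpos_of_neg_pi_le h0 (by linarith only [hq'.1, hpi, hs1, hs0])
    linarith only [this, i1]
  have e1' : Real.sinh a * Real.cos b * D = A := by rw [e1]; field_simp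
  have e2' : Real.cosh a * Real.sin b * D = B := by rw [e2]; field_simp
  have i2 : Real.sin b ≤ 589 / 1000 := by
    have h1 : Real.sin b * 1 ≤ Real.sin b * (Real.cosh a * D) := by
      apply mul_le_mul_of_nonneg_left _ i1.le
      (refine le_of_not_gt fun hng => ?_; linarith only [hca, hD1,
        mul_nonneg (sub_nonneg.2 hD1) (sub_nonneg.2 hca),
        mul_nonneg (sub_nonneg.2 hng.le) (sub_nonneg.2 sx1),
        mul_pos (sub_pos.2 hng) (sub_pos.2 sx0),
        mul_nonneg (sub_nonneg.2 hng.le) (sub_nonneg.2 hs1)])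
    linarith only [h1, e2', B1]
  have i3 : 4 / 5 ≤ Real.cos b := by
    apply le_of_sq_le_sq _ hcb.le
    have := pow_le_pow_left₀ i1.le i2 2
    rw [Real.cos_sq']
    norm_num at this ⊢
    linarith only [this, sx1, sx0, hs1]
  have sa0 : 0 < Real.sinh a := by
    have h1 : 0 < Real.sinh a * Real.cos b * D := by rw [e1']; exact A0
    by_contra h0
    push Not at h0
    have h2 : Real.sinh a * Real.cos b * D ≤ 0 := by
      have : Real.sinh a * Real.cos b ≤ 0 := mul_nonpos_of_nonpos_of_nonneg h0 hcb.le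
      exact mul_nonpos_of_nonpos_of_nonneg this hD.le
    linarith only [h2, e1', A0]
  have a0 : 0 < a := Real.sinh_pos_iff.1 sa0
  have a1 : a ≤ 4 / 5 * s := by
    have h1 : a ≤ Real.sinh a := Real.self_le_sinh_iff.2 a0.le
    have h2 : Real.sinh a * (4 / 5 * 1) ≤ Real.sinh a * (Real.cos b * D) := by
      apply mul_le_mul_of_nonneg_left _ sa0.le
      exact mul_le_mul i3 hD1 (by norm_num) hcb.le
    linarith only [h2, h1, e1', A1]
  have ch1 : Real.cosh a ≤ 1 + 13 / 40 * s ^ 2 := by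
    have h1 := Cl.pb_ch6 a0.le (by linarith only [a1, sx1, sx0, hs1])
    have h2 : a ^ 2 ≤ 16 / 25 * s ^ 2 := by (refine le_of_not_gt fun hng => ?_; linarith only [mul_nonneg (sub_nonneg.2 a0.le) (sub_nonneg.2 a1),
                                              mul_nonneg (sub_nonneg.2 hs0.le) (sub_nonneg.2 a1),
                                              mul_nonneg (sub_nonneg.2 hng.le) (sub_nonneg.2 sx1),
                                              mul_pos (sub_pos.2 hng) (sub_pos.2 sx0),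
                                              mul_nonneg (sub_nonneg.2 hng.le) (sub_nonneg.2 hs1)])
    have h3 : a ^ 4 ≤ 4 / 25 * (16 / 25 * s ^ 2) := by
      have : a ^ 4 = a ^ 2 * a ^ 2 := by ring
      rw [this]
      exact mul_le_mul (by linarith only [h2, hv]) h2 (by positivity) (by norm_num)
    have h4 : a ^ 6 ≤ 1 / 25 * (16 / 25 * s ^ 2) := by
      have : a ^ 6 = a ^ 4 * a ^ 2 := by ring
      rw [this]
      exact mul_le_mul (by linarith only [h3, sx1, sx0, hv, hs1]) h2 (by positivity) (by norm_num)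
    linarith only [h4, h3, h2, h1, hca]
  have b1 : 169 / 200 * s ≤ Real.sin b := by
    by_contra h0
    push Not at h0
    have h1 : Real.cosh a * D ≤ (1 + 13 / 40 * s ^ 2) * (1 + s ^ 2 * (1 + 7 / 20 * s ^ 2)) :=
      mul_le_mul ch1 hD2 hD.le (by positivity)
    have h2 : B ≤ 169 / 200 * s * ((1 + 13 / 40 * s ^ 2) *
        (1 + s ^ 2 * (1 + 7 / 20 * s ^ 2))) := by
      rw [← e2']
      calc Real.cosh a * Real.sin b * D = Real.sin b * (Real.cosh a * D) := by ring
        _ ≤ 169 / 200 * s * ((1 + 13 / 40 * s ^ 2) * (1 + s ^ 2 * (1 + 7 / 20 * s ^ 2))) :=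
            mul_le_mul h0.le h1 (by positivity) (by positivity)
    have h3 : s * (1 + 2 / 3 * s ^ 2) ≤ s * (169 / 200 * ((1 + 13 / 40 * s ^ 2) *
        (1 + s ^ 2 * (1 + 7 / 20 * s ^ 2)))) := by
      refine B3.trans (h2.trans (le_of_eq (by ring)))
    have h4 := le_of_mul_le_mul_left h3 hs0
    obtain ⟨v, hvd⟩ : ∃ v, v = s ^ 2 := ⟨_, rfl⟩
    rw [← hvd] at h4 hv
    have v0 : 0 ≤ v := by rw [hvd]; positivity
    have v2 : v ^ 2 ≤ 1 / 4 * v := by (refine le_of_not_gt fun hng => ?_; linarith only [hvd,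
                                        mul_nonneg (sub_nonneg.2 hng.le) (sub_nonneg.2 hvd.le),
                                        mul_nonneg (sub_nonneg.2 hng.le) (sub_nonneg.2 hvd.ge),
                                        mul_nonneg (sub_nonneg.2 hng.le) (sub_nonneg.2 sx1),
                                        mul_pos (sub_pos.2 hng) (sub_pos.2 sx0),
                                        mul_nonneg (sub_nonneg.2 hng.le) (sub_nonneg.2 hs1),
                                        mul_nonneg (sq_nonneg (1 * v)) (sub_nonneg.2 hvd.le),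
                                        mul_nonneg (sq_nonneg (1 * v)) (sub_nonneg.2 hvd.ge),
                                        mul_nonneg (sq_nonneg (s)) (sub_nonneg.2 hv)])
    have v3 : v ^ 3 ≤ 1 / 4 * v ^ 2 := by linarith only [mul_nonneg (sq_nonneg (1 * v)) (sub_nonneg.2 hv)]
    linarith only [v3, v2, h4, hv, sx1, sx0, hs1]
  have b2 : Real.sin b ≤ b := Real.sin_le b0.le
  linarith only [b2, b1, a1, sx1, sx0]

variable {Φ : ℂ → ℂ → ℂ}

theorem gd_uof_zero : gd (uof 0) = 0 := by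
  have h : |(0 : ℂ).re| < 1 / 2 := by rw [zero_re, abs_zero]; norm_num
  rw [uof, gd_igd (pi_re_lt h), mul_zero]

theorem uof_zero' : sinh (uof 0) = 0 ∧ cosh (uof 0) = 1 := by
  have h : |(0 : ℂ).re| < 1 / 2 := by rw [zero_re, abs_zero]; norm_num
  constructor
  · rw [uof, sinh_igd, mul_zero, Complex.tan_zero]
  · rw [uof, cosh_igd (pi_re_lt h), mul_zero, Complex.cos_zero, div_one]

/-- The gain along the ray if the other vertex is at `0`. -/
theorem kg_gain (hP : IsPhi Φ) (h : Ht4 θ) :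
    (Φ 0 0).re + kx θ ^ 2 / 10 ≤ (Φ (tk θ) 0).re := by
  have hpi := Real.pi_pos
  have hpc : (Real.pi : ℂ) ≠ 0 := by exact_mod_cast Real.pi_ne_zero
  obtain ⟨x0, x1, x2⟩ := kx_spec h
  have hreg : ∀ s, 0 ≤ s → s ≤ kx θ → Reg (igd (UU (16 / 25 * s) s)) (uof 0) := by
    intro s h0 h1
    have hz : |(0 : ℂ).re| < 1 / 2 := by rw [zero_re, abs_zero]; norm_num
    have hp : Pr θ θ (((16 / 25 * s / Real.pi : ℝ) : ℂ) + ((s / Real.pi : ℝ) : ℂ) * I) 0 :=
      ⟨Und_kg h h0 h1, Und_zero h.ht, h.ht, h.ht, by linarith only [h.ht.lt_quarter]⟩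
    have hq := hp.qo.reg
    have e1 : Real.pi * (16 / 25 * s / Real.pi) = 16 / 25 * s := by field_simp
    have e2 : Real.pi * (s / Real.pi) = s := by field_simp
    rw [uof_line, e1, e2, ← hp.hw.conj_u, map_zero] at hq
    exact hq
  have hmono : MonotoneOn (fun s : ℝ => FP Φ (UU (16 / 25 * s) s) (gd (uof 0)) - s ^ 2 / 10)
      (Set.Icc 0 (kx θ)) := by
    have hd : ∀ s ∈ Set.Icc 0 (kx θ), HasDerivAt
        (fun s : ℝ => FP Φ (UU (16 / 25 * s) s) (gd (uof 0)) - s ^ 2 / 10)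
        (2 / Real.pi * ((qq (igd (UU (16 / 25 * s) s)) (uof 0)).im -
        16 / 25 * (qq (igd (UU (16 / 25 * s) s)) (uof 0)).re) - 2 * s / 10) s := by
      intro s hs
      have h1 := kg_deriv hP (kg_abs hs.1 (hs.2.trans x1.le)) (hreg s hs.1 hs.2)
      have h2 := (hasDerivAt_pow 2 s).div_const (10 : ℝ)
      refine (h1.sub h2).congr_deriv ?_
      norm_num
    apply monotoneOn_of_deriv_nonneg (convex_Icc _ _)
    · exact fun s hs => (hd s hs).continuousAt.continuousWithinAt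
    · intro s hs
      rw [interior_Icc] at hs
      exact (hd s ⟨hs.1.le, hs.2.le⟩).differentiableAt.differentiableWithinAt
    · intro s hs
      rw [interior_Icc] at hs
      rw [(hd s ⟨hs.1.le, hs.2.le⟩).deriv]
      have hr := hreg s hs.1.le hs.2.le
      have h1 := kg_one hs.1 (by linarith only [hs.2, x1]) (q := qq (igd (UU (16 / 25 * s) s)) (uof 0))
        (qq_im_lt hr) (by rw [sinh_qq, sinh_igd, uof_zero'.2, div_one])
      have h2 : 2 / Real.pi * (63 / 200 * s) ≤ 2 / Real.pi *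
          ((qq (igd (UU (16 / 25 * s) s)) (uof 0)).im -
        16 / 25 * (qq (igd (UU (16 / 25 * s) s)) (uof 0)).re) :=
        mul_le_mul_of_nonneg_left h1 (by positivity)
      have h3 : 2 * s / 10 ≤ 2 / Real.pi * (63 / 200 * s) := by
        rw [div_mul_eq_mul_div, le_div_iff₀ hpi]
        have := Real.pi_lt_d4
        (refine le_of_not_gt fun hng => ?_; linarith only [mul_pos (sub_pos.2 this) (sub_pos.2 hs.1),
          mul_pos (sub_pos.2 x1) (sub_pos.2 hs.1), mul_pos (sub_pos.2 x0) (sub_pos.2 hs.1),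
          mul_pos (sub_pos.2 hng) (sub_pos.2 x1), mul_pos (sub_pos.2 hng) (sub_pos.2 x0)])
      linarith only [h3, h2]
  have key := hmono ⟨le_rfl, x0.le⟩ ⟨x0.le, le_rfl⟩ x0.le
  simp only at key
  have e0 : FP Φ (UU (16 / 25 * 0) 0) (gd (uof 0)) = (Φ 0 0).re := by
    rw [FP, mul_zero, LowA_UU0, ofReal_zero, zero_div, gd_uof_zero, zero_div]
  have e1 : FP Φ (UU (16 / 25 * kx θ) (kx θ)) (gd (uof 0)) = (Φ (tk θ) 0).re := by
    rw [FP, gd_uof_zero, zero_div, ← tk_eq h, mul_div_cancel_left₀ _ hpc]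
  rw [e0, e1] at key
  linarith only [key]

/-- Opposite signs, test point of a vertex with at least four twists. -/
theorem low_K3 (hP : IsPhi Φ) {w : ℂ} (h : Ht4 θ) (hw : Und θ' w) (h' : Ht θ') :
    (Φ 0 ((starRingEnd ℂ) w)).re < (Φ (tk θ) ((starRingEnd ℂ) w)).re := by
  have hpi := Real.pi_pos
  have hpc : (Real.pi : ℂ) ≠ 0 := by exact_mod_cast Real.pi_ne_zero
  have hwa : |((starRingEnd ℂ) w).re| < 1 / 2 := conj_abs hw.abs
  have hgW : gd (uof ((starRingEnd ℂ) w)) = (Real.pi : ℂ) * (starRingEnd ℂ) w := by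
    rw [uof, gd_igd (pi_re_lt hwa)]
  obtain ⟨x0, x1, x2⟩ := kx_spec h
  obtain ⟨c0, c1, c2⟩ := dg_c hw h'
  have hreg : ∀ s, 0 ≤ s → s ≤ kx θ →
      Reg (igd (UU (16 / 25 * s) s)) (uof ((starRingEnd ℂ) w)) := by
    intro s h0 h1
    have hp : Pr θ θ' (((16 / 25 * s / Real.pi : ℝ) : ℂ) + ((s / Real.pi : ℝ) : ℂ) * I) w :=
      ⟨Und_kg h h0 h1, hw, h.ht, h', by linarith only [h'.lt_quarter, h.ht.lt_quarter]⟩
    have hq := hp.qo.reg
    have e1 : Real.pi * (16 / 25 * s / Real.pi) = 16 / 25 * s := by field_simp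
    have e2 : Real.pi * (s / Real.pi) = s := by field_simp
    rw [uof_line, e1, e2, ← hw.conj_u] at hq
    exact hq
  have key := kg_mono hP x0 x1.le hreg c0 (by linarith only [c1, c0]) c2
  have e0 : FP Φ (UU 0 0) (gd (uof ((starRingEnd ℂ) w))) = (Φ 0 ((starRingEnd ℂ) w)).re := by
    rw [FP, LowA_UU0, ofReal_zero, zero_div, hgW, mul_div_cancel_left₀ _ hpc]
  have e1 : FP Φ (UU (16 / 25 * kx θ) (kx θ)) (gd (uof ((starRingEnd ℂ) w))) =
      (Φ (tk θ) ((starRingEnd ℂ) w)).re := by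
    rw [FP, hgW, mul_div_cancel_left₀ _ hpc, ← tk_eq h, mul_div_cancel_left₀ _ hpc]
  rw [e0, e1] at key
  exact key

theorem low_K3' (hP : IsPhi Φ) {v : ℂ} (h' : Ht4 θ') (hv : Und θ v) (h : Ht θ) :
    (Φ v 0).re < (Φ v ((starRingEnd ℂ) (tk θ'))).re := by
  have h1 := low_K3 hP.swap h' hv h
  have ha := hv.abs
  have ht : |(tk θ').re| < 1 / 2 := (Und_tk h').abs
  have hp : Pr θ θ' v (tk θ') :=
    ⟨hv, Und_tk h', h, h'.ht, by linarith only [h'.ht.lt_quarter, h.lt_quarter]⟩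
  have hr := hp.qo.reg
  rw [← hp.hw.conj_u] at hr
  have e1 : (Φ ((starRingEnd ℂ) v) (tk θ')).re = (Φ v ((starRingEnd ℂ) (tk θ'))).re := by
    have := Phi_conj_re hP ha (conj_abs ht) hr
    rwa [conj_conj] at this
  have e2 : (Φ ((starRingEnd ℂ) v) 0).re = (Φ v 0).re := by
    have hz : |(0 : ℂ).re| < 1 / 2 := by
      rw [zero_re, abs_zero]
      norm_num
    have hp0 : Pr θ θ' v 0 := ⟨hv, Und_zero h'.ht, h, h'.ht, hp.S⟩
    have hr0 := hp0.qo.reg
    rw [← hp0.hw.conj_u, map_zero] at hr0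
    have := Phi_conj_re hP ha hz hr0
    rwa [map_zero] at this
  rw [← e1, ← e2]
  exact h1

/-- Equal signs. -/
theorem low_K3s (hP : IsPhi Φ) {w : ℂ} (h : Ht4 θ) (hw : Und θ' w) (h' : Ht4 θ')
    (hw1 : w.re ≤ 13 / 40) : (Φ 0 w).re < (Φ (tk θ) w).re := by
  have hpi := Real.pi_pos
  have hpc : (Real.pi : ℂ) ≠ 0 := by exact_mod_cast Real.pi_ne_zero
  have hgW : gd (uof w) = (Real.pi : ℂ) * w := by rw [uof, gd_igd (pi_re_lt hw.abs)]
  obtain ⟨x0, x1, x2⟩ := kx_spec h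
  obtain ⟨c0, c1, c2⟩ := kg_c hw h' hw1
  have hreg : ∀ s, 0 ≤ s → s ≤ kx θ → Reg (igd (UU (16 / 25 * s) s)) (uof w) := by
    intro s h0 h1
    have hp : Pr θ θ' (((16 / 25 * s / Real.pi : ℝ) : ℂ) + ((s / Real.pi : ℝ) : ℂ) * I) w :=
      ⟨Und_kg h h0 h1, hw, h.ht, h'.ht, by linarith only [h'.ht.lt_quarter, h.ht.lt_quarter]⟩
    have hq := hp.qo.reg
    have e1 : Real.pi * (16 / 25 * s / Real.pi) = 16 / 25 * s := by field_simp
    have e2 : Real.pi * (s / Real.pi) = s := by field_simp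
    rw [uof_line, e1, e2] at hq
    unfold Reg at hq ⊢
    rwa [conj_im, abs_neg] at hq
  have key := kg_mono hP x0 x1.le hreg c0 c1 c2
  have e0 : FP Φ (UU 0 0) (gd (uof w)) = (Φ 0 w).re := by
    rw [FP, LowA_UU0, ofReal_zero, zero_div, hgW, mul_div_cancel_left₀ _ hpc]
  have e1 : FP Φ (UU (16 / 25 * kx θ) (kx θ)) (gd (uof w)) = (Φ (tk θ) w).re := by
    rw [FP, hgW, mul_div_cancel_left₀ _ hpc, ← tk_eq h, mul_div_cancel_left₀ _ hpc]
  rw [e0, e1] at key
  exact key

theorem low_K3s' (hP : IsPhi Φ) {v : ℂ} (h' : Ht4 θ') (hv : Und θ v) (h : Ht4 θ)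
    (hv1 : v.re ≤ 13 / 40) : (Φ v 0).re < (Φ v (tk θ')).re :=
  low_K3s hP.swap h' hv h hv1

/-! ### The values at the test points -/

theorem rK_add {x : ℝ} (h0 : Φ 0 0 = c00) (hx : (Φ 0 0).re < x) (h : Ht4 θ) :
    rK θ + Real.pi / 6 < x := by
  have h3 := LowA_c00_gt
  have := rK_le h
  have := Real.pi_lt_d4
  rw [← h0] at h3
  linarith [this, h3, hx]

/-- Equal signs. -/
theorem low_K1s (hP : IsPhi Φ) (h0 : Φ 0 0 = c00) (h : Ht4 θ) (h' : Ht4 θ') :
    rK θ + rK θ' < (Φ (tk θ) (tk θ')).re ∧ (Φ 0 0).re < (Φ (tk θ) (tk θ')).re := by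
  have h1 := kg_gain hP h
  have h2 := low_K3s' hP h' (Und_tk h) h (by linarith only [tk_re_lt h])
  have h3 := LowA_c00_gt
  rw [← h0] at h3
  have h4 := rK_le h'
  have h5 := rK_gain h
  have h6 := (kx_spec h).1
  constructor
  · linarith only [h5, h4, h3, h2, h1]
  · linarith only [h2, h1, sq_nonneg (1 * kx θ)]

/-- Opposite signs. -/
theorem low_K1 (hP : IsPhi Φ) (h0 : Φ 0 0 = c00) (h : Ht4 θ) (h' : Ht4 θ') :
    rK θ + rK θ' < (Φ (tk θ) ((starRingEnd ℂ) (tk θ'))).re ∧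
      (Φ 0 0).re < (Φ (tk θ) ((starRingEnd ℂ) (tk θ'))).re := by
  have h1 := kg_gain hP h
  have h2 := low_K3' hP h' (Und_tk h) h.ht
  have h3 := LowA_c00_gt
  rw [← h0] at h3
  have h4 := rK_le h'
  have h5 := rK_gain h
  have h6 := (kx_spec h).1
  constructor
  · linarith only [h5, h4, h3, h2, h1]
  · linarith only [h2, h1, sq_nonneg (1 * kx θ)]

/-- Opposite signs, the first vertex has three twists. -/
theorem low_K1l (hP : IsPhi Φ) (h0 : Φ 0 0 = c00) (h : Ht θ) (h' : Ht4 θ') :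
    Real.pi / 6 + rK θ' < (Φ (td θ) ((starRingEnd ℂ) (tk θ'))).re ∧
      (Φ 0 0).re < (Φ (td θ) ((starRingEnd ℂ) (tk θ'))).re := by
  have h1 := low_D3 hP h (Und_tk h') h'.ht
  have h2 := low_K3' hP h' (Und_zero h) h
  have h3 : (Φ 0 0).re < (Φ (td θ) ((starRingEnd ℂ) (tk θ'))).re := h2.trans h1
  exact ⟨by linarith only [rK_add h0 h3 h'], h3⟩

/-- Opposite signs, the second vertex has three twists. -/
theorem low_K1r (hP : IsPhi Φ) (h0 : Φ 0 0 = c00) (h : Ht4 θ) (h' : Ht θ') :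
    rK θ + Real.pi / 6 < (Φ (tk θ) ((starRingEnd ℂ) (td θ'))).re ∧
      (Φ 0 0).re < (Φ (tk θ) ((starRingEnd ℂ) (td θ'))).re := by
  have h1 := low_K3 hP h (Und_td h') h'
  have h2 := low_D3' hP h' (Und_zero h.ht) h.ht
  have h3 : (Φ 0 0).re < (Φ (tk θ) ((starRingEnd ℂ) (td θ'))).re := h2.trans h1
  exact ⟨rK_add h0 h3 h, h3⟩

end

end Pool.Agent.MX
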