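import Pool.Agent.MX.LowK2
import Pool.Agent.AT.LowD5

/-!
# The small indices: the edges with opposite signs, general test points
-/

set_option autoImplicit false

namespace Pool.Agent.MX

open Complex Pool.Agent.S3
open Pool.Agent.H25.RK (gdv gdv_re_lt gdv_hasDerivAt)

section

variable {Φ : ℂ → ℂ → ℂ} {θ θ' v1 v1' : ℝ} {v w t t' : ℂ}

/-- The test points. -/
structure TP (θ : ℝ) (t : ℂ) : Prop where
  im : t.im = bl θ t.re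
  re0 : 0 < t.re
  re1 : t.re < 1 / 4
  D3 : ∀ {Φ : ℂ → ℂ → ℂ}, IsPhi Φ → ∀ {θ' : ℝ} {w : ℂ}, Und θ' w → Ht θ' →
    (Φ 0 ((starRingEnd ℂ) w)).re < (Φ t ((starRingEnd ℂ) w)).re

theorem tp_td (h : Ht θ) : TP θ (td θ) :=
  ⟨td_im θ, td_re_pos h, td_re_lt h, fun hP _ _ hw h' => low_D3 hP h hw h'⟩

theorem tp_tk (h : Ht4 θ) : TP θ (tk θ) :=
  ⟨tk_im θ, tk_re_pos h, tk_re_lt h, fun hP _ _ hw h' => low_K3 hP h hw h'⟩

theorem TP.mem (h : TP θ t) (h1 : 1 / 4 ≤ v1) : t ∈ G0 θ v1 :=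
  Or.inl ⟨by rw [abs_of_pos h.re0]; linarith [h.re1], h.im⟩

theorem TP.pl (h : TP θ t) (h1 : 1 / 4 ≤ v1) : pl θ v1 t = t :=
  pl_of_line (by rw [abs_of_pos h.re0]; linarith [h.re1]) h.im

theorem TP.cmp (h : TP θ t) (h1 : 1 / 4 ≤ v1) : cmp v1 t = t := by
  unfold S3.cmp
  rw [if_pos (by linarith [h.re1])]

theorem TP.ab (h : TP θ t) : ab t = t := by
  unfold S3.ab
  rw [if_pos h.re0.le]

variable {xc xc' b b' μ μ' a a' : ℝ}

/-- The bound at the test points is at least the value of the potential. -/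
theorem lowT_ge (H : OO Φ θ θ' xc xc' b b' v1 v1') (hL : GainL Φ θ θ' v1 v1' (mu b a v1))
    (hR : GainR Φ θ θ' v1 v1' (mu b' a' v1')) (ha : 0 < a) (ha' : 0 < a') (h1 : 1 / 4 ≤ v1)
    (h1' : 1 / 4 ≤ v1') (T : TP θ t) (T' : TP θ' t') :
    (Φ t ((starRingEnd ℂ) t')).re ≤ LL1 θ θ' b b' xc xc' a a' v1 v1' t (mir t') := by
  have k2 := H.Phi_le hL hR (T.mem h1) T.re0.le (T'.mem h1') T'.re0.le
  have k3 := H.LM_le ha ha' (T.mem h1) (mir_mem (T'.mem h1'))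
  rw [mir_mir, T.ab, T'.ab] at k3
  rw [T.cmp h1, T'.cmp h1'] at k2
  linarith

/-- Both vertices near the real axis. -/
theorem lowT_rr (H : OO Φ θ θ' xc xc' b b' v1 v1') (hF : FlatAll θ θ' v1 v1')
    (hL : GainL Φ θ θ' v1 v1' (mu b a v1)) (hR : GainR Φ θ θ' v1 v1' (mu b' a' v1'))
    (ha : 0 < a) (ha' : 0 < a') (h1 : 1 / 4 ≤ v1) (h1' : 1 / 4 ≤ v1') (T : TP θ t)
    (T' : TP θ' t') (hb : (Φ 0 0).re < (Φ t ((starRingEnd ℂ) t')).re) {x x' : ℝ}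
    (hx : |x| ≤ 1 / 2) (hx' : |x'| ≤ 1 / 2) : EdgeOK (.op (x : ℂ)) (.op (x' : ℂ))
      (LL1 θ θ' b b' xc xc' a a' v1 v1' t (mir t')) := by
  have k0 := lowT_ge H hL hR ha ha' h1 h1' T T'
  have k1 := LowA_c00_gt
  rw [← H.h0] at k1
  exact S3.low_rr H.hΦ H.h0 H.hθ H.hθ' H.ho.S
    (hF 0 0 (Und_zero H.hθ) (Und_zero H.hθ') H.hv1.pos.le H.hv1'.pos.le) (by linarith)
    (by linarith) hx hx'

/-- The first vertex near the real axis. -/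
theorem lowT_rg (H : OO Φ θ θ' xc xc' b b' v1 v1') (hF : FlatAll θ θ' v1 v1')
    (hL : GainL Φ θ θ' v1 v1' (mu b a v1)) (hR : GainR Φ θ θ' v1 v1' (mu b' a' v1'))
    (ha : 0 < a) (ha' : 0 < a') (h1 : 1 / 4 ≤ v1) (T : TP θ t) (hw : w ∈ G0 θ' v1') {x : ℝ}
    (hx : |x| ≤ 1 / 2) : EdgeOK (.op (x : ℂ)) (.op w)
      (LL1 θ θ' b b' xc xc' a a' v1 v1' t w) := by
  have hm := ab_mem (mir_mem hw)
  have hr := ab_re (mir w)
  have k1 := T.D3 H.hΦ (cmp_und H.hv1' hm hr H.hθ') H.hθ'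
  have k3 := H.Phi_le hL hR (T.mem h1) T.re0.le hm hr
  have k4 := H.LM_le ha ha' (T.mem h1) hw
  rw [T.ab] at k4
  rw [T.cmp h1] at k3
  exact low_rg_ab H.hΦ H.h0 H.hθ H.hθ' H.ho.S H.hv1 H.hv1' hF hw (by linarith) hx

/-- The second vertex near the real axis. -/
theorem lowT_gr (H : OO Φ θ θ' xc xc' b b' v1 v1') (hF : FlatAll θ θ' v1 v1')
    (hL : GainL Φ θ θ' v1 v1' (mu b a v1)) (hR : GainR Φ θ θ' v1 v1' (mu b' a' v1'))
    (ha : 0 < a) (ha' : 0 < a') (h1' : 1 / 4 ≤ v1') (T' : TP θ' t') (hv : v ∈ G0 θ v1) {x : ℝ}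
    (hx : |x| ≤ 1 / 2) : EdgeOK (.op v) (.op (x : ℂ))
      (LL1 θ θ' b b' xc xc' a a' v1 v1' v (mir t')) := by
  have k := lowT_rg H.swap (hF.swap H.hθ H.hθ' H.ho.S) (hR.swap H.hΦ) (hL.swap H.hΦ) ha' ha h1' T'
    (mir_mem hv) (x := -x) (by rwa [abs_neg])
  have e := H.LL1_swap (a := a) (a' := a') v (mir t')
  rw [mir_mir] at e
  rw [e] at k
  have k2 := k.symm.mir_both
  rwa [mir_mir, mir_ofReal, neg_neg] at k2

end

end Pool.Agent.MX
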