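import Pool.Agent.AT.SU.Lim
import Pool.Agent.AT.SU.Fin
import Pool.Agent.MX.WEdg1
import Pool.Agent.MX.CritT

/-!
# Trees with arbitrary signs: the asymptotics of the colored `SU(n)` invariants
-/

set_option autoImplicit false
set_option linter.unusedSectionVars false

namespace Pool.Agent.MX

open Pool.Agent.AT (Tr Cfg)
open Pool.Agent.AT.SU (JG4 J04 low_main4_of kkF_bd chH4 J04_lim fin_su)
open Pool.Agent.S4 (C4)
open Pool.Agent.H63.VC7 (inc)
open Pool.Agent.H63.VC11 (coloredSU)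
open Pool.Agent.H63.GO (cp)
open Complex Filter Topology
open scoped BigOperators

variable {m : ℕ} [Tr m] {n h : ℕ}

/-- The main part and a small rest. -/
private theorem lim_rest {F J0 J : ℕ → ℂ} (hF : ∀ M, ‖F M‖ = 1) {E : ℝ} (hE0 : 0 ≤ E) (W : ℂ)
    {c : ℂ} (hJ0 : Tendsto (fun M : ℕ => F M * J0 M / ((((M : ℝ) ^ E : ℝ) : ℂ) *
      exp (M * W))) atTop (𝓝 c))
    (hlow : ∃ δ : ℝ, 0 < δ ∧ ∃ (D : ℝ) (p : ℕ), ∀ᶠ M : ℕ in atTop,
      ‖J M - J0 M‖ ≤ D * (M : ℝ) ^ p * Real.exp (M * (W.re - δ))) :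
    Tendsto (fun M : ℕ => F M * J M / ((((M : ℝ) ^ E : ℝ) : ℂ) * exp (M * W))) atTop (𝓝 c) := by
  obtain ⟨δ, hδ, K, p, hev⟩ := hlow
  have hz : Tendsto (fun M : ℕ => F M * (J M - J0 M) /
      ((((M : ℝ) ^ E : ℝ) : ℂ) * exp (M * W))) atTop (𝓝 0) := by
    have hb : ∀ᶠ M : ℕ in atTop, ‖F M * (J M - J0 M) /
        ((((M : ℝ) ^ E : ℝ) : ℂ) * exp (M * W))‖ ≤ |K| * ((M : ℝ) ^ p * Real.exp (-(δ * M))) := by
      filter_upwards [hev, eventually_gt_atTop 0] with M h1 hM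
      have hM1 : (1 : ℝ) ≤ M := by exact_mod_cast hM
      have hMp : (0 : ℝ) < M := by linarith
      rw [norm_div, norm_mul, hF, one_mul, norm_mul, Complex.norm_real,
        Real.norm_of_nonneg (Real.rpow_pos_of_pos hMp _).le, Complex.norm_exp]
      have h2 : ((M : ℂ) * W).re = M * W.re := by
        rw [← Complex.ofReal_natCast, Complex.re_ofReal_mul]
      rw [h2]
      have h3 : (1 : ℝ) ≤ (M : ℝ) ^ E := Real.one_le_rpow hM1 hE0
      have h4 : 0 < Real.exp (M * W.re) := Real.exp_pos _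
      calc ‖J M - J0 M‖ / ((M : ℝ) ^ E * Real.exp (M * W.re))
          ≤ ‖J M - J0 M‖ / (1 * Real.exp (M * W.re)) := by
            gcongr
        _ ≤ (|K| * (M : ℝ) ^ p * Real.exp (M * (W.re - δ))) / (1 * Real.exp (M * W.re)) := by
            gcongr
            refine h1.trans ?_
            gcongr
            exact le_abs_self K
        _ = |K| * ((M : ℝ) ^ p * Real.exp (-(δ * M))) := by
            have h5 : Real.exp (M * (W.re - δ)) = Real.exp (M * W.re) * Real.exp (-(δ * M)) := by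
              rw [← Real.exp_add]; congr 1; ring
            rw [h5]
            field_simp
    refine squeeze_zero_norm' hb ?_
    have h6 : Tendsto (fun x : ℝ => x ^ p * Real.exp (-(δ * x))) atTop (𝓝 0) := by
      have := tendsto_rpow_mul_exp_neg_mul_atTop_nhds_zero (p : ℝ) δ hδ
      refine this.congr' ?_
      filter_upwards [eventually_gt_atTop 0] with x hx
      rw [Real.rpow_natCast, neg_mul]
    have h7 := (h6.comp tendsto_natCast_atTop_atTop (α := ℕ)).const_mul |K|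
    rw [mul_zero] at h7
    exact h7
  have h := hJ0.add hz
  rw [add_zero] at h
  refine h.congr fun M => ?_
  rw [← add_div]
  congr 1
  ring

/-- **The asymptotics at the root of unity**, from the estimates of the edges and of the small
indices. -/
theorem JG4_lim_of {C : Cfg m} (hn : 2 ≤ n) (hh : 1 ≤ h) (hh' : 2 * h ≤ n) (hC : C.Crit)
    (hop : ∀ i, i ∈ C.Op) {v1 : Fin (m + 1) → ℝ} {lam : Fin m → Fin (m + 1) → ℝ}
    {t : Fin (m + 1) → ℂ} {g0 : ℝ} {ρ : Fin (m + 1) → ℝ} (hE : C.Edg v1 lam)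
    (H : C.LowH v1 lam t g0 ρ) :
    ∃ c : ℂ, c ≠ 0 ∧ Tendsto (fun M : ℕ =>
      (∏ _i ∈ C.Op, (-1 : ℂ) ^ (M + n + 1)) *
      JG4 C.r n h M / ((((M : ℝ) ^ (3 / 2 * ((m : ℝ) + 1) + m / 2) : ℝ) : ℂ) *
        exp (M * C.V (cp C.ac C.bc)))) atTop (𝓝 c) := by
  have hcs : ∀ i, i ∉ C.Op → C.s i = 1 ∨ C.s i = -1 := fun i hi => (hi (hop i)).elim
  have hr : ∀ i, i ∉ C.Op → C.r i = C.s i := fun i hi => (hi (hop i)).elim
  have hinc : ∀ i, i ∉ C.Op → ∃ j, inc (Tr.par (m := m)) Fin.succ i = {j} :=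
    fun i hi => (hi (hop i)).elim
  obtain ⟨c, hc, hlim⟩ := J04_lim hn hh hh' hC hcs hr hinc hE
  refine ⟨c, hc, ?_⟩
  have hF : ∀ M : ℕ, ‖∏ _i ∈ C.Op, (-1 : ℂ) ^ (M + n + 1)‖ = 1 := by
    intro M
    rw [_root_.norm_prod]
    refine Finset.prod_eq_one fun i _ => ?_
    rw [norm_pow, norm_neg, norm_one, one_pow]
  refine lim_rest hF (by positivity) _ hlim ?_
  have hch := chH4 (C := C) hn hh hh' hC hcs
  obtain ⟨δ, hδ, D, -, p, hb⟩ := low_main4_of hn hh hh' hC hcs hr hinc hE H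
    (kkF_bd hch.kb hch.kl hch.kf hC hcs hE)
  refine ⟨δ, hδ, D, p, ?_⟩
  filter_upwards [hb] with M hM
  rw [AT.JLim_V_re hC]
  exact hM

/-- The asymptotics of the colored `SU(n)` invariants of a tree with arbitrary signs. -/
theorem su_tree (hm : 1 ≤ m) {a : Fin (m + 1) → ℕ} {σ : Fin (m + 1) → ℤ}
    {z : Fin (m + 1) → ℂ} (hz : MZ a σ z) {v1 : Fin (m + 1) → ℝ}
    {lam : Fin m → Fin (m + 1) → ℝ} {t : Fin (m + 1) → ℂ} {g0 : ℝ} {ρ : Fin (m + 1) → ℝ}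
    (hE : (cfgOf a σ z).Edg v1 lam) (H : (cfgOf a σ z).LowH v1 lam t g0 ρ)
    (r : Fin (m + 1) → ℤ) (hr : ∀ i, σ i * (a i : ℤ) = 2 * r i) {n g : ℕ} (hn : 2 ≤ n)
    (hg : 1 ≤ g) (hgn : g < n) :
    ∃ J : ℕ → ℂ,
      (∀ N : ℕ, n ≤ N → Tendsto (fun q => coloredSU
        (Pool.Agent.H63.VC11.diagram (Tr.par (m := m)) r) n N q)
        (𝓝[≠] exp (Real.pi * I / (N + g))) (𝓝 (J N))) ∧
      (∃ L : ℕ → ℂ, (∀ᶠ N : ℕ in atTop, exp (L N) = J N) ∧
        Tendsto (fun N : ℕ => 2 * (Real.pi : ℂ) * L N / (N + 1)) atTop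
          (𝓝 (((2 * Real.pi * (Wv a σ z).re : ℝ) : ℂ) +
            (C4 (fun i => 2 * r i) (Wv a σ z) Finset.univ : ℝ) * I))) ∧
      Tendsto (fun N : ℕ => 2 * (Real.pi : ℂ) * log (J N) / (N + 1)) atTop
        (𝓝 (((2 * Real.pi * (Wv a σ z).re : ℝ) : ℂ))) ∧
      ∃ κ : ℂ, κ ≠ 0 ∧ Tendsto (fun N : ℕ => J N /
        ((((N : ℝ) + g) ^ (2 * (n : ℝ) - 5 / 2) : ℝ) *
          exp ((N + g) * (((2 * Real.pi * (Wv a σ z).re : ℝ) : ℂ) +
            (C4 (fun i => 2 * r i) (Wv a σ z) Finset.univ : ℝ) * I) /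
            (2 * Real.pi)))) atTop (𝓝 κ) := by
  have hrc : (cfgOf a σ z).r = fun i => (r i : ℝ) := by
    funext i
    show (σ i : ℝ) * a i / 2 = (r i : ℝ)
    have := hr i
    have h : ((σ i : ℝ) * (a i : ℝ)) = 2 * (r i : ℝ) := by exact_mod_cast this
    rw [h]
    ring
  have hop : (cfgOf a σ z).Op = Finset.univ := Finset.eq_univ_of_forall fun i => mem_Op i
  obtain ⟨c, hc, hlim⟩ := JG4_lim_of (h := min g (n - g)) hn (by omega) (by omega) (crit hm hz)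
    (fun i => mem_Op i) hE H
  have hlim' : Tendsto (fun M : ℕ => (∏ _i ∈ (cfgOf a σ z).Op, (-1 : ℂ) ^ (M + n + 1)) *
      JG4 (cfgOf a σ z).r n (min g (n - g)) M /
        ((((M : ℝ) ^ (3 / 2 * ((m : ℝ) + 1) + m / 2) : ℝ) : ℂ) * exp (M * Wv a σ z))) atTop
      (𝓝 c) := hlim
  rw [hrc, hop] at hlim'
  exact fin_su r hn hg hgn (Wv a σ z) Finset.univ hc hlim'

end Pool.Agent.MX
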